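import Mathlib

/-!
# Extremal measures for the Laplacian: common definitions

`V n` is Euclidean space, `wt a s` the weight `(s^2 - |x|^2)_+^a`, `gg N r` the integral of
`cos (r t) (1 - t^2)^N` over `[-1,1]`.
-/

open MeasureTheory

namespace Pool.Agent.Helper3K9.EM

/-- Euclidean space of dimension `n`. -/
abbrev V (n : ℕ) : Type := EuclideanSpace ℝ (Fin n)

/-- the weight `(s^2 - |η|^2)_+^a`. -/
noncomputable def wt (a s : ℝ) {n : ℕ} (η : V n) : ℝ := (max (s ^ 2 - ‖η‖ ^ 2) 0) ^ a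

/-- `∫_{-1}^1 cos (r t) (1 - t^2)^N dt`. -/
noncomputable def gg (N : ℕ) (r : ℝ) : ℝ :=
  ∫ t in (-1 : ℝ)..1, Real.cos (r * t) * (1 - t ^ 2) ^ N

end Pool.Agent.Helper3K9.EM
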