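import Mathlib
import Pool.Agent.Helper3K9.EM.Defs

/-!
# Uniqueness for an Abel type equation
-/

set_option autoImplicit false

open MeasureTheory Set
open scoped Polynomial

namespace Pool.Agent.Helper3K9.EM

namespace AbelL

/-- the value of a polynomial in `s` (outer) and `u` (inner) -/
noncomputable def E (P : ℝ[X][X]) (s u : ℝ) : ℝ := (P.eval (Polynomial.C s)).eval u

theorem E_add (P Q : ℝ[X][X]) (s u : ℝ) : E (P + Q) s u = E P s u + E Q s u := by
  simp [E]

theorem E_mono (n : ℕ) (p : ℝ[X]) (s u : ℝ) :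
    E (Polynomial.monomial n p) s u = s ^ n * p.eval u := by
  simp [E, mul_comm]

theorem cont_E (P : ℝ[X][X]) (s : ℝ) : Continuous (fun u => E P s u) :=
  (P.eval (Polynomial.C s)).continuous

theorem hasDerivAt_symm {f : ℝ → ℂ} (hf : Continuous f) (s : ℝ) :
    HasDerivAt (fun s => ∫ u in (-s)..s, f u) (f s + f (-s)) s := by
  have h1 : (fun s => ∫ u in (-s)..s, f u) =
      fun s => (∫ u in (0 : ℝ)..s, f u) - ∫ u in (0 : ℝ)..(-s), f u := by
    funext s
    rw [intervalIntegral.integral_interval_sub_left (hf.intervalIntegrable _ _)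
      (hf.intervalIntegrable _ _)]
  rw [h1]
  have h2 := (hf.integral_hasStrictDerivAt 0 s).hasDerivAt
  have h3 := (hf.integral_hasStrictDerivAt 0 (-s)).hasDerivAt
  have h4 := h3.scomp s (hasDerivAt_neg s)
  have h5 := h2.fun_sub h4
  refine h5.congr_deriv ?_
  simp

theorem hasDerivAt_E {X : ℝ → ℂ} (hX : Continuous X) (P : ℝ[X][X]) (s : ℝ) :
    HasDerivAt (fun s => ∫ u in (-s)..s, X u * (E P s u : ℂ))
      ((∫ u in (-s)..s, X u * (E P.derivative s u : ℂ)) + X s * (E P s s : ℂ) +
        X (-s) * (E P s (-s) : ℂ)) s := by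
  induction P using Polynomial.induction_on' with
  | add P Q hP hQ =>
    have hc : ∀ (P : ℝ[X][X]) (s : ℝ), Continuous (fun u => X u * (E P s u : ℂ)) := fun P s =>
      hX.mul (Complex.continuous_ofReal.comp (cont_E P s))
    have h1 : (fun s : ℝ => ∫ u in (-s)..s, X u * (E (P + Q) s u : ℂ)) =
        fun s => (∫ u in (-s)..s, X u * (E P s u : ℂ)) + ∫ u in (-s)..s, X u * (E Q s u : ℂ) := by
      funext s
      rw [← intervalIntegral.integral_add ((hc P s).intervalIntegrable _ _)
        ((hc Q s).intervalIntegrable _ _)]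
      refine intervalIntegral.integral_congr fun u _ => ?_
      simp only [E_add, Complex.ofReal_add, mul_add]
    rw [h1]
    refine (hP.fun_add hQ).congr_deriv ?_
    rw [Polynomial.derivative_add]
    have h2 : ∫ u in (-s)..s, X u * (E (P.derivative + Q.derivative) s u : ℂ) =
        (∫ u in (-s)..s, X u * (E P.derivative s u : ℂ)) +
          ∫ u in (-s)..s, X u * (E Q.derivative s u : ℂ) := by
      rw [← intervalIntegral.integral_add ((hc _ s).intervalIntegrable _ _)
        ((hc _ s).intervalIntegrable _ _)]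
      refine intervalIntegral.integral_congr fun u _ => ?_
      simp only [E_add, Complex.ofReal_add, mul_add]
    rw [h2]
    simp only [E_add, Complex.ofReal_add]
    ring
  | monomial n p =>
    have hc : Continuous (fun u => X u * ((p.eval u : ℝ) : ℂ)) :=
      hX.mul (Complex.continuous_ofReal.comp p.continuous)
    have h1 : (fun s : ℝ => ∫ u in (-s)..s, X u * (E (Polynomial.monomial n p) s u : ℂ)) =
        fun s => ((s ^ n : ℝ) : ℂ) * ∫ u in (-s)..s, X u * ((p.eval u : ℝ) : ℂ) := by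
      funext s
      rw [← intervalIntegral.integral_const_mul]
      refine intervalIntegral.integral_congr fun u _ => ?_
      simp only [E_mono, Complex.ofReal_mul]
      ring
    rw [h1]
    have h2 := ((hasDerivAt_pow n s).ofReal_comp).fun_mul (hasDerivAt_symm hc s)
    refine h2.congr_deriv ?_
    rw [Polynomial.derivative_monomial]
    have h3 : ∫ u in (-s)..s, X u * (E (Polynomial.monomial (n - 1) (p * (n : ℝ[X]))) s u : ℂ) =
        ((n * s ^ (n - 1) : ℝ) : ℂ) * ∫ u in (-s)..s, X u * ((p.eval u : ℝ) : ℂ) := by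
      rw [← intervalIntegral.integral_const_mul]
      refine intervalIntegral.integral_congr fun u _ => ?_
      simp only [E_mono, Polynomial.eval_mul, Polynomial.eval_natCast, Complex.ofReal_mul]
      ring
    rw [h3]
    simp only [E_mono, Complex.ofReal_mul]
    ring

/-- `s^2 - u^2` -/
noncomputable def D : ℝ[X][X] := Polynomial.X ^ 2 - Polynomial.C (Polynomial.X ^ 2)

theorem E_D (b : ℕ) (s u : ℝ) : E (D ^ b) s u = (s ^ 2 - u ^ 2) ^ b := by
  simp [E, D]

theorem E_D' (b : ℕ) (s u : ℝ) : E (Polynomial.derivative (D ^ (b + 1))) s u =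
    2 * (b + 1) * s * (s ^ 2 - u ^ 2) ^ b := by
  have h : Polynomial.derivative D = Polynomial.C 2 * Polynomial.X := by
    rw [D, Polynomial.derivative_sub, Polynomial.derivative_C, sub_zero,
      Polynomial.derivative_X_pow]
    simp
  rw [Polynomial.derivative_pow_succ, h]
  have h2 := E_D b s u
  unfold E at h2 ⊢
  rw [Polynomial.eval_mul, Polynomial.eval_mul, Polynomial.eval_mul, Polynomial.eval_mul, h2]
  simp
  ring

theorem hasDerivAt_G {X : ℝ → ℂ} (hX : Continuous X) (b : ℕ) (s : ℝ) :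
    HasDerivAt (fun s : ℝ => ∫ u in (-s)..s, X u * (((s ^ 2 - u ^ 2) ^ (b + 1) : ℝ) : ℂ))
      ((2 * (b + 1) * s : ℝ) * ∫ u in (-s)..s, X u * (((s ^ 2 - u ^ 2) ^ b : ℝ) : ℂ)) s := by
  have h := hasDerivAt_E hX (D ^ (b + 1)) s
  simp only [E_D, E_D'] at h
  refine h.congr_deriv ?_
  rw [← intervalIntegral.integral_const_mul]
  have h1 : (s ^ 2 - s ^ 2) ^ (b + 1) = 0 := by rw [sub_self, zero_pow (by omega)]
  have h2 : (s ^ 2 - (-s) ^ 2) ^ (b + 1) = 0 := by rw [neg_sq, sub_self, zero_pow (by omega)]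
  rw [h1, h2, Complex.ofReal_zero, mul_zero, mul_zero, add_zero, add_zero]
  refine intervalIntegral.integral_congr fun u _ => ?_
  simp only [Complex.ofReal_mul]
  ring

theorem key {X : ℝ → ℂ} (hX : Continuous X) (heven : ∀ u, X (-u) = X u) (S : ℝ) (b : ℕ)
    (h : ∀ s, 0 < s → s < S → ∫ u in (-s)..s, X u * (((s ^ 2 - u ^ 2) ^ b : ℝ) : ℂ) = 0) :
    ∀ s, 0 < s → s < S → X s = 0 := by
  induction b with
  | zero =>
    intro s hs hsS
    have h1 := hasDerivAt_symm hX s
    have h2 : (fun s => ∫ u in (-s)..s, X u) =ᶠ[nhds s] fun _ => 0 := by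
      filter_upwards [Ioo_mem_nhds hs hsS] with t ht
      have := h t ht.1 ht.2
      simpa using this
    have h3 := (h1.congr_of_eventuallyEq h2.symm).unique (hasDerivAt_const s (0 : ℂ))
    rw [heven] at h3
    have h4 : 2 * X s = 0 := by rw [two_mul]; exact h3
    simpa using h4
  | succ b ih =>
    apply ih
    intro s hs hsS
    have h1 := hasDerivAt_G hX b s
    have h2 : (fun s : ℝ => ∫ u in (-s)..s, X u * (((s ^ 2 - u ^ 2) ^ (b + 1) : ℝ) : ℂ))
        =ᶠ[nhds s] fun _ => 0 := by
      filter_upwards [Ioo_mem_nhds hs hsS] with t ht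
      exact h t ht.1 ht.2
    have h3 := (h1.congr_of_eventuallyEq h2.symm).unique (hasDerivAt_const s (0 : ℂ))
    rcases mul_eq_zero.1 h3 with h4 | h4
    · exfalso
      rw [Complex.ofReal_eq_zero] at h4
      have : 0 < 2 * ((b : ℝ) + 1) * s := by positivity
      linarith
    · exact h4

end AbelL

theorem abel_unique (b : ℕ) (X : ℝ → ℂ) (hX : Continuous X) (heven : ∀ u, X (-u) = X u) (S : ℝ)
    (h : ∀ s, 0 < s → s ≤ S → ∫ u in (-s)..s, X u * (((s ^ 2 - u ^ 2) ^ b : ℝ) : ℂ) = 0) :
    ∀ u, 0 ≤ u → u ≤ S → 0 < S → X u = 0 := by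
  intro u hu huS hS
  have h1 := AbelL.key hX heven S b (fun s hs hsS => h s hs hsS.le)
  have h2 : IsClosed {u | X u = 0} := isClosed_eq hX continuous_const
  have h3 : Icc 0 S ⊆ {u | X u = 0} := by
    rw [← closure_Ioo hS.ne]
    exact closure_minimal (fun s hs => h1 s hs.1 hs.2) h2
  exact h3 ⟨hu, huS⟩

end Pool.Agent.Helper3K9.EM
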