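import Mathlib
import Pool.Agent.Helper3K9.EM.Defs

/-!
# The Fourier transform of the weight `(s^2 - |η|^2)_+^a`
-/

set_option autoImplicit false

open MeasureTheory Set
open scoped Polynomial

namespace Pool.Agent.Helper3K9.EM

namespace BF

/-! ### The inner integral -/

/-- `∫ (c - |v|²)_+^a dv` over `ℝ^m`. -/
noncomputable def J (m : ℕ) (a c : ℝ) : ℝ := ∫ v : Fin m → ℝ, (max (c - ∑ i, v i ^ 2) 0) ^ a

theorem J_scale (m : ℕ) {a : ℝ} (ha : 0 < a) (c : ℝ) :
    J m a c = (max c 0) ^ (a + (m : ℝ) / 2) * J m a 1 := by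
  rcases le_or_gt c 0 with hc | hc
  · have h1 : J m a c = 0 := by
      unfold J
      have : (fun v : Fin m → ℝ => (max (c - ∑ i, v i ^ 2) 0) ^ a) = fun _ => 0 := by
        funext v
        have h2 : 0 ≤ ∑ i, v i ^ 2 := Finset.sum_nonneg fun _ _ => sq_nonneg _
        rw [max_eq_right (by linarith), Real.zero_rpow ha.ne']
      rw [this, integral_zero]
    rw [h1, max_eq_right hc, Real.zero_rpow (by positivity), zero_mul]
  · have hR : 0 ≤ Real.sqrt c := Real.sqrt_nonneg c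
    have h1 := Measure.integral_comp_smul_of_nonneg (volume : Measure (Fin m → ℝ))
      (fun v : Fin m → ℝ => (max (c - ∑ i, v i ^ 2) 0) ^ a) (Real.sqrt c) (hR := hR)
    have h2 : (fun v : Fin m → ℝ => (max (c - ∑ i, (Real.sqrt c • v) i ^ 2) 0) ^ a) =
        fun v => c ^ a * (max (1 - ∑ i, v i ^ 2) 0) ^ a := by
      funext v
      have h3 : c - ∑ i, (Real.sqrt c • v) i ^ 2 = c * (1 - ∑ i, v i ^ 2) := by
        have : ∑ i, (Real.sqrt c • v) i ^ 2 = c * ∑ i, v i ^ 2 := by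
          rw [Finset.mul_sum]
          refine Finset.sum_congr rfl fun i _ => ?_
          rw [Pi.smul_apply, smul_eq_mul, mul_pow, Real.sq_sqrt hc.le]
        rw [this]
        ring
      rw [h3, ← Real.mul_rpow hc.le (le_max_right _ _), mul_max_of_nonneg _ _ hc.le, mul_zero]
    simp only [h2] at h1
    rw [integral_const_mul, Module.finrank_fin_fun, smul_eq_mul] at h1
    have h4 : 0 < Real.sqrt c ^ m := pow_pos (Real.sqrt_pos.2 hc) m
    have h5 : Real.sqrt c ^ m = c ^ ((m : ℝ) / 2) := by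
      rw [Real.sqrt_eq_rpow, ← Real.rpow_natCast, ← Real.rpow_mul hc.le]
      congr 1
      ring
    rw [max_eq_left hc.le, Real.rpow_add hc]
    unfold J
    rw [← h5]
    field_simp at h1
    linarith

theorem wcont (m : ℕ) {a : ℝ} (ha : 0 < a) (c : ℝ) :
    Continuous fun v : Fin m → ℝ => (max (c - ∑ i, v i ^ 2) 0) ^ a := by
  refine Continuous.rpow_const (by fun_prop) fun _ => Or.inr ha.le

theorem norm_sq_le {m : ℕ} (v : Fin m → ℝ) : ‖v‖ ^ 2 ≤ ∑ i, v i ^ 2 := by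
  have h0 : 0 ≤ ∑ i, v i ^ 2 := Finset.sum_nonneg fun _ _ => sq_nonneg _
  have h1 : ‖v‖ ≤ Real.sqrt (∑ i, v i ^ 2) := by
    rw [pi_norm_le_iff_of_nonneg (Real.sqrt_nonneg _)]
    intro i
    rw [Real.norm_eq_abs]
    refine Real.abs_le_sqrt ?_
    exact Finset.single_le_sum (f := fun i => v i ^ 2) (fun _ _ => sq_nonneg _)
      (Finset.mem_univ i)
  calc ‖v‖ ^ 2 ≤ Real.sqrt (∑ i, v i ^ 2) ^ 2 := pow_le_pow_left₀ (norm_nonneg _) h1 2
    _ = _ := Real.sq_sqrt h0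

theorem J_pos (m : ℕ) {a : ℝ} (ha : 0 < a) : 0 < J m a 1 := by
  unfold J
  refine Continuous.integral_pos_of_hasCompactSupport_nonneg_nonzero (x := 0) (wcont m ha 1)
    ?_ (fun v => ?_) ?_
  · refine HasCompactSupport.intro (isCompact_closedBall (0 : Fin m → ℝ) 1) fun v hv => ?_
    rw [mem_closedBall_zero_iff, not_le] at hv
    have h1 := norm_sq_le v
    have h2 : 1 < ‖v‖ ^ 2 := by nlinarith
    rw [max_eq_right (by linarith), Real.zero_rpow ha.ne']
  · exact Real.rpow_nonneg (le_max_right _ _) _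
  · simp

/-! ### Polar decomposition -/

/-- The integrand in the coordinates `(u, v)`. -/
noncomputable def F (m : ℕ) (a s r : ℝ) (p : ℝ × (Fin m → ℝ)) : ℂ :=
  Complex.exp (-((r * p.1 : ℝ) : ℂ) * Complex.I) *
    (((max (s ^ 2 - p.1 ^ 2 - ∑ i, p.2 i ^ 2) 0) ^ a : ℝ) : ℂ)

theorem F_integrable (m : ℕ) {a : ℝ} (ha : 0 < a) (s r : ℝ) : Integrable (F m a s r) := by
  have hc : Continuous (F m a s r) := by
    unfold F
    refine Continuous.mul (by fun_prop) ?_
    refine Complex.continuous_ofReal.comp ?_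
    exact Continuous.rpow_const (by fun_prop) fun _ => Or.inr ha.le
  refine hc.integrable_of_hasCompactSupport ?_
  refine HasCompactSupport.intro (isCompact_closedBall (0 : ℝ × (Fin m → ℝ)) |s|) fun p hp => ?_
  rw [mem_closedBall_zero_iff, not_le] at hp
  have h0 : 0 ≤ ∑ i, p.2 i ^ 2 := Finset.sum_nonneg fun _ _ => sq_nonneg _
  have h1 : ‖p‖ ^ 2 ≤ p.1 ^ 2 + ∑ i, p.2 i ^ 2 := by
    rw [Prod.norm_def]
    rcases le_total ‖p.1‖ ‖p.2‖ with h | h
    · rw [max_eq_right h]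
      have := norm_sq_le p.2
      have := sq_nonneg p.1
      linarith
    · rw [max_eq_left h, Real.norm_eq_abs, sq_abs]
      linarith
  have h2 : s ^ 2 < ‖p‖ ^ 2 := by
    rw [← sq_abs s]
    exact pow_lt_pow_left₀ hp (abs_nonneg s) two_ne_zero
  unfold F
  rw [max_eq_right (by linarith), Real.zero_rpow ha.ne']
  simp

theorem int_F (m : ℕ) {a : ℝ} (ha : 0 < a) (s r : ℝ) (b : ℕ) (hb : a + (m : ℝ) / 2 = b) :
    ∫ p, F m a s r p = (J m a 1 : ℂ) *
      ∫ u : ℝ, Complex.exp (-((r * u : ℝ) : ℂ) * Complex.I) * (((max (s ^ 2 - u ^ 2) 0) ^ b : ℝ) : ℂ) := by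
  have h1 := F_integrable m ha s r
  rw [Measure.volume_eq_prod] at h1 ⊢
  rw [integral_prod _ h1, ← integral_const_mul]
  congr 1
  funext u
  unfold F
  simp only
  rw [integral_const_mul, integral_complex_ofReal]
  have h2 := J_scale m ha (s ^ 2 - u ^ 2)
  unfold J at h2
  rw [h2, hb, Real.rpow_natCast]
  unfold J
  push_cast
  ring

theorem line (r : ℝ) {s : ℝ} (hs : 0 < s) {b : ℕ} (hb : 0 < b) :
    ∫ u : ℝ, Complex.exp (-((r * u : ℝ) : ℂ) * Complex.I) *
      (((max (s ^ 2 - u ^ 2) 0) ^ b : ℝ) : ℂ) =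
      ((∫ u in (-s)..s, Real.cos (r * u) * (s ^ 2 - u ^ 2) ^ b : ℝ) : ℂ) := by
  have h1 : ∫ u : ℝ, Complex.exp (-((r * u : ℝ) : ℂ) * Complex.I) *
      (((max (s ^ 2 - u ^ 2) 0) ^ b : ℝ) : ℂ) =
      ∫ u in (-s)..s, Complex.exp (-((r * u : ℝ) : ℂ) * Complex.I) *
      (((s ^ 2 - u ^ 2) ^ b : ℝ) : ℂ) := by
    rw [intervalIntegral.integral_of_le (by linarith),
      ← setIntegral_eq_integral_of_forall_compl_eq_zero (s := Ioc (-s) s)]
    · refine setIntegral_congr_fun measurableSet_Ioc fun u hu => ?_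
      have h2 : 0 ≤ s ^ 2 - u ^ 2 := by nlinarith [hu.1, hu.2]
      rw [max_eq_left h2]
    · intro u hu
      have h2 : s ^ 2 - u ^ 2 ≤ 0 := by
        rw [mem_Ioc, not_and_or, not_lt, not_le] at hu
        rcases hu with hu | hu <;> nlinarith
      rw [max_eq_right h2, zero_pow hb.ne']
      simp
  rw [h1]
  have h3 : ∀ u : ℝ, Complex.exp (-((r * u : ℝ) : ℂ) * Complex.I) * (((s ^ 2 - u ^ 2) ^ b : ℝ) : ℂ) =
      ((Real.cos (r * u) * (s ^ 2 - u ^ 2) ^ b : ℝ) : ℂ) -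
        Complex.I * ((Real.sin (r * u) * (s ^ 2 - u ^ 2) ^ b : ℝ) : ℂ) := by
    intro u
    have h4 : -((r * u : ℝ) : ℂ) * Complex.I = ((-(r * u) : ℝ) : ℂ) * Complex.I := by
      push_cast
      ring
    rw [h4, Complex.exp_mul_I, ← Complex.ofReal_cos, ← Complex.ofReal_sin, Real.cos_neg,
      Real.sin_neg]
    push_cast
    ring
  simp only [h3]
  rw [intervalIntegral.integral_sub, intervalIntegral.integral_const_mul,
    intervalIntegral.integral_ofReal, intervalIntegral.integral_ofReal]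
  · have h5 : ∫ u in (-s)..s, Real.sin (r * u) * (s ^ 2 - u ^ 2) ^ b = 0 := by
      have h6 := intervalIntegral.integral_comp_neg (a := -s) (b := s)
        (fun u => Real.sin (r * u) * (s ^ 2 - u ^ 2) ^ b)
      have h7 : (fun u => Real.sin (r * -u) * (s ^ 2 - (-u) ^ 2) ^ b) =
          fun u => -(Real.sin (r * u) * (s ^ 2 - u ^ 2) ^ b) := by
        funext u
        rw [mul_neg, Real.sin_neg]
        ring
      simp only [h7] at h6
      rw [intervalIntegral.integral_neg, neg_neg] at h6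
      linarith
    rw [h5]
    simp
  · exact Continuous.intervalIntegrable (by fun_prop) _ _
  · exact Continuous.intervalIntegrable (by fun_prop) _ _

end BF

/-- [N0] -/
theorem ball_fourier {n : ℕ} (hn : 0 < n) (b : ℕ) (a : ℝ) (ha : 0 < a)
    (hab : a + ((n : ℝ) - 1) / 2 = b) :
    ∃ C : ℝ, 0 < C ∧ ∀ s : ℝ, 0 < s → ∀ x : V n,
      ∫ η : V n, Complex.exp (-((inner ℝ x η : ℝ) : ℂ) * Complex.I) * (wt a s η : ℂ) =
        ((C * ∫ u in (-s)..s, Real.cos (‖x‖ * u) * (s ^ 2 - u ^ 2) ^ b : ℝ) : ℂ) := by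
  obtain ⟨m, rfl⟩ : ∃ m, n = m + 1 := ⟨n - 1, by omega⟩
  have hab' : a + (m : ℝ) / 2 = b := by
    rw [← hab]
    push_cast
    ring
  have hb : 0 < b := by
    have : (0 : ℝ) < b := by
      rw [← hab']
      positivity
    exact_mod_cast this
  refine ⟨BF.J m a 1, BF.J_pos m ha, fun s hs x => ?_⟩
  -- rotation to the first axis
  obtain ⟨e, he⟩ : ∃ e : V (m + 1), e = EuclideanSpace.single 0 1 := ⟨_, rfl⟩
  have hen : ‖e‖ = 1 := by rw [he]; simp
  have hnorm : ‖x‖ = ‖(‖x‖ • e : V (m + 1))‖ := by rw [norm_smul, hen]; simp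
  obtain ⟨O, hO⟩ : ∃ O : V (m + 1) ≃ₗᵢ[ℝ] V (m + 1), O x = ‖x‖ • e :=
    ⟨_, Submodule.reflection_sub hnorm⟩
  have h1 : ∫ η : V (m + 1), Complex.exp (-((inner ℝ x η : ℝ) : ℂ) * Complex.I) *
      (wt a s η : ℂ) = ∫ η : V (m + 1),
        Complex.exp (-((inner ℝ (‖x‖ • e) η : ℝ) : ℂ) * Complex.I) * (wt a s η : ℂ) := by
    rw [← O.measurePreserving.integral_comp O.toHomeomorph.measurableEmbedding
      (fun η => Complex.exp (-((inner ℝ (‖x‖ • e) η : ℝ) : ℂ) * Complex.I) * (wt a s η : ℂ))]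
    congr 1
    funext η
    rw [← hO, O.inner_map_map]
    unfold wt
    rw [O.norm_map]
  rw [h1]
  -- coordinates
  have mp := (volume_preserving_piFinSuccAbove (fun _ : Fin (m + 1) => ℝ) 0).comp
    (PiLp.volume_preserving_ofLp (Fin (m + 1)))
  have h2 : ∀ η : V (m + 1),
      Complex.exp (-((inner ℝ (‖x‖ • e) η : ℝ) : ℂ) * Complex.I) * (wt a s η : ℂ) =
      BF.F m a s ‖x‖ ((MeasurableEquiv.piFinSuccAbove (fun _ : Fin (m + 1) => ℝ) 0)
        (WithLp.ofLp η)) := by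
    intro η
    have h3 : (inner ℝ (‖x‖ • e) η : ℝ) = ‖x‖ * η 0 := by
      rw [inner_smul_left, he, EuclideanSpace.inner_single_left]
      simp
    have h4 : ‖η‖ ^ 2 = η 0 ^ 2 + ∑ j : Fin m, η j.succ ^ 2 := by
      rw [EuclideanSpace.norm_sq_eq, Fin.sum_univ_succ]
      simp only [Real.norm_eq_abs, sq_abs]
    unfold BF.F wt
    rw [h3, h4, ← sub_sub]
    rfl
  simp only [h2]
  have h5 := mp.integral_comp (((MeasurableEquiv.piFinSuccAbove (fun _ : Fin (m + 1) => ℝ)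
    0).measurableEmbedding).comp (MeasurableEquiv.toLp 2 (Fin (m + 1) → ℝ)).symm.measurableEmbedding)
    (BF.F m a s ‖x‖)
  refine h5.trans ?_
  rw [BF.int_F m ha s ‖x‖ b hab', BF.line ‖x‖ hs hb]
  push_cast
  ring

end Pool.Agent.Helper3K9.EM
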