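import Mathlib
import Pool.Agent.Helper3K9.EM.Defs

/-!
# Basic lemmas: the exponential, the weight, systems of measures on spheres
-/

open MeasureTheory Set

namespace Pool.Agent.Helper3K9.EM

/-- `e^{-i<x,ξ>}`. -/
noncomputable def ee {n : ℕ} (x ξ : V n) : ℂ :=
  Complex.exp (-((inner ℝ x ξ : ℝ) : ℂ) * Complex.I)

theorem ee_add {n : ℕ} (x ξ η : V n) : ee x (ξ + η) = ee x ξ * ee x η := by
  unfold ee
  rw [← Complex.exp_add, inner_add_right]
  congr 1
  push_cast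
  ring

theorem ee_zero {n : ℕ} (x : V n) : ee x 0 = 1 := by
  simp [ee]

theorem norm_ee {n : ℕ} (x ξ : V n) : ‖ee x ξ‖ = 1 := by
  unfold ee
  rw [← Complex.ofReal_neg, Complex.norm_exp_ofReal_mul_I]

theorem continuous_ee {n : ℕ} : Continuous (fun p : V n × V n => ee p.1 p.2) := by
  unfold ee
  fun_prop

theorem continuous_ee_left {n : ℕ} (ξ : V n) : Continuous (fun x : V n => ee x ξ) := by
  unfold ee
  fun_prop

theorem continuous_ee_right {n : ℕ} (x : V n) : Continuous (fun ξ : V n => ee x ξ) := by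
  unfold ee
  fun_prop

theorem wt_nn (a s : ℝ) {n : ℕ} (η : V n) : 0 ≤ wt a s η :=
  Real.rpow_nonneg (le_max_right _ _) _

theorem continuous_wt {a : ℝ} (ha : 0 < a) (s : ℝ) {n : ℕ} : Continuous (fun η : V n => wt a s η) := by
  unfold wt
  refine Continuous.rpow_const (by fun_prop) ?_
  intro x
  exact Or.inr ha.le

theorem wt_vanish {a : ℝ} (ha : 0 < a) {s : ℝ} (hs : 0 ≤ s) {n : ℕ} {η : V n} (h : s ≤ ‖η‖) :
    wt a s η = 0 := by
  unfold wt
  have : s ^ 2 - ‖η‖ ^ 2 ≤ 0 := by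
    have : s ^ 2 ≤ ‖η‖ ^ 2 := pow_le_pow_left₀ hs h 2
    linarith
  rw [max_eq_right this, Real.zero_rpow ha.ne']

theorem wt_pos {a s : ℝ} (hs : 0 ≤ s) {n : ℕ} {η : V n} (h : ‖η‖ < s) : 0 < wt a s η := by
  unfold wt
  have : 0 < s ^ 2 - ‖η‖ ^ 2 := by
    have : ‖η‖ ^ 2 < s ^ 2 := pow_lt_pow_left₀ h (norm_nonneg _) (by norm_num)
    linarith
  rw [max_eq_left this.le]
  exact Real.rpow_pos_of_pos this _

theorem hasCompactSupport_wt {a : ℝ} (ha : 0 < a) {s : ℝ} (hs : 0 ≤ s) {n : ℕ} :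
    HasCompactSupport (fun η : V n => wt a s η) := by
  refine HasCompactSupport.intro (isCompact_closedBall (0 : V n) s) ?_
  intro x hx
  apply wt_vanish ha hs
  simp only [Metric.mem_closedBall, dist_zero_right, not_le] at hx
  exact hx.le

theorem integrable_wt {a : ℝ} (ha : 0 < a) {s : ℝ} (hs : 0 ≤ s) {n : ℕ} :
    Integrable (fun η : V n => wt a s η) :=
  (continuous_wt ha s).integrable_of_hasCompactSupport (hasCompactSupport_wt ha hs)

/-- masses of the spheres -/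
noncomputable def mm (n k : ℕ) : ℝ := if k = 0 then (n : ℝ) / 3 else 4 * n / (Real.pi ^ 2 * k ^ 2)

theorem mm_nonneg (n k : ℕ) : 0 ≤ mm n k := by
  unfold mm
  split_ifs <;> positivity

theorem hasSum_mm (n : ℕ) : HasSum (mm n) n := by
  have h1 := hasSum_zeta_two
  have h2 : HasSum (fun k : ℕ => 4 * (n : ℝ) / Real.pi ^ 2 * (1 / (k : ℝ) ^ 2))
      (4 * (n : ℝ) / Real.pi ^ 2 * (Real.pi ^ 2 / 6)) := h1.mul_left _
  have h3 : HasSum (fun k : ℕ => if k = 0 then (n : ℝ) / 3 else 0) ((n : ℝ) / 3) := by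
    have := hasSum_ite_eq (0 : ℕ) ((n : ℝ) / 3)
    simpa using this
  have h4 := h2.add h3
  have e1 : 4 * (n : ℝ) / Real.pi ^ 2 * (Real.pi ^ 2 / 6) + (n : ℝ) / 3 = n := by
    have : Real.pi ≠ 0 := Real.pi_ne_zero
    field_simp
    ring
  rw [e1] at h4
  convert h4 using 1
  funext k
  unfold mm
  by_cases hk : k = 0
  · subst hk
    simp
  · simp only [hk, if_false, add_zero]
    have : Real.pi ≠ 0 := Real.pi_ne_zero
    have hk' : (k : ℝ) ≠ 0 := by exact_mod_cast hk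
    field_simp

/-- a system of measures carried by the spheres of radius `π k`, with the extremal masses. -/
structure Sys (n : ℕ) (σ : ℕ → Measure (V n)) : Prop where
  sph : ∀ k, σ k {x | ‖x‖ ≠ Real.pi * k} = 0
  mass : ∀ k, σ k univ = ENNReal.ofReal (mm n k)

theorem Sys.fin {n : ℕ} {σ : ℕ → Measure (V n)} (h : Sys n σ) (k : ℕ) : IsFiniteMeasure (σ k) :=
  ⟨by rw [h.mass]; exact ENNReal.ofReal_lt_top⟩

theorem Sys.ae {n : ℕ} {σ : ℕ → Measure (V n)} (h : Sys n σ) (k : ℕ) :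
    ∀ᵐ x ∂(σ k), ‖x‖ = Real.pi * k := by
  rw [ae_iff]
  exact h.sph k

theorem Sys.sum_univ {n : ℕ} {σ : ℕ → Measure (V n)} (h : Sys n σ) :
    (Measure.sum σ) univ = ENNReal.ofReal n := by
  rw [Measure.sum_apply _ MeasurableSet.univ]
  simp_rw [h.mass]
  rw [← ENNReal.ofReal_tsum_of_nonneg (fun k => mm_nonneg n k) (hasSum_mm n).summable,
    (hasSum_mm n).tsum_eq]

theorem Sys.sum_fin {n : ℕ} {σ : ℕ → Measure (V n)} (h : Sys n σ) :
    IsFiniteMeasure (Measure.sum σ) :=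
  ⟨by rw [h.sum_univ]; exact ENNReal.ofReal_lt_top⟩

theorem Sys.sum_ae {n : ℕ} {σ : ℕ → Measure (V n)} (h : Sys n σ) :
    ∀ᵐ x ∂(Measure.sum σ), ∃ k : ℕ, ‖x‖ = Real.pi * k := by
  rw [Measure.ae_sum_iff' ?_]
  · intro k
    filter_upwards [h.ae k] with x hx
    exact ⟨k, hx⟩
  · have : {x : V n | ∃ k : ℕ, ‖x‖ = Real.pi * k} = ⋃ k : ℕ, {x : V n | ‖x‖ = Real.pi * k} := by
      ext x
      simp
    rw [this]
    exact MeasurableSet.iUnion fun k => measurableSet_eq_fun measurable_norm measurable_const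

theorem Sys.mass_real {n : ℕ} {σ : ℕ → Measure (V n)} (h : Sys n σ) (k : ℕ) :
    (σ k).real univ = mm n k := by
  rw [measureReal_def, h.mass, ENNReal.toReal_ofReal (mm_nonneg n k)]

/-- integral against the sum. -/
theorem Sys.hasSum {n : ℕ} {σ : ℕ → Measure (V n)} (h : Sys n σ) {f : V n → ℂ}
    (hf : Continuous f) {C : ℝ} (hC : ∀ x, ‖f x‖ ≤ C) :
    HasSum (fun k => ∫ x, f x ∂(σ k)) (∫ x, f x ∂(Measure.sum σ)) := by
  haveI := h.sum_fin
  apply hasSum_integral_measure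
  exact Integrable.of_bound hf.aestronglyMeasurable C (Filter.Eventually.of_forall hC)

end Pool.Agent.Helper3K9.EM
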