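import Mathlib
import Pool.Agent.Helper3K9.EM.Defs

/-!
# Taylor expansion of a characteristic function, vanishing of all moments, cosine orthogonality
-/

open MeasureTheory Set
open scoped Polynomial

namespace Pool.Agent.Helper3K9.EM

/-- Taylor expansion of the characteristic function of a compactly supported finite measure along
a ray. -/
theorem char_taylor {n : ℕ} (μ : Measure (V n)) [IsFiniteMeasure μ] (R : ℝ)
    (hR : ∀ᵐ x ∂μ, ‖x‖ ≤ R) (v : V n) (L : ℕ) :
    ∃ C : ℝ, ∀ r : ℝ, 0 ≤ r → r ≤ 1 →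
      ‖∫ x, Complex.exp (-((inner ℝ x (r • v) : ℝ) : ℂ) * Complex.I) ∂μ -
        ∑ p ∈ Finset.range L, ((-Complex.I) ^ p / (p.factorial : ℂ) *
          ((∫ x, (inner ℝ x v : ℝ) ^ p ∂μ : ℝ) : ℂ)) * (r : ℂ) ^ p‖ ≤ C * r ^ L := by
  set M : ℝ := |R| * ‖v‖ with hM
  have hM0 : 0 ≤ M := by positivity
  have hin : ∀ᵐ x ∂μ, |(inner ℝ x v : ℝ)| ≤ M := by
    filter_upwards [hR] with x hx
    calc |(inner ℝ x v : ℝ)| ≤ ‖x‖ * ‖v‖ := abs_real_inner_le_norm x v
      _ ≤ |R| * ‖v‖ := by
        apply mul_le_mul_of_nonneg_right _ (norm_nonneg v)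
        exact hx.trans (le_abs_self R)
  have hmeas : ∀ w : V n, Continuous fun x : V n => (inner ℝ x w : ℝ) := fun w => by fun_prop
  refine ⟨M ^ L * Real.exp M * μ.real univ, fun r hr0 hr1 => ?_⟩
  have hintp : ∀ p : ℕ, Integrable (fun x : V n => (inner ℝ x v : ℝ) ^ p) μ := by
    intro p
    refine Integrable.of_bound (C := M ^ p) ((hmeas v).pow p).aestronglyMeasurable ?_
    filter_upwards [hin] with x hx
    rw [norm_pow, Real.norm_eq_abs]
    exact pow_le_pow_left₀ (abs_nonneg _) hx p
  have hintp' : ∀ p : ℕ, Integrable (fun x : V n =>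
      (-((inner ℝ x (r • v) : ℝ) : ℂ) * Complex.I) ^ p / (p.factorial : ℂ)) μ := by
    intro p
    have h1 : (fun x : V n =>
        (-((inner ℝ x (r • v) : ℝ) : ℂ) * Complex.I) ^ p / (p.factorial : ℂ)) =
        fun x : V n => ((-Complex.I) ^ p / (p.factorial : ℂ) * (r : ℂ) ^ p) *
          (((inner ℝ x v : ℝ) ^ p : ℝ) : ℂ) := by
      funext x
      rw [real_inner_smul_right]
      push_cast
      ring
    rw [h1]
    exact (hintp p).ofReal.const_mul _
  have hexp : Integrable (fun x : V n =>
      Complex.exp (-((inner ℝ x (r • v) : ℝ) : ℂ) * Complex.I)) μ := by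
    refine Integrable.of_bound (C := 1) ?_ ?_
    · apply Continuous.aestronglyMeasurable
      have := hmeas (r • v)
      fun_prop
    · filter_upwards with x
      rw [← Complex.ofReal_neg, Complex.norm_exp_ofReal_mul_I]
  have hsum : ∑ p ∈ Finset.range L, ((-Complex.I) ^ p / (p.factorial : ℂ) *
      ((∫ x, (inner ℝ x v : ℝ) ^ p ∂μ : ℝ) : ℂ)) * (r : ℂ) ^ p =
      ∫ x, ∑ p ∈ Finset.range L,
        (-((inner ℝ x (r • v) : ℝ) : ℂ) * Complex.I) ^ p / (p.factorial : ℂ) ∂μ := by
    rw [integral_finsetSum _ fun p _ => hintp' p]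
    refine Finset.sum_congr rfl fun p _ => ?_
    have h1 : (fun x : V n =>
        (-((inner ℝ x (r • v) : ℝ) : ℂ) * Complex.I) ^ p / (p.factorial : ℂ)) =
        fun x : V n => ((-Complex.I) ^ p / (p.factorial : ℂ) * (r : ℂ) ^ p) *
          (((inner ℝ x v : ℝ) ^ p : ℝ) : ℂ) := by
      funext x
      rw [real_inner_smul_right]
      push_cast
      ring
    rw [h1, integral_const_mul, integral_complex_ofReal]
    ring
  rw [hsum, ← integral_sub hexp (integrable_finsetSum _ fun p _ => hintp' p)]
  have hbd : ∀ᵐ x ∂μ, ‖Complex.exp (-((inner ℝ x (r • v) : ℝ) : ℂ) * Complex.I) -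
      ∑ p ∈ Finset.range L, (-((inner ℝ x (r • v) : ℝ) : ℂ) * Complex.I) ^ p /
        (p.factorial : ℂ)‖ ≤ M ^ L * Real.exp M * r ^ L := by
    filter_upwards [hin] with x hx
    refine (Complex.norm_exp_sub_sum_le_norm_mul_exp _ _).trans ?_
    have hz : ‖-((inner ℝ x (r • v) : ℝ) : ℂ) * Complex.I‖ ≤ r * M := by
      rw [norm_mul, Complex.norm_I, mul_one, norm_neg, Complex.norm_real, Real.norm_eq_abs,
        real_inner_smul_right, abs_mul, abs_of_nonneg hr0]
      exact mul_le_mul_of_nonneg_left hx hr0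
    have hz2 : r * M ≤ M := by nlinarith
    calc ‖-((inner ℝ x (r • v) : ℝ) : ℂ) * Complex.I‖ ^ L *
          Real.exp ‖-((inner ℝ x (r • v) : ℝ) : ℂ) * Complex.I‖
        ≤ (r * M) ^ L * Real.exp M := by
          gcongr
          exact hz.trans hz2
      _ = M ^ L * Real.exp M * r ^ L := by ring
  calc ‖∫ x, (Complex.exp (-((inner ℝ x (r • v) : ℝ) : ℂ) * Complex.I) -
      ∑ p ∈ Finset.range L, (-((inner ℝ x (r • v) : ℝ) : ℂ) * Complex.I) ^ p /
        (p.factorial : ℂ)) ∂μ‖ ≤ M ^ L * Real.exp M * r ^ L * μ.real univ :=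
        norm_integral_le_of_norm_le_const hbd
    _ = M ^ L * Real.exp M * μ.real univ * r ^ L := by ring

/-- A continuous function supported in the unit ball all of whose moments vanish is zero. -/
theorem zero_of_moments {n : ℕ} (D : V n → ℂ) (hD : Continuous D)
    (hs : ∀ ξ, 1 ≤ ‖ξ‖ → D ξ = 0)
    (h : ∀ (v : V n) (m : ℕ), ∫ ξ : V n, ((inner ℝ v ξ : ℝ) : ℂ) ^ m * D ξ = 0) :
    ∀ ξ, D ξ = 0 := by
  have hcs : HasCompactSupport D := by
    refine HasCompactSupport.intro (isCompact_closedBall (0 : V n) 1) fun x hx => hs x ?_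
    rw [Metric.mem_closedBall, dist_zero_right, not_le] at hx
    exact hx.le
  have hDi : Integrable D := hD.integrable_of_hasCompactSupport hcs
  have hF : FourierTransform.fourier D = 0 := by
    funext w
    rw [Real.fourier_eq' D w]
    set F : ℕ → V n → ℂ := fun m v =>
      ((-2 * Real.pi : ℝ) * Complex.I) ^ m / (m.factorial : ℂ) *
        (((inner ℝ w v : ℝ) : ℂ) ^ m * D v) with hFdef
    have hsumF : ∀ v, HasSum (fun m => F m v)
        (Complex.exp ((-2 * Real.pi * inner ℝ v w : ℝ) * Complex.I) • D v) := by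
      intro v
      have h1 := NormedSpace.expSeries_div_hasSum_exp
        (((-2 * Real.pi * inner ℝ v w : ℝ) : ℂ) * Complex.I)
      rw [← Complex.exp_eq_exp_ℂ] at h1
      have h2 := h1.mul_right (D v)
      rw [smul_eq_mul]
      have h9 : (fun m => F m v) = fun i : ℕ =>
          (((-2 * Real.pi * inner ℝ v w : ℝ) : ℂ) * Complex.I) ^ i / (i.factorial : ℂ) * D v := by
        funext m
        simp only [hFdef]
        rw [real_inner_comm w v]
        push_cast
        ring
      rw [h9]
      exact h2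
    have hFc : ∀ m, Continuous (F m) := by
      intro m
      simp only [hFdef]
      have : Continuous fun v : V n => (inner ℝ w v : ℝ) := by fun_prop
      fun_prop
    have hFi : ∀ m, Integrable (F m) := by
      intro m
      refine (hFc m).integrable_of_hasCompactSupport ?_
      refine HasCompactSupport.intro (isCompact_closedBall (0 : V n) 1) fun x hx => ?_
      rw [Metric.mem_closedBall, dist_zero_right, not_le] at hx
      simp only [hFdef]
      rw [hs x hx.le]
      ring
    have hFb : ∀ m v, ‖F m v‖ ≤ (2 * Real.pi * ‖w‖) ^ m / (m.factorial : ℝ) * ‖D v‖ := by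
      intro m v
      by_cases hv : 1 ≤ ‖v‖
      · have : F m v = 0 := by simp only [hFdef]; rw [hs v hv]; ring
        rw [this, norm_zero]
        positivity
      · rw [not_le] at hv
        simp only [hFdef]
        rw [norm_mul, norm_mul, norm_div, norm_pow, norm_pow, norm_mul, Complex.norm_I,
          Complex.norm_real, Complex.norm_real, Complex.norm_natCast, Real.norm_eq_abs,
          Real.norm_eq_abs, abs_mul, abs_neg, abs_of_pos Real.pi_pos, abs_two, mul_one]
        have h3 : |(inner ℝ w v : ℝ)| ≤ ‖w‖ := by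
          refine (abs_real_inner_le_norm w v).trans ?_
          nlinarith [norm_nonneg w]
        calc (2 * Real.pi) ^ m / (m.factorial : ℝ) * (|(inner ℝ w v : ℝ)| ^ m * ‖D v‖)
            ≤ (2 * Real.pi) ^ m / (m.factorial : ℝ) * (‖w‖ ^ m * ‖D v‖) := by gcongr
          _ = (2 * Real.pi * ‖w‖) ^ m / (m.factorial : ℝ) * ‖D v‖ := by ring
    have hsummable : Summable fun m => ∫ v, ‖F m v‖ := by
      refine Summable.of_nonneg_of_le (fun m => integral_nonneg fun v => norm_nonneg _)
        (fun m => ?_) ((Real.summable_pow_div_factorial (2 * Real.pi * ‖w‖)).mul_right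
          (∫ v, ‖D v‖))
      rw [← integral_const_mul]
      exact integral_mono (hFi m).norm (hDi.norm.const_mul _) (hFb m)
    have h4 := hasSum_integral_of_summable_integral_norm hFi hsummable
    have h5 : ∀ m, ∫ v, F m v = 0 := by
      intro m
      simp only [hFdef]
      rw [integral_const_mul, h w m, mul_zero]
    simp only [h5] at h4
    have h6 : ∫ v, ∑' m, F m v = 0 := h4.unique hasSum_zero
    have h7 : (fun v => ∑' m, F m v) =
        fun v => Complex.exp ((-2 * Real.pi * inner ℝ v w : ℝ) * Complex.I) • D v := by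
      funext v
      exact (hsumF v).tsum_eq
    rw [h7] at h6
    exact h6
  intro ξ
  have h8 := hDi.fourierInv_fourier_eq (by rw [hF]; exact integrable_zero _ _ _)
    (v := ξ) hD.continuousAt
  rw [← h8, hF]
  rw [Real.fourierInv_eq']
  simp

/-- Orthogonality of the cosines. -/
theorem cos_orth (j k : ℕ) :
    ∫ t in (0 : ℝ)..1, Real.cos (Real.pi * j * t) * Real.cos (Real.pi * k * t) =
      if j = k then (if k = 0 then 1 else 1 / 2) else 0 := by
  have hcos : ∀ z : ℤ, ∫ t in (0 : ℝ)..1, Real.cos (Real.pi * z * t) =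
      if z = 0 then 1 else 0 := by
    intro z
    by_cases hz : z = 0
    · simp [hz]
    · rw [if_neg hz]
      have hz' : Real.pi * (z : ℝ) ≠ 0 :=
        mul_ne_zero Real.pi_ne_zero (by exact_mod_cast hz)
      rw [intervalIntegral.integral_comp_mul_left (fun t => Real.cos t) hz', integral_cos]
      have : Real.sin (Real.pi * (z : ℝ) * 1) = 0 := by
        rw [mul_one, mul_comm]; exact Real.sin_int_mul_pi z
      rw [this]
      simp
  have h1 : (fun t : ℝ => Real.cos (Real.pi * j * t) * Real.cos (Real.pi * k * t)) =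
      fun t : ℝ => (1 / 2) * (Real.cos (Real.pi * ((j - k : ℤ) : ℝ) * t) +
        Real.cos (Real.pi * ((j + k : ℤ) : ℝ) * t)) := by
    funext t
    have h2 := Real.two_mul_cos_mul_cos (Real.pi * j * t) (Real.pi * k * t)
    have h3 : Real.pi * j * t - Real.pi * k * t = Real.pi * ((j - k : ℤ) : ℝ) * t := by
      push_cast; ring
    have h4 : Real.pi * j * t + Real.pi * k * t = Real.pi * ((j + k : ℤ) : ℝ) * t := by
      push_cast; ring
    rw [h3, h4] at h2
    linarith
  rw [h1, intervalIntegral.integral_const_mul, intervalIntegral.integral_add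
    (by apply Continuous.intervalIntegrable; fun_prop)
    (by apply Continuous.intervalIntegrable; fun_prop), hcos, hcos]
  by_cases hjk : j = k
  · subst hjk
    by_cases hj : j = 0
    · subst hj; norm_num
    · have h5 : ((j : ℤ) + j) ≠ 0 := by omega
      simp [hj]
  · have h5 : ((j : ℤ) - k) ≠ 0 := by omega
    have h6 : ((j : ℤ) + k) ≠ 0 := by omega
    simp [hjk, h5, h6]

end Pool.Agent.Helper3K9.EM
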