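import Mathlib
import Pool.Agent.Helper3K9.EM.Basic
import Pool.Agent.Helper3K9.EM.Ct

/-!
# The Fourier transforms of the spherical parts are Fourier coefficients
-/

open MeasureTheory Set

namespace Pool.Agent.Helper3K9.EM

variable {n : ℕ}

/-- a system of measures on the spheres with finite total mass. -/
structure Sph (n : ℕ) (σ : ℕ → Measure (V n)) : Prop where
  sph : ∀ k : ℕ, ∀ᵐ x ∂(σ k), ‖x‖ = Real.pi * k
  fin : IsFiniteMeasure (Measure.sum σ)

theorem Sys.toSph {σ : ℕ → Measure (V n)} (h : Sys n σ) : Sph n σ := ⟨h.ae, h.sum_fin⟩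

/-- `∫ e^{-i<x,ξ>} cos (t |x|) dμ`. -/
noncomputable def WW (μ : Measure (V n)) (ξ : V n) (t : ℝ) : ℂ :=
  ∫ x, ee x ξ * (Real.cos (t * ‖x‖) : ℂ) ∂μ

theorem WW_bd (ξ : V n) (t : ℝ) (x : V n) : ‖ee x ξ * (Real.cos (t * ‖x‖) : ℂ)‖ ≤ 1 := by
  rw [norm_mul, norm_ee, one_mul, Complex.norm_real, Real.norm_eq_abs]
  exact Real.abs_cos_le_one _

theorem WW_norm_le (μ : Measure (V n)) [IsFiniteMeasure μ] (ξ : V n) (t : ℝ) :
    ‖WW μ ξ t‖ ≤ μ.real univ := by
  unfold WW
  have := norm_integral_le_of_norm_le_const (μ := μ) (Filter.Eventually.of_forall (WW_bd ξ t))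
  simpa using this

theorem WW_continuous (μ : Measure (V n)) [IsFiniteMeasure μ] (ξ : V n) :
    Continuous (WW μ ξ) := by
  unfold WW
  refine continuous_of_dominated (bound := fun _ => (1 : ℝ)) ?_ ?_ ?_ ?_
  · intro u
    have := continuous_ee_left ξ
    exact (by fun_prop : Continuous fun x : V n => ee x ξ * (Real.cos (u * ‖x‖) : ℂ)).aestronglyMeasurable
  · intro u
    exact Filter.Eventually.of_forall (WW_bd ξ u)
  · exact integrable_const _
  · refine Filter.Eventually.of_forall fun x => ?_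
    fun_prop

/-- the factor 1 or 1/2. -/
noncomputable def cc (k : ℕ) : ℝ := if k = 0 then 1 else 1 / 2

/-- the Fourier transform of a part is a Fourier coefficient of `WW`. -/
theorem coef_eq {σ : ℕ → Measure (V n)} (h : Sph n σ) (ξ : V n) (k : ℕ) :
    ∫ t in (0 : ℝ)..1, (Real.cos (Real.pi * k * t) : ℂ) * WW (Measure.sum σ) ξ t =
      (cc k : ℂ) * ∫ x, ee x ξ ∂(σ k) := by
  have := h.fin
  set μ := Measure.sum σ with hμ
  have hle : (0 : ℝ) ≤ 1 := zero_le_one
  have e1 : ∫ t in (0 : ℝ)..1, (Real.cos (Real.pi * k * t) : ℂ) * WW μ ξ t =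
      ∫ x, (∫ t in (0 : ℝ)..1, ee x ξ * ((Real.cos (t * ‖x‖) * Real.cos (Real.pi * k * t) : ℝ) : ℂ)) ∂μ := by
    simp_rw [intervalIntegral.integral_of_le hle]
    rw [integral_integral_swap]
    · refine integral_congr_ae (Filter.Eventually.of_forall fun t => ?_)
      simp only
      unfold WW
      rw [← integral_const_mul]
      congr 1
      funext x
      push_cast
      ring
    · have hbd : Integrable (fun p : V n × ℝ => (1 : ℝ))
        (μ.prod (volume.restrict (Ioc (0 : ℝ) 1))) := integrable_const _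
      refine hbd.mono' ?_ ?_
      · refine Continuous.aestronglyMeasurable ?_
        simp only [Function.uncurry_def]
        have c1 : Continuous fun p : V n × ℝ => ee p.1 ξ := (continuous_ee_left ξ).comp continuous_fst
        fun_prop
      · refine Filter.Eventually.of_forall fun p => ?_
        simp only [Function.uncurry]
        rw [norm_mul, norm_ee, one_mul, Complex.norm_real, Real.norm_eq_abs, abs_mul]
        exact mul_le_one₀ (Real.abs_cos_le_one _) (abs_nonneg _) (Real.abs_cos_le_one _)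
  rw [e1]
  have e2 : ∀ x : V n, ∫ t in (0 : ℝ)..1, ee x ξ *
      ((Real.cos (t * ‖x‖) * Real.cos (Real.pi * k * t) : ℝ) : ℂ) =
      ee x ξ * ((∫ t in (0 : ℝ)..1, Real.cos (t * ‖x‖) * Real.cos (Real.pi * k * t) : ℝ) : ℂ) := by
    intro x
    rw [intervalIntegral.integral_const_mul, intervalIntegral.integral_ofReal]
  simp_rw [e2]
  have hI : Integrable (fun x : V n => ee x ξ *
      ((∫ t in (0 : ℝ)..1, Real.cos (t * ‖x‖) * Real.cos (Real.pi * k * t) : ℝ) : ℂ)) μ := by
    refine Integrable.of_bound ?_ 1 (Filter.Eventually.of_forall fun x => ?_)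
    · refine Continuous.aestronglyMeasurable ?_
      have c1 := continuous_ee_left ξ
      have c2 : Continuous fun x : V n =>
          ∫ t in (0 : ℝ)..1, Real.cos (t * ‖x‖) * Real.cos (Real.pi * k * t) :=
        intervalIntegral.continuous_parametric_intervalIntegral_of_continuous' (by fun_prop) 0 1
      fun_prop
    · rw [norm_mul, norm_ee, one_mul, Complex.norm_real]
      have : ‖∫ t in (0 : ℝ)..1, Real.cos (t * ‖x‖) * Real.cos (Real.pi * k * t)‖ ≤ 1 * |(1 : ℝ) - 0| := by
        apply intervalIntegral.norm_integral_le_of_norm_le_const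
        intro t _
        rw [Real.norm_eq_abs, abs_mul]
        exact mul_le_one₀ (Real.abs_cos_le_one _) (abs_nonneg _) (Real.abs_cos_le_one _)
      simpa using this
  have h2 := hasSum_integral_measure (f := fun x : V n => ee x ξ *
      ((∫ t in (0 : ℝ)..1, Real.cos (t * ‖x‖) * Real.cos (Real.pi * k * t) : ℝ) : ℂ)) hI
  have h3 : ∀ j : ℕ, ∫ x, ee x ξ *
      ((∫ t in (0 : ℝ)..1, Real.cos (t * ‖x‖) * Real.cos (Real.pi * k * t) : ℝ) : ℂ) ∂(σ j) =
      if j = k then (cc k : ℂ) * ∫ x, ee x ξ ∂(σ k) else 0 := by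
    intro j
    have e3 : ∫ x, ee x ξ *
      ((∫ t in (0 : ℝ)..1, Real.cos (t * ‖x‖) * Real.cos (Real.pi * k * t) : ℝ) : ℂ) ∂(σ j) =
      ∫ x, ee x ξ * ((if j = k then cc k else 0 : ℝ) : ℂ) ∂(σ j) := by
      refine integral_congr_ae ?_
      filter_upwards [h.sph j] with x hx
      congr 2
      rw [hx]
      have := cos_orth j k
      unfold cc
      rw [← this]
      refine intervalIntegral.integral_congr fun t _ => ?_
      ring_nf
    rw [e3, integral_mul_const]
    by_cases hjk : j = k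
    · subst hjk
      simp [mul_comm]
    · simp [hjk]
  simp_rw [h3] at h2
  have h4 := hasSum_ite_eq k ((cc k : ℂ) * ∫ x, ee x ξ ∂(σ k))
  exact h2.unique h4

end Pool.Agent.Helper3K9.EM
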