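import Mathlib
import Pool.Agent.Helper3K9.EM.Defs

/-!
# Polar decomposition of a complex measure of finite variation, integrals against a density
-/

open MeasureTheory Set
open scoped Polynomial ENNReal

namespace Pool.Agent.Helper3K9.EM

/-- The variation of a measure with unimodular density. -/
theorem variation_density {X : Type*} {mX : MeasurableSpace X} (μ : Measure X) [IsFiniteMeasure μ]
    (ψ : X → ℂ) (hψ : Measurable ψ) (h1 : ∀ᵐ x ∂μ, ‖ψ x‖ = 1) :
    (μ.withDensityᵥ ψ).variation = μ := by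
  have hi : Integrable ψ μ := Integrable.of_bound hψ.aestronglyMeasurable 1
    (h1.mono fun x hx => hx.le)
  rw [Measure.variation_withDensityᵥ hi]
  have h2 : (fun x => ‖ψ x‖ₑ) =ᵐ[μ] fun _ => (1 : ℝ≥0∞) := by
    filter_upwards [h1] with x hx
    rw [← ofReal_norm, hx, ENNReal.ofReal_one]
  rw [withDensity_congr_ae h2]
  exact withDensity_one

/-- Polar decomposition. -/
theorem polar {X : Type*} {mX : MeasurableSpace X} (ν : ComplexMeasure X)
    (hν : ν.variation univ ≠ ⊤) :
    ∃ ψ : X → ℂ, Measurable ψ ∧ (∀ x, ‖ψ x‖ = 1) ∧ ν = ν.variation.withDensityᵥ ψ := by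
  have hfin : IsFiniteMeasure ν.variation := ⟨lt_top_iff_ne_top.2 hν⟩
  set μ := ν.variation with hμ
  have hac : ν ≪ᵥ μ.toENNRealVectorMeasure := by
    intro i hi
    by_cases him : MeasurableSet i
    · rw [Measure.toENNRealVectorMeasure_apply_measurable him] at hi
      have h1 := ν.enorm_measure_le_variation i
      rw [← hμ, hi] at h1
      exact enorm_eq_zero.1 (le_antisymm h1 bot_le)
    · exact ν.not_measurable him
  obtain ⟨hre, him⟩ := (ComplexMeasure.absolutelyContinuous_ennreal_iff ν _).1 hac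
  have hre' := (SignedMeasure.absolutelyContinuous_iff_withDensityᵥ_rnDeriv_eq _ μ).1 hre
  have him' := (SignedMeasure.absolutelyContinuous_iff_withDensityᵥ_rnDeriv_eq _ μ).1 him
  have hint := ν.integrable_rnDeriv μ
  have hmeas : Measurable (ν.rnDeriv μ) := by
    have h1 : ν.rnDeriv μ = fun x => ((ν.re.rnDeriv μ x : ℝ) : ℂ) +
        ((ν.im.rnDeriv μ x : ℝ) : ℂ) * Complex.I := by
      funext x
      apply Complex.ext <;> simp [ComplexMeasure.rnDeriv]
    rw [h1]
    have h2 := SignedMeasure.measurable_rnDeriv ν.re μ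
    have h3 := SignedMeasure.measurable_rnDeriv ν.im μ
    fun_prop
  have hν' : ν = μ.withDensityᵥ (ν.rnDeriv μ) := by
    ext i hi
    apply Complex.ext
    · have h5 : ∫ x in i, (ν.rnDeriv μ x).re ∂μ = (∫ x in i, ν.rnDeriv μ x ∂μ).re :=
        Complex.reCLM.integral_comp_comm hint.integrableOn
      rw [withDensityᵥ_apply hint hi, ← h5]
      have h4 : (ν.re) i = (ν i).re := rfl
      rw [← h4, ← hre', withDensityᵥ_apply (SignedMeasure.integrable_rnDeriv _ _) hi]
      rfl
    · have h5 : ∫ x in i, (ν.rnDeriv μ x).im ∂μ = (∫ x in i, ν.rnDeriv μ x ∂μ).im :=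
        Complex.imCLM.integral_comp_comm hint.integrableOn
      rw [withDensityᵥ_apply hint hi, ← h5]
      have h4 : (ν.im) i = (ν i).im := rfl
      rw [← h4, ← him', withDensityᵥ_apply (SignedMeasure.integrable_rnDeriv _ _) hi]
      rfl
  have hvar : μ.withDensity (fun x => ‖ν.rnDeriv μ x‖ₑ) = μ := by
    rw [← Measure.variation_withDensityᵥ hint, ← hν']
  have hone : (fun x => ‖ν.rnDeriv μ x‖ₑ) =ᵐ[μ] fun _ => (1 : ℝ≥0∞) := by
    rw [← withDensity_eq_iff (μ := μ) hmeas.enorm.aemeasurable aemeasurable_const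
      (by rw [← setLIntegral_univ, ← withDensity_apply _ MeasurableSet.univ, hvar]; exact hν)]
    rw [hvar]
    exact withDensity_one.symm
  classical
  refine ⟨fun x => if ‖ν.rnDeriv μ x‖ = 1 then ν.rnDeriv μ x else 1, ?_, ?_, ?_⟩
  · exact Measurable.ite (measurableSet_eq_fun hmeas.norm measurable_const) hmeas
      measurable_const
  · intro x
    by_cases hx : ‖ν.rnDeriv μ x‖ = 1
    · simp only [hx, if_true]
    · simp only [hx, if_false]; simp
  · have h5 : (fun x => if ‖ν.rnDeriv μ x‖ = 1 then ν.rnDeriv μ x else 1) =ᵐ[μ]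
        ν.rnDeriv μ := by
      filter_upwards [hone] with x hx
      have : ‖ν.rnDeriv μ x‖ = 1 := by
        have h6 : (‖ν.rnDeriv μ x‖ₑ).toReal = 1 := by rw [hx]; rfl
        rwa [toReal_enorm] at h6
      simp only [this, if_true]
    conv_lhs => rw [hν']
    exact (WithDensityᵥEq.congr_ae h5).symm

/-- The integral against `μ.withDensityᵥ ψ`. -/
theorem integral_density {X : Type*} {mX : MeasurableSpace X} (μ : Measure X) [IsFiniteMeasure μ]
    (ψ : X → ℂ) (hψ : Measurable ψ) (h1 : ∀ᵐ x ∂μ, ‖ψ x‖ = 1) (f : X → ℂ)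
    (hf : Integrable f μ) :
    (μ.withDensityᵥ ψ).integral f (ContinuousLinearMap.mul ℝ ℂ) = ∫ x, f x * ψ x ∂μ := by
  have hv := variation_density μ ψ hψ h1
  have hi : Integrable ψ μ := Integrable.of_bound hψ.aestronglyMeasurable 1
    (h1.mono fun x hx => hx.le)
  have hmul : ∀ g : X → ℂ, Integrable g μ → Integrable (fun x => g x * ψ x) μ := by
    intro g hg
    refine hg.mono (hg.aestronglyMeasurable.mul hψ.aestronglyMeasurable) ?_
    filter_upwards [h1] with x hx
    rw [norm_mul, hx, mul_one]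
  have hvi : ∀ g : X → ℂ, Integrable g μ → (μ.withDensityᵥ ψ).Integrable g := by
    intro g hg
    unfold VectorMeasure.Integrable
    rw [hv]; exact hg
  refine Integrable.induction (P := fun f : X → ℂ =>
    (μ.withDensityᵥ ψ).integral f (ContinuousLinearMap.mul ℝ ℂ) = ∫ x, f x * ψ x ∂μ)
    ?_ ?_ ?_ ?_ hf
  · intro c s hs hμs
    have : IsFiniteMeasure ((μ.withDensityᵥ ψ).variation.restrict s) := by
      rw [hv]; infer_instance
    have h9 : (μ.withDensityᵥ ψ).integral (s.indicator fun _ => c)
        (ContinuousLinearMap.mul ℝ ℂ) =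
        ContinuousLinearMap.mul ℝ ℂ c ((μ.withDensityᵥ ψ) s) :=
      VectorMeasure.integral_indicator_const c hs
    rw [h9]
    rw [withDensityᵥ_apply hi hs, ContinuousLinearMap.mul_apply', ← integral_const_mul,
      ← integral_indicator hs]
    congr 1
    funext x
    by_cases hx : x ∈ s <;> simp [hx]
  · intro f g _ hf hg h2 h3
    rw [VectorMeasure.integral_add (hvi f hf) (hvi g hg), h2, h3,
      ← integral_add (hmul f hf) (hmul g hg)]
    congr 1
    funext x
    simp only [Pi.add_apply]
    ring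
  · have h4 : Continuous fun f : X →₁[μ] ℂ =>
        (μ.withDensityᵥ ψ).integral f (ContinuousLinearMap.mul ℝ ℂ) := by
      have h5 := VectorMeasure.continuous_integral (μ := μ.withDensityᵥ ψ)
        (B := ContinuousLinearMap.mul ℝ ℂ) (E := ℂ)
      rw [hv] at h5
      exact h5
    have h6 : Continuous fun f : X →₁[μ] ℂ => ∫ x, f x * ψ x ∂μ := by
      rw [Metric.continuous_iff]
      intro f ε hε
      refine ⟨ε, hε, fun g hg => ?_⟩
      rw [dist_eq_norm, ← integral_sub (hmul g (L1.integrable_coeFn g))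
        (hmul f (L1.integrable_coeFn f))]
      refine lt_of_le_of_lt (norm_integral_le_integral_norm _) ?_
      have h7 : ∫ x, ‖g x * ψ x - f x * ψ x‖ ∂μ = ‖g - f‖ := by
        rw [L1.norm_eq_integral_norm]
        refine integral_congr_ae ?_
        filter_upwards [h1, Lp.coeFn_sub g f] with x hx hx2
        rw [hx2, Pi.sub_apply, ← sub_mul, norm_mul, hx, mul_one]
      rw [h7, ← dist_eq_norm]
      exact hg
    exact isClosed_eq h4 h6
  · intro f g hfg hf h2
    have h8 : (μ.withDensityᵥ ψ).integral g (ContinuousLinearMap.mul ℝ ℂ) =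
        (μ.withDensityᵥ ψ).integral f (ContinuousLinearMap.mul ℝ ℂ) := by
      refine VectorMeasure.integral_congr_ae ?_
      rw [hv]
      exact hfg.symm
    rw [h8, h2]
    refine integral_congr_ae ?_
    filter_upwards [hfg] with x hx
    rw [hx]

end Pool.Agent.Helper3K9.EM
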