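import Mathlib
import Pool.Agent.Helper3K9.EM.Defs

noncomputable section

open MeasureTheory Set
open scoped Polynomial Topology Nat

namespace Pool.Agent.Helper3K9.EM

theorem coeff_zero (L : ℕ) (c : ℕ → ℂ) (C ρ : ℝ) (hρ : 0 < ρ)
    (h : ∀ r : ℝ, 0 < r → r ≤ ρ → ‖∑ p ∈ Finset.range L, c p * (r : ℂ) ^ p‖ ≤ C * r ^ L) :
    ∀ p < L, c p = 0 := by
  induction L generalizing c with
  | zero => intro p hp; omega
  | succ L ih =>
    have h0 : c 0 = 0 := by
      have t1 : Filter.Tendsto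
          (fun r : ℝ => ‖∑ p ∈ Finset.range (L + 1), c p * (r : ℂ) ^ p‖) (𝓝[>] (0 : ℝ))
          (𝓝 ‖∑ p ∈ Finset.range (L + 1), c p * ((0 : ℝ) : ℂ) ^ p‖) := by
        apply Filter.Tendsto.mono_left _ nhdsWithin_le_nhds
        apply Continuous.tendsto
        fun_prop
      have t2 : Filter.Tendsto (fun r : ℝ => C * r ^ (L + 1)) (𝓝[>] (0 : ℝ))
          (𝓝 (C * (0 : ℝ) ^ (L + 1))) := by
        apply Filter.Tendsto.mono_left _ nhdsWithin_le_nhds
        apply Continuous.tendsto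
        fun_prop
      have h3 : ‖∑ p ∈ Finset.range (L + 1), c p * ((0 : ℝ) : ℂ) ^ p‖ ≤ C * (0 : ℝ) ^ (L + 1) := by
        apply le_of_tendsto_of_tendsto t1 t2
        have : Ioc (0 : ℝ) ρ ∈ 𝓝[>] (0 : ℝ) := Ioc_mem_nhdsGT hρ
        filter_upwards [this] with r hr
        exact h r hr.1 hr.2
      rw [Finset.sum_range_succ'] at h3
      simp at h3
      exact h3
    have ih' := ih (fun p => c (p + 1)) (by
      intro r hr hr'
      have h1 := h r hr hr'
      rw [Finset.sum_range_succ'] at h1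
      simp only [h0, pow_zero, zero_mul, add_zero] at h1
      have h2 : ∑ k ∈ Finset.range L, c (k + 1) * (r : ℂ) ^ (k + 1)
          = (r : ℂ) * ∑ k ∈ Finset.range L, c (k + 1) * (r : ℂ) ^ k := by
        rw [Finset.mul_sum]
        refine Finset.sum_congr rfl fun k _ => ?_
        ring
      rw [h2, norm_mul, Complex.norm_of_nonneg hr.le, pow_succ'] at h1
      have : r * ‖∑ k ∈ Finset.range L, c (k + 1) * (r : ℂ) ^ k‖ ≤ r * (C * r ^ L) := by
        linarith
      exact le_of_mul_le_mul_left this hr)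
    intro p hp
    rcases p with _ | p
    · exact h0
    · exact ih' p (by omega)

/-- Taylor polynomial of the cosine -/
def Tc (d : ℕ) (x : ℝ) : ℝ := ∑ j ∈ Finset.range d, (-1) ^ j * x ^ (2 * j) / ((2 * j)! : ℝ)

/-- Taylor remainder of the cosine -/
theorem cos_taylor (a : ℝ) (d : ℕ) : ∃ C : ℝ, ∀ t : ℝ, 0 ≤ t → t ≤ 1 →
    |Real.cos (a * t) - Tc d (a * t)| ≤ C * t ^ (2 * d) := by
  have hc := (hasSum_nat_add_iff' d).mpr (Real.hasSum_cosh |a|)
  refine ⟨Real.cosh |a| - ∑ i ∈ Finset.range d, |a| ^ (2 * i) / ((2 * i)! : ℝ),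
    fun t h0 h1 => ?_⟩
  have h2 := (hasSum_nat_add_iff' d).mpr (Real.hasSum_cos (a * t))
  have h3 := hc.mul_right (t ^ (2 * d))
  refine h2.norm_le_of_bounded h3 fun n => ?_
  rw [norm_div, norm_mul, norm_pow, norm_neg, norm_one, one_pow, one_mul, norm_pow, norm_mul,
    Real.norm_of_nonneg h0, Real.norm_eq_abs, Real.norm_natCast, mul_pow]
  have h4 : t ^ (2 * (n + d)) ≤ t ^ (2 * d) := pow_le_pow_of_le_one h0 h1 (by omega)
  calc |a| ^ (2 * (n + d)) * t ^ (2 * (n + d)) / ((2 * (n + d))! : ℝ)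
      ≤ |a| ^ (2 * (n + d)) * t ^ (2 * d) / ((2 * (n + d))! : ℝ) := by gcongr
    _ = _ := by ring

theorem Tc_weights (d k : ℕ) (w : ℕ → ℝ)
    (hw : ∀ j < d, ((k : ℝ) ^ 2) ^ j = ∑ i ∈ Finset.range d, w i * ((i : ℝ) ^ 2) ^ j) (t : ℝ) :
    Tc d (Real.pi * k * t) = ∑ i ∈ Finset.range d, w i * Tc d (Real.pi * i * t) := by
  have key : ∀ (x : ℝ) (j : ℕ), (-1 : ℝ) ^ j * (Real.pi * x * t) ^ (2 * j) / ((2 * j)! : ℝ)
        = ((-1 : ℝ) ^ j * (Real.pi * t) ^ (2 * j) / ((2 * j)! : ℝ)) * (x ^ 2) ^ j := by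
    intro x j
    rw [← pow_mul, show Real.pi * x * t = (Real.pi * t) * x by ring, mul_pow]
    ring
  unfold Tc
  simp only [key, Finset.mul_sum]
  rw [Finset.sum_comm]
  refine Finset.sum_congr rfl fun j hj => ?_
  rw [hw j (Finset.mem_range.mp hj), Finset.mul_sum]
  refine Finset.sum_congr rfl fun i _ => ?_
  ring

theorem cos_weights (d k : ℕ) (w : ℕ → ℝ)
    (hw : ∀ j < d, ((k : ℝ) ^ 2) ^ j = ∑ i ∈ Finset.range d, w i * ((i : ℝ) ^ 2) ^ j) :
    ∃ C : ℝ, ∀ t : ℝ, 0 ≤ t → t ≤ 1 →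
      |Real.cos (Real.pi * k * t) - ∑ i ∈ Finset.range d, w i * Real.cos (Real.pi * i * t)|
        ≤ C * t ^ (2 * d) := by
  choose Cf hCf using fun a : ℝ => cos_taylor a d
  refine ⟨Cf (Real.pi * k) + ∑ i ∈ Finset.range d, |w i| * Cf (Real.pi * i), fun t h0 h1 => ?_⟩
  have e1 := Tc_weights d k w hw t
  have e2 : Real.cos (Real.pi * k * t) - ∑ i ∈ Finset.range d, w i * Real.cos (Real.pi * i * t)
      = (Real.cos (Real.pi * k * t) - Tc d (Real.pi * k * t))
        - ∑ i ∈ Finset.range d,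
          w i * (Real.cos (Real.pi * i * t) - Tc d (Real.pi * i * t)) := by
    have e3 : ∑ i ∈ Finset.range d, w i * (Real.cos (Real.pi * i * t) - Tc d (Real.pi * i * t))
        = ∑ i ∈ Finset.range d, w i * Real.cos (Real.pi * i * t)
          - ∑ i ∈ Finset.range d, w i * Tc d (Real.pi * i * t) := by
      rw [← Finset.sum_sub_distrib]
      exact Finset.sum_congr rfl fun i _ => mul_sub _ _ _
    rw [e3, ← e1]
    linarith
  rw [e2, add_mul, Finset.sum_mul]
  have e4 : |∑ i ∈ Finset.range d, w i * (Real.cos (Real.pi * i * t) - Tc d (Real.pi * i * t))|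
      ≤ ∑ i ∈ Finset.range d, |w i| * Cf (Real.pi * i) * t ^ (2 * d) := by
    refine (Finset.abs_sum_le_sum_abs _ _).trans (Finset.sum_le_sum fun i _ => ?_)
    rw [abs_mul]
    have e7 := mul_le_mul_of_nonneg_left (hCf (Real.pi * i) t h0 h1) (abs_nonneg (w i))
    rwa [← mul_assoc] at e7
  have e5 := hCf (Real.pi * k) t h0 h1
  generalize (Real.cos (Real.pi * k * t) - Tc d (Real.pi * k * t)) = A at e5 ⊢
  generalize (∑ i ∈ Finset.range d,
    w i * (Real.cos (Real.pi * i * t) - Tc d (Real.pi * i * t))) = B at e4 ⊢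
  have e6 : |A - B| ≤ |A| + |B| := abs_sub A B
  linarith

theorem poly_of_weights (d : ℕ) (F : ℕ → ℝ)
    (h : ∀ (k : ℕ) (w : ℕ → ℝ),
      (∀ j < d, ((k : ℝ) ^ 2) ^ j = ∑ i ∈ Finset.range d, w i * ((i : ℝ) ^ 2) ^ j) →
      F k = ∑ i ∈ Finset.range d, w i * F i) :
    ∃ P : ℝ[X], ∀ k : ℕ, F k = P.eval ((k : ℝ) ^ 2) := by
  classical
  set v : ℕ → ℝ := fun i => (i : ℝ) ^ 2 with hv
  have hinj : Set.InjOn v (Finset.range d) := by
    intro a _ b _ hab
    have : (a : ℝ) = b := by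
      simp only [hv] at hab
      exact (pow_left_inj₀ (Nat.cast_nonneg a) (Nat.cast_nonneg b) (by norm_num)).mp hab
    exact_mod_cast this
  refine ⟨Lagrange.interpolate (Finset.range d) v F, fun k => ?_⟩
  have h1 := h k (fun i => (Lagrange.basis (Finset.range d) v i).eval ((k : ℝ) ^ 2)) (by
    intro j hj
    have h2 := Lagrange.eq_interpolate (f := (Polynomial.X ^ j : ℝ[X])) hinj (by
      rw [Polynomial.degree_X_pow, Finset.card_range]; exact_mod_cast hj)
    have h3 := congrArg (Polynomial.eval ((k : ℝ) ^ 2)) h2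
    rw [Lagrange.interpolate_apply, Polynomial.eval_finsetSum] at h3
    simp only [Polynomial.eval_pow, Polynomial.eval_X, Polynomial.eval_mul,
      Polynomial.eval_C] at h3
    rw [h3]
    refine Finset.sum_congr rfl fun i _ => ?_
    simp only [hv]; ring)
  rw [h1, Lagrange.interpolate_apply, Polynomial.eval_finsetSum]
  refine Finset.sum_congr rfl fun i _ => ?_
  simp only [Polynomial.eval_mul, Polynomial.eval_C]
  ring

theorem natDegree_bound (P : ℝ[X]) (C : ℝ) (l : ℕ)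
    (h : ∀ k : ℕ, 1 ≤ k → |P.eval ((k : ℝ) ^ 2)| * (k : ℝ) ^ 2 ≤ C * (k : ℝ) ^ l) :
    P = 0 ∨ 2 * P.natDegree + 2 ≤ l := by
  by_contra hcon
  push Not at hcon
  obtain ⟨hP, hl⟩ := hcon
  set R : ℝ[X] := P.comp (Polynomial.X ^ 2) * Polynomial.X ^ 2 with hR
  have hcomp : (P.comp (Polynomial.X ^ 2)) ≠ 0 := by
    intro h0
    rcases Polynomial.comp_eq_zero_iff.mp h0 with h1 | h1
    · exact hP h1
    · have := congrArg Polynomial.natDegree h1.2
      simp at this
  have hRd : R.natDegree = 2 * P.natDegree + 2 := by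
    rw [hR, Polynomial.natDegree_mul hcomp (pow_ne_zero _ Polynomial.X_ne_zero),
      Polynomial.natDegree_comp]
    simp
    ring
  have hR0 : R ≠ 0 := mul_ne_zero hcomp (pow_ne_zero _ Polynomial.X_ne_zero)
  have hdeg : (Polynomial.C C * Polynomial.X ^ l : ℝ[X]).degree < R.degree := by
    rw [Polynomial.degree_eq_natDegree hR0, hRd]
    refine (Polynomial.degree_C_mul_X_pow_le l C).trans_lt ?_
    exact_mod_cast hl
  have ht := Polynomial.div_tendsto_atTop_zero_of_degree_lt _ _ hdeg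
  have ht2 := ht.comp tendsto_natCast_atTop_atTop (α := ℕ)
  have hne : ∀ᶠ k : ℕ in Filter.atTop, R.eval (k : ℝ) ≠ 0 := by
    have h1 : ∀ᶠ x : ℝ in Filter.atTop, R.eval x ≠ 0 := by
      have h2 := R.eventually_atTop_not_isRoot hR0
      filter_upwards [h2] with x hx
      exact hx
    exact tendsto_natCast_atTop_atTop.eventually h1
  have h1 := (ht2.norm).eventually (gt_mem_nhds (show ‖(0 : ℝ)‖ < 1 by simp))
  obtain ⟨k, hk1, hk2, hk3⟩ := (h1.and (hne.and (Filter.eventually_ge_atTop 1))).exists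
  have h4 := h k hk3
  simp only [Function.comp, norm_div] at hk1
  rw [div_lt_one (norm_pos_iff.mpr hk2)] at hk1
  have e1 : ‖R.eval (k : ℝ)‖ = |P.eval ((k : ℝ) ^ 2)| * (k : ℝ) ^ 2 := by
    rw [hR]
    simp
  rw [e1] at hk1
  simp only [Polynomial.eval_mul, Polynomial.eval_C, Polynomial.eval_pow, Polynomial.eval_X] at hk1
  exact absurd (h4.trans (le_abs_self _)) (not_le.mpr hk1)

end Pool.Agent.Helper3K9.EM
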