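import Mathlib
import Pool.Agent.Helper3K9.EM.Defs

noncomputable section

open MeasureTheory Set
open scoped Polynomial

namespace Pool.Agent.Helper3K9.EM

theorem hasSum_sq (t : ℝ) (h0 : -1 ≤ t) (h1 : t ≤ 1) :
    HasSum (fun k : ℕ => (-1 : ℝ) ^ (k + 1) * (4 / (Real.pi ^ 2 * ((k : ℝ) + 1) ^ 2)) *
      Real.cos (Real.pi * ((k : ℝ) + 1) * t)) (t ^ 2 - 1 / 3) := by
  have hx : (1 + t) / 2 ∈ Icc (0 : ℝ) 1 := ⟨by linarith, by linarith⟩
  have h := hasSum_one_div_nat_pow_mul_cos (k := 1) one_ne_zero hx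
  have hB : (Polynomial.map (algebraMap ℚ ℝ) (Polynomial.bernoulli (2 * 1))).eval ((1 + t) / 2)
      = (t ^ 2 - 1 / 3) / 4 := by
    rw [mul_one, Polynomial.eval_map]
    simp only [Polynomial.bernoulli, Finset.sum_range_succ, Finset.range_zero, Finset.sum_empty]
    simp [Polynomial.eval₂_add, Polynomial.eval₂_monomial, bernoulli_zero, bernoulli_one,
      bernoulli_two]
    ring
  rw [hB] at h
  have hpi : Real.pi ≠ 0 := Real.pi_ne_zero
  have h2 := h.mul_left (4 / Real.pi ^ 2)
  have h3 := (hasSum_nat_add_iff' 1).mpr h2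
  simp only [Finset.range_one, Finset.sum_singleton] at h3
  convert! h3 using 1
  · funext k
    have hc : Real.cos (2 * Real.pi * ((k + 1 : ℕ) : ℝ) * ((1 + t) / 2))
        = (-1) ^ (k + 1) * Real.cos (Real.pi * ((k : ℝ) + 1) * t) := by
      have : 2 * Real.pi * ((k + 1 : ℕ) : ℝ) * ((1 + t) / 2)
          = Real.pi * ((k : ℝ) + 1) * t + ((k + 1 : ℕ) : ℝ) * Real.pi := by
        push_cast; ring
      rw [this, Real.cos_add_nat_mul_pi]
    rw [hc]
    have hk : ((k : ℝ) + 1) ≠ 0 := by positivity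
    push_cast
    field_simp
  · simp
    field_simp

/-- two integrations by parts -/
theorem int_cos_deriv (p : ℝ[X]) (c : ℝ) (h1 : p.eval 1 = 0) (h2 : p.eval (-1) = 0)
    (h3 : p.derivative.eval 1 = 0) (h4 : p.derivative.eval (-1) = 0) :
    ∫ t in (-1 : ℝ)..1, Real.cos (c * t) * (p.derivative.derivative).eval t
      = -c ^ 2 * ∫ t in (-1 : ℝ)..1, Real.cos (c * t) * p.eval t := by
  have e1 := intervalIntegral.integral_mul_deriv_eq_deriv_mul (a := (-1 : ℝ)) (b := 1)
    (u := fun t => Real.cos (c * t)) (u' := fun t => -(c * Real.sin (c * t)))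
    (v := fun t => p.derivative.eval t) (v' := fun t => p.derivative.derivative.eval t)
    (fun x _ => by
      have := (Real.hasDerivAt_cos (c * x)).comp x ((hasDerivAt_id x).const_mul c)
      convert! this using 1
      simp; ring)
    (fun x _ => p.derivative.hasDerivAt x)
    (by apply Continuous.intervalIntegrable; fun_prop)
    (by apply Continuous.intervalIntegrable; fun_prop)
  have e2 := intervalIntegral.integral_mul_deriv_eq_deriv_mul (a := (-1 : ℝ)) (b := 1)
    (u := fun t => Real.sin (c * t)) (u' := fun t => c * Real.cos (c * t))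
    (v := fun t => p.eval t) (v' := fun t => p.derivative.eval t)
    (fun x _ => by
      have := (Real.hasDerivAt_sin (c * x)).comp x ((hasDerivAt_id x).const_mul c)
      convert! this using 1
      simp; ring)
    (fun x _ => p.hasDerivAt x)
    (by apply Continuous.intervalIntegrable; fun_prop)
    (by apply Continuous.intervalIntegrable; fun_prop)
  simp only [h3, h4, h1, h2, mul_zero, sub_zero, zero_sub] at e1 e2
  rw [e1]
  have e3 : ∫ t in (-1 : ℝ)..1, -(c * Real.sin (c * t)) * p.derivative.eval t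
      = -c * ∫ t in (-1 : ℝ)..1, Real.sin (c * t) * p.derivative.eval t := by
    rw [← intervalIntegral.integral_const_mul]
    congr 1; funext t; ring
  have e4 : ∫ t in (-1 : ℝ)..1, c * Real.cos (c * t) * p.eval t
      = c * ∫ t in (-1 : ℝ)..1, Real.cos (c * t) * p.eval t := by
    rw [← intervalIntegral.integral_const_mul]
    congr 1; funext t; ring
  rw [e3, e2, e4]
  ring

/-- the polynomial `(1 - X ^ 2) ^ N` -/
def qq (N : ℕ) : ℝ[X] := (1 - Polynomial.X ^ 2) ^ N

theorem qq_eval (N : ℕ) (t : ℝ) : (qq N).eval t = (1 - t ^ 2) ^ N := by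
  simp [qq]

theorem qq_zero (N j : ℕ) (hj : j < N) (t : ℝ) (ht : t ^ 2 = 1) :
    (Polynomial.derivative^[j] (qq N)).eval t = 0 := by
  have h := Polynomial.pow_sub_dvd_iterate_derivative_pow (1 - Polynomial.X ^ 2 : ℝ[X]) N j
  obtain ⟨r, hr⟩ := h
  rw [qq, hr]
  have : N - j ≠ 0 := by omega
  simp [ht, this]

theorem int_iter (N : ℕ) (c : ℝ) (i : ℕ) (hi : 2 * i ≤ N) :
    ∫ t in (-1 : ℝ)..1, Real.cos (c * t) * (Polynomial.derivative^[2 * i] (qq N)).eval t
      = (-c ^ 2) ^ i * gg N c := by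
  induction i with
  | zero => simp [gg, qq_eval]
  | succ i ih =>
    have hs : Polynomial.derivative^[2 * (i + 1)] (qq N)
        = Polynomial.derivative (Polynomial.derivative (Polynomial.derivative^[2 * i] (qq N))) := by
      rw [show 2 * (i + 1) = 2 * i + 1 + 1 by ring, Function.iterate_succ_apply',
        Function.iterate_succ_apply']
    have hd : Polynomial.derivative (Polynomial.derivative^[2 * i] (qq N))
        = Polynomial.derivative^[2 * i + 1] (qq N) := by
      rw [Function.iterate_succ_apply']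
    rw [hs, int_cos_deriv _ c (qq_zero N _ (by omega) 1 (by norm_num))
      (qq_zero N _ (by omega) (-1) (by norm_num))
      (by rw [hd]; exact qq_zero N _ (by omega) 1 (by norm_num))
      (by rw [hd]; exact qq_zero N _ (by omega) (-1) (by norm_num)), ih (by omega)]
    ring

theorem int_sq (N i : ℕ) (hi : 1 ≤ i) (hN : 2 * i + 2 ≤ N) :
    ∫ t in (-1 : ℝ)..1, (t ^ 2 - 1 / 3) * (Polynomial.derivative^[2 * i + 2] (qq N)).eval t
      = 0 := by
  have hs : Polynomial.derivative (Polynomial.derivative^[2 * i + 1] (qq N))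
      = Polynomial.derivative^[2 * i + 2] (qq N) :=
    (Function.iterate_succ_apply' (f := Polynomial.derivative) (2 * i + 1) (qq N)).symm
  have hs1 : Polynomial.derivative (Polynomial.derivative^[2 * i] (qq N))
      = Polynomial.derivative^[2 * i + 1] (qq N) :=
    (Function.iterate_succ_apply' (f := Polynomial.derivative) (2 * i) (qq N)).symm
  have hs2 : Polynomial.derivative (Polynomial.derivative^[2 * i - 1] (qq N))
      = Polynomial.derivative^[2 * i] (qq N) := by
    rw [← Function.iterate_succ_apply' (f := Polynomial.derivative)]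
    congr 2
    omega
  have e1 := intervalIntegral.integral_mul_deriv_eq_deriv_mul (a := (-1 : ℝ)) (b := 1)
    (u := fun t => t ^ 2 - 1 / 3) (u' := fun t => 2 * t)
    (v := fun t => (Polynomial.derivative^[2 * i + 1] (qq N)).eval t)
    (v' := fun t => (Polynomial.derivative^[2 * i + 2] (qq N)).eval t)
    (fun x _ => by
      have := (hasDerivAt_pow 2 x).sub_const (1 / 3 : ℝ)
      convert! this using 1
      simp)
    (fun x _ => by rw [← hs]; exact Polynomial.hasDerivAt _ x)
    (by apply Continuous.intervalIntegrable; fun_prop)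
    (by apply Continuous.intervalIntegrable; fun_prop)
  have e2 := intervalIntegral.integral_mul_deriv_eq_deriv_mul (a := (-1 : ℝ)) (b := 1)
    (u := fun t => 2 * t) (u' := fun _ => (2 : ℝ))
    (v := fun t => (Polynomial.derivative^[2 * i] (qq N)).eval t)
    (v' := fun t => (Polynomial.derivative^[2 * i + 1] (qq N)).eval t)
    (fun x _ => by
      have := (hasDerivAt_id x).const_mul (2 : ℝ)
      convert! this using 1
      simp)
    (fun x _ => by rw [← hs1]; exact Polynomial.hasDerivAt _ x)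
    (by apply Continuous.intervalIntegrable; fun_prop)
    (by apply Continuous.intervalIntegrable; fun_prop)
  have e3 : ∫ t in (-1 : ℝ)..1, (Polynomial.derivative^[2 * i] (qq N)).eval t
      = (Polynomial.derivative^[2 * i - 1] (qq N)).eval 1
        - (Polynomial.derivative^[2 * i - 1] (qq N)).eval (-1) := by
    apply intervalIntegral.integral_eq_sub_of_hasDerivAt
      (f := fun t => (Polynomial.derivative^[2 * i - 1] (qq N)).eval t)
    · intro x _
      rw [← hs2]
      exact Polynomial.hasDerivAt _ x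
    · apply Continuous.intervalIntegrable; fun_prop
  rw [e1, e2, intervalIntegral.integral_const_mul, e3,
    qq_zero N _ (by omega) 1 (by norm_num), qq_zero N _ (by omega) (-1) (by norm_num),
    qq_zero N _ (by omega) 1 (by norm_num), qq_zero N _ (by omega) (-1) (by norm_num),
    qq_zero N _ (by omega) 1 (by norm_num), qq_zero N _ (by omega) (-1) (by norm_num)]
  simp

theorem hasSum_gg (N i : ℕ) (hi : 1 ≤ i) (hN : 2 * i + 2 ≤ N) :
    HasSum (fun k : ℕ => (-1 : ℝ) ^ (k + 1) * ((k : ℝ) + 1) ^ (2 * i) *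
      gg N (Real.pi * ((k : ℝ) + 1))) 0 := by
  set h : ℝ[X] := Polynomial.derivative^[2 * i + 2] (qq N) with hh
  obtain ⟨B, hB⟩ : ∃ B : ℝ, ∀ t ∈ Icc (-1 : ℝ) 1, ‖h.eval t‖ ≤ B :=
    isCompact_Icc.exists_bound_of_continuousOn (by fun_prop)
  have hB0 : 0 ≤ B := (norm_nonneg _).trans (hB 0 ⟨by norm_num, by norm_num⟩)
  have hsum : Summable (fun k : ℕ => 4 / (Real.pi ^ 2 * ((k : ℝ) + 1) ^ 2) * B) := by
    apply Summable.mul_right
    have h1 : Summable (fun k : ℕ => 1 / (((k + 1 : ℕ) : ℝ)) ^ 2) :=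
      (summable_nat_add_iff 1).mpr (Real.summable_one_div_nat_pow.mpr (by norm_num))
    have h2 := h1.mul_left (4 / Real.pi ^ 2)
    refine h2.congr fun k => ?_
    have : ((k : ℝ) + 1) ≠ 0 := by positivity
    have hpi : Real.pi ≠ 0 := Real.pi_ne_zero
    push_cast
    field_simp
  have key : HasSum (fun k : ℕ => ∫ t in (-1 : ℝ)..1,
      ((-1 : ℝ) ^ (k + 1) * (4 / (Real.pi ^ 2 * ((k : ℝ) + 1) ^ 2)) *
        Real.cos (Real.pi * ((k : ℝ) + 1) * t)) * h.eval t)
      (∫ t in (-1 : ℝ)..1, (t ^ 2 - 1 / 3) * h.eval t) := by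
    apply intervalIntegral.hasSum_integral_of_dominated_convergence
      (fun (k : ℕ) (_ : ℝ) => 4 / (Real.pi ^ 2 * ((k : ℝ) + 1) ^ 2) * B)
    · intro k
      apply Continuous.aestronglyMeasurable
      fun_prop
    · intro k
      refine Filter.Eventually.of_forall fun t ht => ?_
      rw [uIoc_of_le (by norm_num)] at ht
      have ht' : t ∈ Icc (-1 : ℝ) 1 := ⟨ht.1.le, ht.2⟩
      rw [norm_mul, norm_mul, norm_mul, norm_pow, norm_neg, norm_one, one_pow, one_mul]
      have hp : 0 ≤ 4 / (Real.pi ^ 2 * ((k : ℝ) + 1) ^ 2) := by positivity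
      rw [Real.norm_of_nonneg hp]
      have hc : ‖Real.cos (Real.pi * ((k : ℝ) + 1) * t)‖ ≤ 1 := Real.abs_cos_le_one _
      calc 4 / (Real.pi ^ 2 * ((k : ℝ) + 1) ^ 2) * ‖Real.cos (Real.pi * ((k : ℝ) + 1) * t)‖ *
            ‖h.eval t‖
          ≤ 4 / (Real.pi ^ 2 * ((k : ℝ) + 1) ^ 2) * 1 * B := by
            gcongr
            exact hB t ht'
        _ = _ := by ring
    · exact Filter.Eventually.of_forall fun t _ => hsum
    · exact intervalIntegrable_const
    · refine Filter.Eventually.of_forall fun t ht => ?_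
      rw [uIoc_of_le (by norm_num)] at ht
      exact (hasSum_sq t ht.1.le ht.2).mul_right _
  rw [hh, int_sq N i hi hN] at key
  have h4 := key.mul_left ((-1 : ℝ) ^ (i + 1) / (4 * Real.pi ^ (2 * i)))
  rw [mul_zero] at h4
  convert! h4 using 1
  funext k
  have hpi : Real.pi ≠ 0 := Real.pi_ne_zero
  have hk : ((k : ℝ) + 1) ≠ 0 := by positivity
  have e1 : ∫ t in (-1 : ℝ)..1,
      ((-1 : ℝ) ^ (k + 1) * (4 / (Real.pi ^ 2 * ((k : ℝ) + 1) ^ 2)) *
        Real.cos (Real.pi * ((k : ℝ) + 1) * t)) * (Polynomial.derivative^[2 * i + 2] (qq N)).eval t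
      = ((-1 : ℝ) ^ (k + 1) * (4 / (Real.pi ^ 2 * ((k : ℝ) + 1) ^ 2))) *
        ((-(Real.pi * ((k : ℝ) + 1)) ^ 2) ^ (i + 1) * gg N (Real.pi * ((k : ℝ) + 1))) := by
    rw [← int_iter N _ (i + 1) (by omega), ← intervalIntegral.integral_const_mul]
    congr 1; funext t
    rw [show 2 * (i + 1) = 2 * i + 2 by ring]
    ring
  rw [e1]
  have e2 : (-(Real.pi * ((k : ℝ) + 1)) ^ 2) ^ (i + 1)
      = (-1) ^ (i + 1) * (Real.pi ^ (2 * i) * Real.pi ^ 2 *
        (((k : ℝ) + 1) ^ (2 * i) * ((k : ℝ) + 1) ^ 2)) := by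
    rw [neg_pow, ← pow_mul, mul_pow]
    ring
  rw [e2]
  have e3 : (-1 : ℝ) ^ (i + 1) * (-1) ^ (i + 1) = 1 := by
    rw [← mul_pow]; norm_num
  have hpi2 : Real.pi ^ (2 * i) ≠ 0 := pow_ne_zero _ hpi
  generalize hG : gg N (Real.pi * ((k : ℝ) + 1)) = G
  generalize hA : ((k : ℝ) + 1) ^ (2 * i) = A
  generalize hP : Real.pi ^ (2 * i) = P at hpi2 ⊢
  generalize hS : (-1 : ℝ) ^ (k + 1) = S
  generalize hT : (-1 : ℝ) ^ (i + 1) = T at e3 ⊢
  field_simp
  linear_combination (-(A * G * S)) * e3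

end Pool.Agent.Helper3K9.EM
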