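import Mathlib
import Pool.Agent.Helper3K9.EM.Basic
import Pool.Agent.Helper3K9.EM.Sum

/-!
# The known extremal measure, carried by the coordinate axes
-/

open MeasureTheory Set
open scoped Polynomial

namespace Pool.Agent.Helper3K9.EM

variable {n : ℕ}

/-- the point `r e_i`. -/
noncomputable def pt (i : Fin n) (r : ℝ) : V n := EuclideanSpace.single i r

theorem norm_pt (i : Fin n) (r : ℝ) : ‖pt i r‖ = |r| := by
  simp [pt]

theorem inner_pt (i : Fin n) (r : ℝ) (v : V n) : inner ℝ (pt i r) v = r * v i := by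
  unfold pt
  rw [EuclideanSpace.inner_single_left]
  simp

/-- the known system. -/
noncomputable def sg0 (n k : ℕ) : Measure (V n) :=
  if k = 0 then ENNReal.ofReal ((n : ℝ) / 3) • Measure.dirac 0
  else ENNReal.ofReal (2 / (Real.pi ^ 2 * k ^ 2)) •
    ∑ i : Fin n, (Measure.dirac (pt i (Real.pi * k)) + Measure.dirac (pt i (-(Real.pi * k))))

theorem sg0_sys (n : ℕ) : Sys n (sg0 n) := by
  constructor
  · intro k
    have hm : MeasurableSet {x : V n | ‖x‖ ≠ Real.pi * k} := by
      refine MeasurableSet.compl ?_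
      exact measurableSet_eq_fun measurable_norm measurable_const
    unfold sg0
    by_cases hk : k = 0
    · subst hk
      rw [if_pos rfl, Measure.smul_apply, Measure.dirac_apply' _ hm]
      simp
    · rw [if_neg hk, Measure.smul_apply, Measure.finsetSum_apply]
      have hpk : 0 ≤ Real.pi * (k : ℝ) := by positivity
      simp [Measure.dirac_apply' _ hm, norm_pt, abs_of_nonneg hpk]
  · intro k
    unfold sg0 mm
    by_cases hk : k = 0
    · subst hk
      simp
    · rw [if_neg hk, if_neg hk, Measure.smul_apply, Measure.finsetSum_apply]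
      simp only [Measure.add_apply, measure_univ, Finset.sum_const, Finset.card_univ,
        Fintype.card_fin, nsmul_eq_mul, smul_eq_mul]
      have : (n : ENNReal) * (1 + 1) = ENNReal.ofReal (2 * n) := by
        rw [ENNReal.ofReal_mul (by norm_num)]
        simp
        ring
      rw [this, ← ENNReal.ofReal_mul (by positivity)]
      congr 1
      ring

theorem integral_sg0_zero (f : V n → ℂ) : ∫ x, f x ∂(sg0 n 0) = ((n : ℝ) / 3 : ℝ) * f 0 := by
  unfold sg0
  rw [if_pos rfl, integral_smul_measure, integral_dirac, ENNReal.toReal_ofReal (by positivity)]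
  simp

theorem integral_sg0 {E : Type*} [NormedAddCommGroup E] [NormedSpace ℝ E] [CompleteSpace E]
    (f : V n → E) (k : ℕ) (hk : k ≠ 0) :
    ∫ x, f x ∂(sg0 n k) = (2 / (Real.pi ^ 2 * k ^ 2)) •
      ∑ i : Fin n, (f (pt i (Real.pi * k)) + f (pt i (-(Real.pi * k)))) := by
  unfold sg0
  rw [if_neg hk, integral_smul_measure, ENNReal.toReal_ofReal (by positivity)]
  congr 1
  rw [integral_finsetSum_measure]
  · refine Finset.sum_congr rfl fun i _ => ?_
    rw [integral_add_measure, integral_dirac, integral_dirac]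
    · exact integrable_dirac (by simp)
    · exact integrable_dirac (by simp)
  · intro i _
    exact (integrable_dirac (by simp)).add_measure (integrable_dirac (by simp))

/-- the moments of the known system -/
noncomputable def P0 (v : V n) (l : ℕ) : ℝ[X] :=
  if Even l then Polynomial.C (4 * Real.pi ^ (l - 2) * ∑ i, v i ^ l) * Polynomial.X ^ ((l - 2) / 2)
  else 0

theorem P0_spec (v : V n) (l : ℕ) (hl : 1 ≤ l) (k : ℕ) (hk : k ≠ 0) :
    ∫ x, (inner ℝ x v : ℝ) ^ l ∂(sg0 n k) = (P0 v l).eval ((k : ℝ) ^ 2) := by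
  rw [integral_sg0 _ k hk]
  simp only [inner_pt]
  unfold P0
  by_cases he : Even l
  · rw [if_pos he]
    obtain ⟨m, hm⟩ := he
    obtain ⟨m', rfl⟩ : ∃ m', m = m' + 1 := ⟨m - 1, by omega⟩
    have hl2 : l = 2 * m' + 2 := by omega
    subst hl2
    have e1 : (2 * m' + 2 - 2) / 2 = m' := by omega
    have e2 : 2 * m' + 2 - 2 = 2 * m' := by omega
    rw [e1, e2]
    simp only [Polynomial.eval_mul, Polynomial.eval_C, Polynomial.eval_pow, Polynomial.eval_X,
      smul_eq_mul]
    have e3 : ∀ i : Fin n, (Real.pi * k * v i) ^ (2 * m' + 2) + (-(Real.pi * k) * v i) ^ (2 * m' + 2)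
        = 2 * (Real.pi * k) ^ (2 * m' + 2) * v i ^ (2 * m' + 2) := by
      intro i
      have : Even (2 * m' + 2) := ⟨m' + 1, by ring⟩
      rw [neg_mul, this.neg_pow, mul_pow]
      ring
    simp_rw [e3]
    rw [← Finset.mul_sum]
    have hk' : (k : ℝ) ≠ 0 := by exact_mod_cast hk
    have hp : Real.pi ≠ 0 := Real.pi_ne_zero
    have e4 : (Real.pi * k) ^ (2 * m' + 2) = Real.pi ^ (2 * m') * Real.pi ^ 2 *
      (((k : ℝ) ^ 2) ^ m' * (k : ℝ) ^ 2) := by
      ring
    rw [e4]
    field_simp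
    ring
  · rw [if_neg he]
    have ho : Odd l := Nat.not_even_iff_odd.1 he
    simp only [Polynomial.eval_zero, smul_eq_mul]
    have e3 : ∀ i : Fin n, (Real.pi * k * v i) ^ l + (-(Real.pi * k) * v i) ^ l = 0 := by
      intro i
      rw [neg_mul, ho.neg_pow]
      ring
    simp_rw [e3]
    simp

theorem P0_zero (v : V n) (l : ℕ) (hl : 1 ≤ l) :
    (P0 v l).eval 0 = if l = 2 then 4 * ‖v‖ ^ 2 else 0 := by
  unfold P0
  by_cases he : Even l
  · rw [if_pos he]
    by_cases h2 : l = 2
    · subst h2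
      simp [EuclideanSpace.norm_sq_eq, Polynomial.eval_finsetSum]
    · rw [if_neg h2]
      have : 0 < (l - 2) / 2 := by
        obtain ⟨m, hm⟩ := he
        omega
      simp only [Polynomial.eval_mul, Polynomial.eval_C, Polynomial.eval_pow, Polynomial.eval_X]
      rw [zero_pow this.ne', mul_zero]
  · rw [if_neg he]
    have h2 : l ≠ 2 := by
      rintro rfl
      exact he (by decide)
    rw [if_neg h2]
    simp

theorem P0_deg (v : V n) (l : ℕ) (hl : 1 ≤ l) : P0 v l = 0 ∨ 2 * (P0 v l).natDegree + 2 ≤ l := by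
  unfold P0
  by_cases he : Even l
  · rw [if_pos he]
    right
    have h1 := Polynomial.natDegree_C_mul_X_pow_le (4 * Real.pi ^ (l - 2) * ∑ i, v i ^ l)
      ((l - 2) / 2)
    obtain ⟨m, hm⟩ := he
    omega
  · left
    rw [if_neg he]

/-- the cosine of the norm on the spheres. -/
theorem cos_pi_mul (k : ℕ) : Real.cos (Real.pi * k) = (-1) ^ k := by
  rw [mul_comm, Real.cos_nat_mul_pi]

/-- the Fourier transform of the known measure. -/
theorem known_fourier (ξ : V n) (hξ : ‖ξ‖ ≤ 1) :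
    ∫ x, ee x ξ * (Real.cos ‖x‖ : ℂ) ∂(Measure.sum (sg0 n)) = ((‖ξ‖ ^ 2 : ℝ) : ℂ) := by
  have hs := sg0_sys n
  have h1 : HasSum (fun k => ∫ x, ee x ξ * (Real.cos ‖x‖ : ℂ) ∂(sg0 n k))
      (∫ x, ee x ξ * (Real.cos ‖x‖ : ℂ) ∂(Measure.sum (sg0 n))) := by
    refine hs.hasSum (C := 1) ?_ ?_
    · have := continuous_ee_left ξ
      fun_prop
    · intro x
      rw [norm_mul, norm_ee, one_mul, Complex.norm_real, Real.norm_eq_abs]
      exact Real.abs_cos_le_one _
  have hco : ∀ i, -1 ≤ ξ i ∧ ξ i ≤ 1 := by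
    intro i
    have h2 : ‖ξ i‖ ≤ ‖ξ‖ := PiLp.norm_apply_le ξ i
    rw [Real.norm_eq_abs] at h2
    exact abs_le.1 (h2.trans hξ)
  -- the partial sums
  have h3 : HasSum (fun k : ℕ => ∫ x, ee x ξ * (Real.cos ‖x‖ : ℂ) ∂(sg0 n (k + 1)))
      ((∑ i, (ξ i ^ 2 - 1 / 3) : ℝ) : ℂ) := by
    have h4 : HasSum (fun k : ℕ => ∑ i : Fin n, (-1 : ℝ) ^ (k + 1) *
        (4 / (Real.pi ^ 2 * ((k : ℝ) + 1) ^ 2)) * Real.cos (Real.pi * ((k : ℝ) + 1) * ξ i))
        (∑ i : Fin n, (ξ i ^ 2 - 1 / 3)) :=
      hasSum_sum fun i _ => hasSum_sq (ξ i) (hco i).1 (hco i).2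
    have h5 := Complex.hasSum_ofReal.2 h4
    convert h5 using 1
    funext k
    rw [integral_sg0 _ (k + 1) (Nat.succ_ne_zero k)]
    push_cast
    rw [Finset.smul_sum]
    refine Finset.sum_congr rfl fun i _ => ?_
    have hpk : 0 ≤ Real.pi * ((k : ℝ) + 1) := by positivity
    have e1 : Real.cos (Real.pi * ((k : ℝ) + 1)) = (-1) ^ (k + 1) := by
      have := cos_pi_mul (k + 1)
      push_cast at this
      exact this
    simp only [norm_pt, abs_neg, abs_of_nonneg hpk]
    unfold ee
    simp only [inner_pt]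
    have e2 : Complex.exp (-((Real.pi * ((k : ℝ) + 1) * ξ i : ℝ) : ℂ) * Complex.I) +
        Complex.exp (-((-(Real.pi * ((k : ℝ) + 1)) * ξ i : ℝ) : ℂ) * Complex.I) =
        2 * Complex.cos ((Real.pi * ((k : ℝ) + 1) * ξ i : ℝ) : ℂ) := by
      rw [Complex.two_cos]
      push_cast
      ring_nf
    rw [← Complex.ofReal_cos, e1, ← add_mul, e2, ← Complex.ofReal_cos]
    rw [Complex.real_smul]
    push_cast
    ring
  have h6 := (hasSum_nat_add_iff (f := fun k => ∫ x, ee x ξ * (Real.cos ‖x‖ : ℂ) ∂(sg0 n k)) 1).1 h3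
  have h7 := h1.unique h6
  rw [h7]
  simp only [Finset.range_one, Finset.sum_singleton]
  rw [integral_sg0_zero]
  unfold ee
  simp only [norm_zero, Real.cos_zero, inner_zero_left]
  rw [EuclideanSpace.norm_sq_eq]
  simp only [Real.norm_eq_abs, sq_abs, Finset.sum_sub_distrib, Finset.sum_const, Finset.card_univ,
    Fintype.card_fin, nsmul_eq_mul]
  push_cast
  simp
  ring

end Pool.Agent.Helper3K9.EM
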