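import Mathlib
import Pool.Agent.Helper3K9.EM.Basic
import Pool.Agent.Helper3K9.EM.Ball
import Pool.Agent.Helper3K9.EM.Abel

/-!
# The wave identity

If two finite complex measures have the same Fourier transform on the unit ball then so have their
products with `cos (τ |x|)` on the ball of radius `1 - τ`.
-/

open MeasureTheory Set

namespace Pool.Agent.Helper3K9.EM

variable {n : ℕ}

/-- the wave function. -/
noncomputable def XX (μ : Measure (V n)) (ψ : V n → ℂ) (ξ : V n) (u : ℝ) : ℂ :=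
  ∫ x, ee x ξ * ψ x * (Real.cos (u * ‖x‖) : ℂ) ∂μ

theorem XX_even (μ : Measure (V n)) (ψ : V n → ℂ) (ξ : V n) (u : ℝ) :
    XX μ ψ ξ (-u) = XX μ ψ ξ u := by
  unfold XX
  simp

theorem XX_norm_le (ψ : V n → ℂ) (b : ∀ x, ‖ψ x‖ ≤ 1) (ξ : V n) (u : ℝ) (x : V n) :
    ‖ee x ξ * ψ x * (Real.cos (u * ‖x‖) : ℂ)‖ ≤ 1 := by
  rw [norm_mul, norm_mul, norm_ee, one_mul]
  have h1 : ‖(Real.cos (u * ‖x‖) : ℂ)‖ ≤ 1 := by
    rw [Complex.norm_real, Real.norm_eq_abs]
    exact Real.abs_cos_le_one _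
  calc ‖ψ x‖ * ‖(Real.cos (u * ‖x‖) : ℂ)‖ ≤ 1 * 1 :=
        mul_le_mul (b x) h1 (norm_nonneg _) zero_le_one
    _ = 1 := one_mul 1

theorem XX_continuous (μ : Measure (V n)) [IsFiniteMeasure μ] (ψ : V n → ℂ) (hψ : Measurable ψ)
    (b : ∀ x, ‖ψ x‖ ≤ 1) (ξ : V n) : Continuous (XX μ ψ ξ) := by
  unfold XX
  refine continuous_of_dominated (bound := fun _ => (1 : ℝ)) ?_ ?_ ?_ ?_
  · intro u
    refine Measurable.aestronglyMeasurable ?_
    refine ((continuous_ee_left ξ).measurable.mul hψ).mul ?_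
    exact (by fun_prop : Continuous fun x : V n => (Real.cos (u * ‖x‖) : ℂ)).measurable
  · intro u
    exact Filter.Eventually.of_forall (XX_norm_le ψ b ξ u)
  · exact integrable_const _
  · refine Filter.Eventually.of_forall fun x => ?_
    fun_prop

/-- averaging the Fourier transform against the weight. -/
theorem average_eq (μ : Measure (V n)) [IsFiniteMeasure μ] (ψ : V n → ℂ)
    (hψ : Measurable ψ) (hb1 : ∀ x, ‖ψ x‖ ≤ 1) {b : ℕ} {a : ℝ} (ha : 0 < a) {C s : ℝ}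
    (hs : 0 < s)
    (hC : ∀ x : V n, ∫ η : V n, Complex.exp (-((inner ℝ x η : ℝ) : ℂ) * Complex.I) *
      (wt a s η : ℂ) = ((C * ∫ u in (-s)..s, Real.cos (‖x‖ * u) * (s ^ 2 - u ^ 2) ^ b : ℝ) : ℂ))
    (ξ : V n) :
    ∫ η : V n, (∫ x, ee x (ξ + η) * ψ x ∂μ) * (wt a s η : ℂ) =
      (C : ℂ) * ∫ u in (-s)..s, XX μ ψ ξ u * (((s ^ 2 - u ^ 2) ^ b : ℝ) : ℂ) := by
  have step1 : ∫ η : V n, (∫ x, ee x (ξ + η) * ψ x ∂μ) * (wt a s η : ℂ) =
      ∫ η : V n, ∫ x, ee x (ξ + η) * ψ x * (wt a s η : ℂ) ∂μ := by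
    congr 1
    funext η
    rw [integral_mul_const]
  have hint : Integrable (Function.uncurry fun (η : V n) (x : V n) =>
      ee x (ξ + η) * ψ x * (wt a s η : ℂ)) (volume.prod μ) := by
    have hw : Integrable (fun η : V n => wt a s η) := integrable_wt ha hs.le
    have hw2 : Integrable (fun p : V n × V n => wt a s p.1) (volume.prod μ) := hw.comp_fst μ
    refine hw2.mono' ?_ ?_
    · refine Measurable.aestronglyMeasurable ?_
      refine Measurable.mul (Measurable.mul ?_ (hψ.comp measurable_snd)) ?_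
      · exact (continuous_ee.comp (continuous_snd.prodMk
          (continuous_const.add continuous_fst))).measurable
      · exact (Complex.continuous_ofReal.comp
          ((continuous_wt ha s).comp continuous_fst)).measurable
    · refine Filter.Eventually.of_forall fun p => ?_
      simp only [Function.uncurry]
      rw [norm_mul, norm_mul, norm_ee, one_mul, Complex.norm_real, Real.norm_eq_abs,
        abs_of_nonneg (wt_nn _ _ _)]
      exact mul_le_of_le_one_left (wt_nn _ _ _) (hb1 _)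
  rw [step1, integral_integral_swap hint]
  have step2 : ∀ x : V n, ∫ η : V n, ee x (ξ + η) * ψ x * (wt a s η : ℂ) =
      (C : ℂ) * ∫ u in (-s)..s, ee x ξ * ψ x * (Real.cos (u * ‖x‖) : ℂ) *
        (((s ^ 2 - u ^ 2) ^ b : ℝ) : ℂ) := by
    intro x
    have e1 : ∀ η : V n, ee x (ξ + η) * ψ x * (wt a s η : ℂ) =
        (ee x ξ * ψ x) * (Complex.exp (-((inner ℝ x η : ℝ) : ℂ) * Complex.I) * (wt a s η : ℂ)) := by
      intro η
      rw [ee_add]
      unfold ee
      ring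
    simp_rw [e1]
    rw [integral_const_mul, hC x]
    have e2 : ∀ u : ℝ, ee x ξ * ψ x * (Real.cos (u * ‖x‖) : ℂ) * (((s ^ 2 - u ^ 2) ^ b : ℝ) : ℂ) =
        (ee x ξ * ψ x) * (((Real.cos (‖x‖ * u) * (s ^ 2 - u ^ 2) ^ b : ℝ)) : ℂ) := by
      intro u
      rw [mul_comm u ‖x‖]
      push_cast
      ring
    simp_rw [e2]
    rw [intervalIntegral.integral_const_mul, intervalIntegral.integral_ofReal]
    push_cast
    ring
  simp_rw [step2]
  rw [integral_const_mul]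
  congr 1
  have hle : -s ≤ s := by linarith
  simp_rw [intervalIntegral.integral_of_le hle]
  rw [integral_integral_swap]
  · congr 1
    funext u
    unfold XX
    rw [integral_mul_const]
  · have hbd : Integrable (fun p : V n × ℝ => (s ^ 2) ^ b)
        (μ.prod (volume.restrict (Ioc (-s) s))) := integrable_const _
    refine hbd.mono' ?_ ?_
    · refine Measurable.aestronglyMeasurable ?_
      refine Measurable.mul (Measurable.mul (Measurable.mul ?_ (hψ.comp measurable_fst)) ?_) ?_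
      · exact ((continuous_ee_left ξ).comp continuous_fst).measurable
      · exact (by fun_prop : Continuous fun p : V n × ℝ =>
          (Real.cos (p.2 * ‖p.1‖) : ℂ)).measurable
      · exact (by fun_prop : Continuous fun p : V n × ℝ =>
          (((s ^ 2 - p.2 ^ 2) ^ b : ℝ) : ℂ)).measurable
    · have : ∀ᵐ p ∂(μ.prod (volume.restrict (Ioc (-s) s))), p.2 ∈ Ioc (-s) s := by
        have h1 : ∀ᵐ u ∂(volume.restrict (Ioc (-s) s)), u ∈ Ioc (-s) s :=
          ae_restrict_mem measurableSet_Ioc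
        exact Measure.quasiMeasurePreserving_snd.ae h1
      filter_upwards [this] with p hp
      simp only [Function.uncurry]
      rw [norm_mul]
      have h2 := XX_norm_le ψ hb1 ξ p.2 p.1
      have h3 : ‖(((s ^ 2 - p.2 ^ 2) ^ b : ℝ) : ℂ)‖ ≤ (s ^ 2) ^ b := by
        rw [Complex.norm_real, Real.norm_eq_abs, abs_pow]
        apply pow_le_pow_left₀ (abs_nonneg _)
        have h4 : p.2 ^ 2 ≤ s ^ 2 := by
          apply sq_le_sq'
          · exact hp.1.le
          · exact hp.2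
        rw [abs_of_nonneg (by linarith)]
        have : 0 ≤ p.2 ^ 2 := sq_nonneg _
        linarith
      calc _ ≤ 1 * (s ^ 2) ^ b := mul_le_mul h2 h3 (norm_nonneg _) zero_le_one
        _ = _ := one_mul _

theorem exists_ab (n : ℕ) : ∃ (b : ℕ) (a : ℝ), 0 < a ∧ a + ((n : ℝ) - 1) / 2 = b := by
  refine ⟨(n + 1) / 2, (((n + 1) / 2 : ℕ) : ℝ) - ((n : ℝ) - 1) / 2, ?_, by ring⟩
  have h : n ≤ 2 * ((n + 1) / 2) := by omega
  have h' : (n : ℝ) ≤ 2 * (((n + 1) / 2 : ℕ) : ℝ) := by exact_mod_cast h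
  linarith

theorem wave_eq (hn : 0 < n) (μ₁ μ₂ : Measure (V n)) [IsFiniteMeasure μ₁] [IsFiniteMeasure μ₂]
    (ψ₁ ψ₂ : V n → ℂ) (hψ₁ : Measurable ψ₁) (hψ₂ : Measurable ψ₂) (b₁ : ∀ x, ‖ψ₁ x‖ ≤ 1)
    (b₂ : ∀ x, ‖ψ₂ x‖ ≤ 1)
    (h : ∀ ξ : V n, ‖ξ‖ ≤ 1 → ∫ x, ee x ξ * ψ₁ x ∂μ₁ = ∫ x, ee x ξ * ψ₂ x ∂μ₂)
    (ξ : V n) (τ : ℝ) (hτ : 0 ≤ τ) (hξ : ‖ξ‖ + τ ≤ 1) :
    XX μ₁ ψ₁ ξ τ = XX μ₂ ψ₂ ξ τ := by
  rcases hτ.eq_or_lt with h0 | h0
  · subst h0
    unfold XX
    simpa using h ξ (by linarith)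
  obtain ⟨b, a, ha, hab⟩ := exists_ab n
  obtain ⟨C, hC, hC'⟩ := ball_fourier hn b a ha hab
  have key : ∀ u, 0 ≤ u → u ≤ 1 - ‖ξ‖ → 0 < 1 - ‖ξ‖ → XX μ₁ ψ₁ ξ u - XX μ₂ ψ₂ ξ u = 0 := by
    refine abel_unique b (fun u => XX μ₁ ψ₁ ξ u - XX μ₂ ψ₂ ξ u)
      ((XX_continuous μ₁ ψ₁ hψ₁ b₁ ξ).sub (XX_continuous μ₂ ψ₂ hψ₂ b₂ ξ)) ?_ (1 - ‖ξ‖) ?_
    · intro u
      simp only [XX_even]
    · intro s hs hs1
      have e1 := average_eq μ₁ ψ₁ hψ₁ b₁ ha hs (hC' s hs) ξ
      have e2 := average_eq μ₂ ψ₂ hψ₂ b₂ ha hs (hC' s hs) ξ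
      have e3 : ∫ η : V n, (∫ x, ee x (ξ + η) * ψ₁ x ∂μ₁) * (wt a s η : ℂ) =
          ∫ η : V n, (∫ x, ee x (ξ + η) * ψ₂ x ∂μ₂) * (wt a s η : ℂ) := by
        congr 1
        funext η
        by_cases hη : s ≤ ‖η‖
        · rw [wt_vanish ha hs.le hη]
          simp
        · rw [h (ξ + η) ?_]
          have := norm_add_le ξ η
          push Not at hη
          linarith
      rw [e3, e2] at e1
      have e4 := mul_left_cancel₀ (by exact_mod_cast hC.ne' : (C : ℂ) ≠ 0) e1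
      have i1 : IntervalIntegrable (fun u => XX μ₁ ψ₁ ξ u * (((s ^ 2 - u ^ 2) ^ b : ℝ) : ℂ))
          volume (-s) s := by
        apply Continuous.intervalIntegrable
        have := XX_continuous μ₁ ψ₁ hψ₁ b₁ ξ
        fun_prop
      have i2 : IntervalIntegrable (fun u => XX μ₂ ψ₂ ξ u * (((s ^ 2 - u ^ 2) ^ b : ℝ) : ℂ))
          volume (-s) s := by
        apply Continuous.intervalIntegrable
        have := XX_continuous μ₂ ψ₂ hψ₂ b₂ ξ
        fun_prop
      simp_rw [sub_mul]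
      rw [intervalIntegral.integral_sub i1 i2, e4, sub_self]
  have := key τ hτ (by linarith) (by linarith)
  exact sub_eq_zero.1 this

end Pool.Agent.Helper3K9.EM
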