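import Mathlib
import Pool.Agent.Helper3K9.EM.Wave
import Pool.Agent.Helper3K9.EM.Known
import Pool.Agent.Helper3K9.EM.Coef

/-!
# Necessity, first part: the support, the sign and the wave function of the difference
-/

open MeasureTheory Set

namespace Pool.Agent.Helper3K9.EM

variable {n : ℕ}

/-- data of an extremal measure in polar form. -/
structure Ext (n : ℕ) (μ : Measure (V n)) (ψ : V n → ℂ) : Prop where
  fin : IsFiniteMeasure μ
  tot : μ.real univ = n
  meas : Measurable ψ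
  one : ∀ x, ‖ψ x‖ = 1
  four : ∀ ξ : V n, ‖ξ‖ ≤ 1 → ∫ x, ee x ξ * ψ x ∂μ = -((‖ξ‖ ^ 2 : ℝ) : ℂ)

/-- the known measure and its density. -/
noncomputable def mu0 (n : ℕ) : Measure (V n) := Measure.sum (sg0 n)

theorem mu0_fin (n : ℕ) : IsFiniteMeasure (mu0 n) := (sg0_sys n).sum_fin

/-- minus the cosine of the norm. -/
noncomputable def ps (x : V n) : ℂ := -(Real.cos ‖x‖ : ℂ)

theorem ps_meas : Measurable (ps : V n → ℂ) := by
  unfold ps
  exact (by fun_prop : Continuous fun x : V n => -(Real.cos ‖x‖ : ℂ)).measurable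

theorem ps_le (x : V n) : ‖ps x‖ ≤ 1 := by
  unfold ps
  rw [norm_neg, Complex.norm_real, Real.norm_eq_abs]
  exact Real.abs_cos_le_one _

theorem wave_known {μ : Measure (V n)} {ψ : V n → ℂ} (hn : 0 < n) (h : Ext n μ ψ) (ξ : V n)
    (τ : ℝ) (hτ : 0 ≤ τ) (hξ : ‖ξ‖ + τ ≤ 1) : XX μ ψ ξ τ = XX (mu0 n) ps ξ τ := by
  have := h.fin
  have := mu0_fin n
  refine wave_eq hn μ (mu0 n) ψ ps h.meas ps_meas (fun x => (h.one x).le) ps_le ?_ ξ τ hτ hξ
  intro ξ hξ
  rw [h.four ξ hξ]
  unfold ps mu0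
  simp_rw [mul_neg]
  rw [integral_neg, known_fourier ξ hξ]

theorem sq_cos_of {r : ℝ} (h : ∃ k : ℕ, r = Real.pi * k) : Real.cos r ^ 2 = 1 := by
  obtain ⟨k, rfl⟩ := h
  rw [cos_pi_mul, ← pow_mul, mul_comm, pow_mul]
  simp

theorem ext_ae {μ : Measure (V n)} {ψ : V n → ℂ} (hn : 0 < n) (h : Ext n μ ψ) :
    ∀ᵐ x ∂μ, ψ x = ps x ∧ ∃ k : ℕ, ‖x‖ = Real.pi * k := by
  have := h.fin
  have := mu0_fin n
  have h1 := wave_known hn h 0 1 zero_le_one (by simp)
  have h2 : XX (mu0 n) ps 0 1 = -(n : ℂ) := by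
    unfold XX
    have : ∫ x, ee x 0 * ps x * (Real.cos (1 * ‖x‖) : ℂ) ∂(mu0 n) = ∫ x, (-1 : ℂ) ∂(mu0 n) := by
      refine integral_congr_ae ?_
      filter_upwards [(sg0_sys n).sum_ae] with x hx
      rw [ee_zero, one_mul, one_mul]
      unfold ps
      have := sq_cos_of hx
      have h3 : ((Real.cos ‖x‖ : ℝ) : ℂ) ^ 2 = 1 := by exact_mod_cast this
      linear_combination -h3
    rw [this, integral_const]
    have : (mu0 n).real univ = n := by
      rw [measureReal_def]
      unfold mu0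
      rw [(sg0_sys n).sum_univ]
      simp
    rw [this]
    simp
  rw [h2] at h1
  -- the nonnegative function
  have hi : Integrable (fun x => ee x 0 * ψ x * (Real.cos (1 * ‖x‖) : ℂ)) μ := by
    refine Integrable.of_bound ?_ 1
      (Filter.Eventually.of_forall (XX_norm_le ψ (fun x => (h.one x).le) 0 1))
    refine Measurable.aestronglyMeasurable ?_
    refine ((continuous_ee_left 0).measurable.mul h.meas).mul ?_
    exact (by fun_prop : Continuous fun x : V n => (Real.cos (1 * ‖x‖) : ℂ)).measurable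
  have h4 : ∫ x, (1 + (ψ x).re * Real.cos ‖x‖) ∂μ = 0 := by
    have e1 : ∀ x : V n, (1 + (ψ x).re * Real.cos ‖x‖) =
        1 + (RCLike.re (ee x 0 * ψ x * (Real.cos (1 * ‖x‖) : ℂ))) := by
      intro x
      rw [ee_zero, one_mul, one_mul]
      have : RCLike.re (ψ x * (Real.cos ‖x‖ : ℂ)) = (ψ x * (Real.cos ‖x‖ : ℂ)).re := rfl
      rw [this, Complex.re_mul_ofReal]
    simp_rw [e1]
    rw [integral_add (integrable_const _) hi.re, integral_const, h.tot]
    have e2 : ∫ x, RCLike.re (ee x 0 * ψ x * (Real.cos (1 * ‖x‖) : ℂ)) ∂μ =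
        RCLike.re (∫ x, ee x 0 * ψ x * (Real.cos (1 * ‖x‖) : ℂ) ∂μ) := integral_re hi
    rw [e2]
    unfold XX at h1
    rw [h1]
    simp
  have hnn : ∀ x, 0 ≤ 1 + (ψ x).re * Real.cos ‖x‖ := by
    intro x
    have h5 : |(ψ x).re * Real.cos ‖x‖| ≤ 1 := by
      rw [abs_mul]
      refine mul_le_one₀ ?_ (abs_nonneg _) (Real.abs_cos_le_one _)
      exact (Complex.abs_re_le_norm _).trans (h.one x).le
    have := (abs_le.1 h5).1
    linarith
  have hint : Integrable (fun x => 1 + (ψ x).re * Real.cos ‖x‖) μ := by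
    refine Integrable.of_bound (C := 2) ?_ (Filter.Eventually.of_forall fun x => ?_)
    · refine Measurable.aestronglyMeasurable ?_
      refine measurable_const.add ((Complex.measurable_re.comp h.meas).mul ?_)
      exact (by fun_prop : Continuous fun x : V n => Real.cos ‖x‖).measurable
    · rw [Real.norm_eq_abs, abs_of_nonneg (hnn x)]
      have h5 : |(ψ x).re * Real.cos ‖x‖| ≤ 1 := by
        rw [abs_mul]
        refine mul_le_one₀ ?_ (abs_nonneg _) (Real.abs_cos_le_one _)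
        exact (Complex.abs_re_le_norm _).trans (h.one x).le
      have := (abs_le.1 h5).2
      linarith
  have h6 := (integral_eq_zero_iff_of_nonneg (μ := μ) hnn hint).1 h4
  filter_upwards [h6] with x hx
  simp only [Pi.zero_apply] at hx
  set r := (ψ x).re
  set c := Real.cos ‖x‖ with hc
  have hr : r ^ 2 + (ψ x).im ^ 2 = 1 := by
    have := h.one x
    have h7 := Complex.sq_norm (ψ x)
    rw [this, Complex.normSq_apply] at h7
    linarith [h7]
  have hc1 : c ^ 2 ≤ 1 := Real.cos_sq_le_one _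
  have him : 0 ≤ (ψ x).im ^ 2 := sq_nonneg _
  have hrc : (r + c) ^ 2 = 0 := by
    have : 0 ≤ (r + c) ^ 2 := sq_nonneg _
    nlinarith
  have hrc' : r = -c := by
    have := pow_eq_zero_iff (two_ne_zero) |>.1 hrc
    linarith
  have hc2 : c ^ 2 = 1 := by
    rw [hrc'] at hx
    linarith
  have him0 : (ψ x).im = 0 := by
    have : (ψ x).im ^ 2 = 0 := by
      rw [hrc'] at hr
      linarith
    exact pow_eq_zero_iff (two_ne_zero) |>.1 this
  refine ⟨?_, ?_⟩
  · unfold ps
    apply Complex.ext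
    · simp only [Complex.neg_re, Complex.ofReal_re]
      exact hrc'
    · simp only [Complex.neg_im, Complex.ofReal_im, neg_zero]
      exact him0
  · have hs : Real.sin ‖x‖ = 0 := by
      have := Real.sin_sq_add_cos_sq ‖x‖
      have : Real.sin ‖x‖ ^ 2 = 0 := by
        rw [← hc, hc2] at this
        linarith
      exact pow_eq_zero_iff (two_ne_zero) |>.1 this
    obtain ⟨m, hm⟩ := Real.sin_eq_zero_iff.1 hs
    have hm0 : 0 ≤ m := by
      by_contra hneg
      push Not at hneg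
      have h8 : (m : ℝ) < 0 := by exact_mod_cast hneg
      have h9 : (m : ℝ) * Real.pi < 0 := mul_neg_of_neg_of_pos h8 Real.pi_pos
      rw [hm] at h9
      exact absurd (norm_nonneg x) (not_le.2 h9)
    refine ⟨m.toNat, ?_⟩
    rw [← hm, mul_comm]
    congr 1
    have : ((m.toNat : ℤ) : ℝ) = (m : ℝ) := by rw [Int.toNat_of_nonneg hm0]
    exact_mod_cast this.symm

/-- the spherical parts -/
noncomputable def part (μ : Measure (V n)) (k : ℕ) : Measure (V n) :=
  μ.restrict {x | ‖x‖ = Real.pi * k}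

theorem meas_sphere (k : ℕ) : MeasurableSet {x : V n | ‖x‖ = Real.pi * k} :=
  measurableSet_eq_fun measurable_norm measurable_const

theorem sum_part {μ : Measure (V n)} (h : ∀ᵐ x ∂μ, ∃ k : ℕ, ‖x‖ = Real.pi * k) :
    Measure.sum (part μ) = μ := by
  unfold part
  rw [← Measure.restrict_iUnion]
  · apply Measure.restrict_eq_self_of_ae_mem
    filter_upwards [h] with x hx
    simpa using hx
  · intro i j hij
    rw [Function.onFun, Set.disjoint_left]
    intro x hx hy
    simp only [mem_ofPred_eq] at hx hy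
    rw [hx] at hy
    apply hij
    have := mul_left_cancel₀ Real.pi_ne_zero hy
    exact_mod_cast this
  · exact fun k => meas_sphere k

theorem part_sph {μ : Measure (V n)} [IsFiniteMeasure μ]
    (h : ∀ᵐ x ∂μ, ∃ k : ℕ, ‖x‖ = Real.pi * k) : Sph n (part μ) where
  sph k := by
    unfold part
    exact ae_restrict_mem (meas_sphere k)
  fin := by
    rw [sum_part h]
    infer_instance

theorem XX_eq_WW {μ : Measure (V n)} {ψ : V n → ℂ}
    (h : ∀ᵐ x ∂μ, ψ x = ps x ∧ ∃ k : ℕ, ‖x‖ = Real.pi * k) (ξ : V n) (t : ℝ) :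
    XX μ ψ ξ (1 - t) = -WW μ ξ t := by
  unfold XX WW
  rw [← integral_neg]
  refine integral_congr_ae ?_
  filter_upwards [h] with x hx
  obtain ⟨h1, k, hk⟩ := hx
  rw [h1]
  unfold ps
  have hs : Real.sin ‖x‖ = 0 := by
    rw [hk, mul_comm]
    exact Real.sin_nat_mul_pi k
  have e1 : Real.cos (t * ‖x‖) = Real.cos ‖x‖ * Real.cos ((1 - t) * ‖x‖) := by
    have : t * ‖x‖ = ‖x‖ - (1 - t) * ‖x‖ := by ring
    rw [this, Real.cos_sub, hs]
    ring
  rw [e1]
  push_cast
  ring

theorem WW_eq {μ : Measure (V n)} {ψ : V n → ℂ} (hn : 0 < n) (h : Ext n μ ψ) (ξ : V n)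
    (t : ℝ) (ht : ‖ξ‖ ≤ t) (ht1 : t ≤ 1) : WW μ ξ t = WW (mu0 n) ξ t := by
  have h1 := wave_known hn h ξ (1 - t) (by linarith) (by linarith)
  rw [XX_eq_WW (ext_ae hn h)] at h1
  rw [XX_eq_WW (μ := mu0 n) (ψ := ps)] at h1
  · exact neg_injective h1
  · filter_upwards [(sg0_sys n).sum_ae] with x hx
    exact ⟨rfl, hx⟩

end Pool.Agent.Helper3K9.EM
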