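import Mathlib
import Pool.Agent.Helper3K9.EM.Nec1
import Pool.Agent.Helper3K9.EM.Lag

/-!
# Necessity, second part: masses and moments
-/

open MeasureTheory Set
open scoped Polynomial

namespace Pool.Agent.Helper3K9.EM

variable {n : ℕ}

/-- the difference of the wave functions -/
noncomputable def KK (μ : Measure (V n)) (ξ : V n) (t : ℝ) : ℂ := WW μ ξ t - WW (mu0 n) ξ t

theorem cc_pos (k : ℕ) : 0 < cc k := by
  unfold cc
  split_ifs <;> norm_num

theorem part_ae {μ : Measure (V n)} (k : ℕ) : ∀ᵐ x ∂(part μ k), ‖x‖ = Real.pi * k := by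
  unfold part
  exact ae_restrict_mem (meas_sphere k)

theorem ext_coef {μ : Measure (V n)} {ψ : V n → ℂ} (hn : 0 < n) (h : Ext n μ ψ) (ξ : V n)
    (k : ℕ) : ∫ t in (0 : ℝ)..1, (Real.cos (Real.pi * k * t) : ℂ) * KK μ ξ t =
      (cc k : ℂ) * (∫ x, ee x ξ ∂(part μ k) - ∫ x, ee x ξ ∂(sg0 n k)) := by
  have := h.fin
  have := mu0_fin n
  have hae := ext_ae hn h
  have h1 : ∀ᵐ x ∂μ, ∃ k : ℕ, ‖x‖ = Real.pi * k := hae.mono fun x hx => hx.2
  have e1 := coef_eq (part_sph h1) ξ k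
  rw [sum_part h1] at e1
  have e2 := coef_eq (sg0_sys n).toSph ξ k
  rw [mul_sub, ← e1, ← e2]
  rw [← intervalIntegral.integral_sub]
  · refine intervalIntegral.integral_congr fun t _ => ?_
    unfold KK mu0
    ring
  · apply Continuous.intervalIntegrable
    have := WW_continuous μ ξ
    fun_prop
  · apply Continuous.intervalIntegrable
    have := WW_continuous (mu0 n) ξ
    unfold mu0 at this
    fun_prop

theorem KK_zero {μ : Measure (V n)} {ψ : V n → ℂ} (hn : 0 < n) (h : Ext n μ ψ) (ξ : V n)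
    (t : ℝ) (ht : ‖ξ‖ ≤ t) (ht1 : t ≤ 1) : KK μ ξ t = 0 := by
  unfold KK
  rw [WW_eq hn h ξ t ht ht1, sub_self]

theorem KK_continuous {μ : Measure (V n)} [IsFiniteMeasure μ] (ξ : V n) :
    Continuous (KK μ ξ) := by
  have := mu0_fin n
  exact (WW_continuous μ ξ).sub (WW_continuous (mu0 n) ξ)

theorem mu0_real : (mu0 n).real univ = n := by
  rw [measureReal_def]
  unfold mu0
  rw [(sg0_sys n).sum_univ]
  simp

theorem KK_norm_le {μ : Measure (V n)} {ψ : V n → ℂ} (h : Ext n μ ψ) (ξ : V n) (t : ℝ) :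
    ‖KK μ ξ t‖ ≤ 2 * n := by
  have := h.fin
  have := mu0_fin n
  unfold KK
  calc ‖WW μ ξ t - WW (mu0 n) ξ t‖ ≤ ‖WW μ ξ t‖ + ‖WW (mu0 n) ξ t‖ := norm_sub_le _ _
    _ ≤ n + n := by
        gcongr
        · rw [← h.tot]
          exact WW_norm_le μ ξ t
        · rw [← mu0_real (n := n)]
          exact WW_norm_le (mu0 n) ξ t
    _ = 2 * n := by ring

theorem ext_mass {μ : Measure (V n)} {ψ : V n → ℂ} (hn : 0 < n) (h : Ext n μ ψ) (k : ℕ) :
    (part μ k).real univ = mm n k := by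
  have := h.fin
  have := mu0_fin n
  have e1 := ext_coef hn h 0 k
  have e2 : ∫ t in (0 : ℝ)..1, (Real.cos (Real.pi * k * t) : ℂ) * KK μ 0 t = 0 := by
    have : ∫ t in (0 : ℝ)..1, (Real.cos (Real.pi * k * t) : ℂ) * KK μ 0 t =
        ∫ t in (0 : ℝ)..1, (0 : ℂ) := by
      refine intervalIntegral.integral_congr fun t ht => ?_
      rw [uIcc_of_le zero_le_one] at ht
      rw [KK_zero hn h 0 t (by simpa using ht.1) ht.2, mul_zero]
    rw [this]
    simp
  rw [e2] at e1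
  have e3 := (mul_eq_zero.1 e1.symm).resolve_left (by exact_mod_cast (cc_pos k).ne')
  simp_rw [ee_zero] at e3
  rw [integral_const, integral_const, (sg0_sys n).mass_real k] at e3
  have e4 : (((part μ k).real univ : ℝ) : ℂ) = ((mm n k : ℝ) : ℂ) := by
    have := sub_eq_zero.1 e3
    simpa using this
  exact_mod_cast e4

theorem ext_sys {μ : Measure (V n)} {ψ : V n → ℂ} (hn : 0 < n) (h : Ext n μ ψ) :
    Sys n (part μ) where
  sph k := by
    have := part_ae (μ := μ) k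
    rwa [ae_iff] at this
  mass k := by
    have := h.fin
    rw [← ext_mass hn h k, measureReal_def, ENNReal.ofReal_toReal]
    unfold part
    exact measure_ne_top _ _

/-- the difference of the Fourier transforms of the parts. -/
noncomputable def DD (μ : Measure (V n)) (ξ : V n) (k : ℕ) : ℂ :=
  ∫ x, ee x ξ ∂(part μ k) - ∫ x, ee x ξ ∂(sg0 n k)

theorem integral_zero_part {σ : ℕ → Measure (V n)} (h : Sys n σ) {E : Type*}
    [NormedAddCommGroup E] [NormedSpace ℝ E] [CompleteSpace E] (f : V n → E) :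
    ∫ x, f x ∂(σ 0) = mm n 0 • f 0 := by
  have h1 : ∫ x, f x ∂(σ 0) = ∫ x, f 0 ∂(σ 0) := by
    refine integral_congr_ae ?_
    filter_upwards [h.ae 0] with x hx
    have : x = 0 := by simpa using hx
    rw [this]
  rw [h1, integral_const, h.mass_real]

theorem DD_zero {μ : Measure (V n)} {ψ : V n → ℂ} (hn : 0 < n) (h : Ext n μ ψ) (ξ : V n) :
    DD μ ξ 0 = 0 := by
  unfold DD
  rw [integral_zero_part (ext_sys hn h), integral_zero_part (sg0_sys n), sub_self]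

theorem DD_eq {μ : Measure (V n)} {ψ : V n → ℂ} (hn : 0 < n) (h : Ext n μ ψ) (ξ : V n)
    (hξ : ‖ξ‖ ≤ 1) (k : ℕ) :
    DD μ ξ k = 2 * ∫ t in (0 : ℝ)..‖ξ‖, (Real.cos (Real.pi * k * t) : ℂ) * KK μ ξ t := by
  have := h.fin
  have e1 := ext_coef hn h ξ k
  have e2 : ∫ t in (0 : ℝ)..1, (Real.cos (Real.pi * k * t) : ℂ) * KK μ ξ t =
      ∫ t in (0 : ℝ)..‖ξ‖, (Real.cos (Real.pi * k * t) : ℂ) * KK μ ξ t := by
    have hc : Continuous fun t : ℝ => (Real.cos (Real.pi * k * t) : ℂ) * KK μ ξ t := by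
      have := KK_continuous (μ := μ) ξ
      fun_prop
    rw [← intervalIntegral.integral_add_adjacent_intervals (b := ‖ξ‖)
      (hc.intervalIntegrable _ _) (hc.intervalIntegrable _ _)]
    have : ∫ t in ‖ξ‖..1, (Real.cos (Real.pi * k * t) : ℂ) * KK μ ξ t =
        ∫ t in ‖ξ‖..1, (0 : ℂ) := by
      refine intervalIntegral.integral_congr fun t ht => ?_
      rw [uIcc_of_le hξ] at ht
      rw [KK_zero hn h ξ t ht.1 ht.2, mul_zero]
    rw [this]
    simp
  rw [e2] at e1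
  rw [e1]
  by_cases hk : k = 0
  · subst hk
    have e3 := DD_zero hn h ξ
    unfold DD at e3 ⊢
    rw [e3]
    simp
  · unfold DD cc
    rw [if_neg hk]
    push_cast
    ring

/-- the moments difference -/
noncomputable def QQ (μ : Measure (V n)) (v : V n) (p k : ℕ) : ℝ :=
  ∫ x, (inner ℝ x v : ℝ) ^ p ∂(part μ k) - ∫ x, (inner ℝ x v : ℝ) ^ p ∂(sg0 n k)

theorem DD_weights {μ : Measure (V n)} {ψ : V n → ℂ} (hn : 0 < n) (h : Ext n μ ψ) (d k : ℕ)
    (w : ℕ → ℝ) (hw : ∀ j < d, ((k : ℝ) ^ 2) ^ j = ∑ i ∈ Finset.range d, w i * ((i : ℝ) ^ 2) ^ j) :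
    ∃ C : ℝ, ∀ ξ : V n, ‖ξ‖ ≤ 1 →
      ‖DD μ ξ k - ∑ i ∈ Finset.range d, (w i : ℂ) * DD μ ξ i‖ ≤ C * ‖ξ‖ ^ (2 * d + 1) := by
  have := h.fin
  obtain ⟨C, hC⟩ := cos_weights d k w hw
  refine ⟨2 * (C * (2 * n)), fun ξ hξ => ?_⟩
  have hc : ∀ i : ℕ, Continuous fun t : ℝ => (Real.cos (Real.pi * i * t) : ℂ) * KK μ ξ t := by
    intro i
    have := KK_continuous (μ := μ) ξ
    fun_prop
  have e1 : DD μ ξ k - ∑ i ∈ Finset.range d, (w i : ℂ) * DD μ ξ i =
      2 * ∫ t in (0 : ℝ)..‖ξ‖, ((Real.cos (Real.pi * k * t) -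
        ∑ i ∈ Finset.range d, w i * Real.cos (Real.pi * i * t) : ℝ) : ℂ) * KK μ ξ t := by
    rw [DD_eq hn h ξ hξ k]
    simp_rw [DD_eq hn h ξ hξ]
    have e2 : ∑ i ∈ Finset.range d, (w i : ℂ) *
        (2 * ∫ t in (0 : ℝ)..‖ξ‖, (Real.cos (Real.pi * i * t) : ℂ) * KK μ ξ t) =
        2 * ∫ t in (0 : ℝ)..‖ξ‖, ∑ i ∈ Finset.range d, (w i : ℂ) *
          ((Real.cos (Real.pi * i * t) : ℂ) * KK μ ξ t) := by
      rw [intervalIntegral.integral_finsetSum]
      · rw [Finset.mul_sum]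
        refine Finset.sum_congr rfl fun i _ => ?_
        rw [intervalIntegral.integral_const_mul]
        ring
      · intro i _
        exact ((hc i).const_mul _).intervalIntegrable _ _
    rw [e2, ← mul_sub, ← intervalIntegral.integral_sub]
    · congr 1
      refine intervalIntegral.integral_congr fun t _ => ?_
      push_cast
      rw [sub_mul, Finset.sum_mul]
      congr 1
      refine Finset.sum_congr rfl fun i _ => ?_
      ring
    · exact (hc k).intervalIntegrable _ _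
    · apply Continuous.intervalIntegrable
      exact continuous_finsetSum _ fun i _ => (hc i).const_mul _
  rw [e1, norm_mul]
  have e3 : ‖∫ t in (0 : ℝ)..‖ξ‖, ((Real.cos (Real.pi * k * t) -
        ∑ i ∈ Finset.range d, w i * Real.cos (Real.pi * i * t) : ℝ) : ℂ) * KK μ ξ t‖ ≤
        (C * ‖ξ‖ ^ (2 * d) * (2 * n)) * |‖ξ‖ - 0| := by
    apply intervalIntegral.norm_integral_le_of_norm_le_const
    intro t ht
    rw [uIoc_of_le (norm_nonneg _)] at ht
    rw [norm_mul, Complex.norm_real, Real.norm_eq_abs]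
    have h1 := hC t ht.1.le (ht.2.trans hξ)
    have h2 := KK_norm_le h ξ t
    have hC0 : 0 ≤ C := by
      have := hC 1 zero_le_one le_rfl
      have h5 := (abs_nonneg _).trans this
      simpa using h5
    have h3 : C * t ^ (2 * d) ≤ C * ‖ξ‖ ^ (2 * d) :=
      mul_le_mul_of_nonneg_left (pow_le_pow_left₀ ht.1.le ht.2 _) hC0
    exact mul_le_mul (h1.trans h3) h2 (norm_nonneg _) (by positivity)
  rw [sub_zero, abs_of_nonneg (norm_nonneg ξ)] at e3
  calc ‖(2 : ℂ)‖ * _ ≤ 2 * ((C * ‖ξ‖ ^ (2 * d) * (2 * n)) * ‖ξ‖) := by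
        rw [Complex.norm_ofNat]
        exact mul_le_mul_of_nonneg_left e3 (by norm_num)
    _ = _ := by ring

theorem QQ_weights {μ : Measure (V n)} {ψ : V n → ℂ} (hn : 0 < n) (h : Ext n μ ψ) (v : V n)
    (d k : ℕ) (w : ℕ → ℝ)
    (hw : ∀ j < d, ((k : ℝ) ^ 2) ^ j = ∑ i ∈ Finset.range d, w i * ((i : ℝ) ^ 2) ^ j)
    (p : ℕ) (hp : p < 2 * d + 1) :
    QQ μ v p k = ∑ i ∈ Finset.range d, w i * QQ μ v p i := by
  have := h.fin
  have hsys := ext_sys hn h
  obtain ⟨C, hC⟩ := DD_weights hn h d k w hw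
  -- Taylor expansion of `DD`
  have hT : ∀ i : ℕ, ∃ C : ℝ, ∀ r : ℝ, 0 ≤ r → r ≤ 1 →
      ‖DD μ (r • v) i - ∑ p ∈ Finset.range (2 * d + 1), ((-Complex.I) ^ p / (p.factorial : ℂ) *
        ((QQ μ v p i : ℝ) : ℂ)) * (r : ℂ) ^ p‖ ≤ C * r ^ (2 * d + 1) := by
    intro i
    have f1 := hsys.fin i
    have f2 := (sg0_sys n).fin i
    obtain ⟨C1, h1⟩ := char_taylor (part μ i) (Real.pi * i)
      ((hsys.ae i).mono fun x hx => hx.le) v (2 * d + 1)
    obtain ⟨C2, h2⟩ := char_taylor (sg0 n i) (Real.pi * i)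
      (((sg0_sys n).ae i).mono fun x hx => hx.le) v (2 * d + 1)
    refine ⟨C1 + C2, fun r hr hr1 => ?_⟩
    have e : DD μ (r • v) i - ∑ p ∈ Finset.range (2 * d + 1),
        ((-Complex.I) ^ p / (p.factorial : ℂ) * ((QQ μ v p i : ℝ) : ℂ)) * (r : ℂ) ^ p =
        (∫ x, Complex.exp (-((inner ℝ x (r • v) : ℝ) : ℂ) * Complex.I) ∂(part μ i) -
        ∑ p ∈ Finset.range (2 * d + 1), ((-Complex.I) ^ p / (p.factorial : ℂ) *
          ((∫ x, (inner ℝ x v : ℝ) ^ p ∂(part μ i) : ℝ) : ℂ)) * (r : ℂ) ^ p) -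
        (∫ x, Complex.exp (-((inner ℝ x (r • v) : ℝ) : ℂ) * Complex.I) ∂(sg0 n i) -
        ∑ p ∈ Finset.range (2 * d + 1), ((-Complex.I) ^ p / (p.factorial : ℂ) *
          ((∫ x, (inner ℝ x v : ℝ) ^ p ∂(sg0 n i) : ℝ) : ℂ)) * (r : ℂ) ^ p) := by
      unfold DD QQ ee
      rw [sub_sub_sub_comm, ← Finset.sum_sub_distrib]
      congr 1
      refine Finset.sum_congr rfl fun p _ => ?_
      rw [Complex.ofReal_sub]
      ring
    rw [e]
    calc _ ≤ _ + _ := norm_sub_le _ _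
      _ ≤ C1 * r ^ (2 * d + 1) + C2 * r ^ (2 * d + 1) := add_le_add (h1 r hr hr1) (h2 r hr hr1)
      _ = _ := by ring
  choose CT hCT using hT
  set ρ : ℝ := 1 / (1 + ‖v‖) with hρ
  have hv : 0 ≤ ‖v‖ := norm_nonneg v
  have hρ0 : 0 < ρ := by positivity
  have hρ1 : ρ ≤ 1 := by
    rw [hρ, div_le_one (by positivity)]
    linarith
  have key := coeff_zero (2 * d + 1) (fun p => (-Complex.I) ^ p / (p.factorial : ℂ) *
    ((QQ μ v p k - ∑ i ∈ Finset.range d, w i * QQ μ v p i : ℝ) : ℂ))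
    (C * ‖v‖ ^ (2 * d + 1) + (CT k + ∑ i ∈ Finset.range d, |w i| * CT i)) ρ hρ0 ?_ p hp
  · have h1 : ((-Complex.I) ^ p / (p.factorial : ℂ)) ≠ 0 := by
      apply div_ne_zero
      · exact pow_ne_zero _ (neg_ne_zero.2 Complex.I_ne_zero)
      · exact_mod_cast (Nat.factorial_ne_zero p)
    have h2 := (mul_eq_zero.1 key).resolve_left h1
    have h3 : QQ μ v p k - ∑ i ∈ Finset.range d, w i * QQ μ v p i = 0 := by exact_mod_cast h2
    linarith
  · intro r hr hrρ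
    have hr1 : r ≤ 1 := hrρ.trans hρ1
    have hξ : ‖r • v‖ = r * ‖v‖ := by
      rw [norm_smul, Real.norm_eq_abs, abs_of_pos hr]
    have hξ1 : ‖r • v‖ ≤ 1 := by
      rw [hξ]
      calc r * ‖v‖ ≤ ρ * (1 + ‖v‖) := by
            apply mul_le_mul hrρ (by linarith) hv hρ0.le
        _ = 1 := by
            rw [hρ]
            field_simp
    have h1 := hC (r • v) hξ1
    rw [hξ] at h1
    -- decomposition
    have e : ∑ p ∈ Finset.range (2 * d + 1), ((-Complex.I) ^ p / (p.factorial : ℂ) *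
        ((QQ μ v p k - ∑ i ∈ Finset.range d, w i * QQ μ v p i : ℝ) : ℂ)) * (r : ℂ) ^ p =
        (DD μ (r • v) k - ∑ i ∈ Finset.range d, (w i : ℂ) * DD μ (r • v) i) -
        ((DD μ (r • v) k - ∑ p ∈ Finset.range (2 * d + 1), ((-Complex.I) ^ p / (p.factorial : ℂ) *
        ((QQ μ v p k : ℝ) : ℂ)) * (r : ℂ) ^ p) -
        ∑ i ∈ Finset.range d, (w i : ℂ) * (DD μ (r • v) i - ∑ p ∈ Finset.range (2 * d + 1),
          ((-Complex.I) ^ p / (p.factorial : ℂ) * ((QQ μ v p i : ℝ) : ℂ)) * (r : ℂ) ^ p)) := by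
      simp_rw [mul_sub (w _ : ℂ)]
      rw [Finset.sum_sub_distrib]
      simp_rw [Finset.mul_sum]
      rw [Finset.sum_comm (s := Finset.range d)]
      have e5 : ∀ p : ℕ, (-Complex.I) ^ p / (p.factorial : ℂ) *
        ((QQ μ v p k - ∑ i ∈ Finset.range d, w i * QQ μ v p i : ℝ) : ℂ) * (r : ℂ) ^ p =
        (-Complex.I) ^ p / (p.factorial : ℂ) * ((QQ μ v p k : ℝ) : ℂ) * (r : ℂ) ^ p -
        ∑ i ∈ Finset.range d, (w i : ℂ) * ((-Complex.I) ^ p / (p.factorial : ℂ) *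
          ((QQ μ v p i : ℝ) : ℂ) * (r : ℂ) ^ p) := by
        intro p
        push_cast
        rw [mul_sub, sub_mul, Finset.mul_sum, Finset.sum_mul]
        congr 1
        refine Finset.sum_congr rfl fun i _ => ?_
        ring
      simp_rw [e5]
      rw [Finset.sum_sub_distrib]
      ring
    rw [e]
    have h2 := hCT k r hr.le hr1
    have h3 : ‖∑ i ∈ Finset.range d, (w i : ℂ) * (DD μ (r • v) i -
        ∑ p ∈ Finset.range (2 * d + 1),
          ((-Complex.I) ^ p / (p.factorial : ℂ) * ((QQ μ v p i : ℝ) : ℂ)) * (r : ℂ) ^ p)‖ ≤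
        (∑ i ∈ Finset.range d, |w i| * CT i) * r ^ (2 * d + 1) := by
      refine (norm_sum_le _ _).trans ?_
      rw [Finset.sum_mul]
      refine Finset.sum_le_sum fun i _ => ?_
      rw [norm_mul, Complex.norm_real, Real.norm_eq_abs, mul_assoc]
      exact mul_le_mul_of_nonneg_left (hCT i r hr.le hr1) (abs_nonneg _)
    refine (norm_sub_le _ _).trans ?_
    have h4 := norm_sub_le (DD μ (r • v) k - ∑ p ∈ Finset.range (2 * d + 1),
      ((-Complex.I) ^ p / (p.factorial : ℂ) * ((QQ μ v p k : ℝ) : ℂ)) * (r : ℂ) ^ p)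
      (∑ i ∈ Finset.range d, (w i : ℂ) * (DD μ (r • v) i - ∑ p ∈ Finset.range (2 * d + 1),
          ((-Complex.I) ^ p / (p.factorial : ℂ) * ((QQ μ v p i : ℝ) : ℂ)) * (r : ℂ) ^ p))
    rw [mul_pow] at h1
    nlinarith [h1, h2, h3, h4]

/-- the moment condition. -/
def MomentCond (n : ℕ) (σ : ℕ → Measure (V n)) : Prop :=
  ∀ (v : V n) (l : ℕ), 1 ≤ l → ∃ P : ℝ[X], (P = 0 ∨ 2 * P.natDegree + 2 ≤ l) ∧
    P.eval 0 = (if l = 2 then 4 * ‖v‖ ^ 2 else 0) ∧
    ∀ k : ℕ, 1 ≤ k → ∫ x, (inner ℝ x v : ℝ) ^ l ∂(σ k) = P.eval ((k : ℝ) ^ 2)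

theorem ext_moment {μ : Measure (V n)} {ψ : V n → ℂ} (hn : 0 < n) (h : Ext n μ ψ) :
    MomentCond n (part μ) := by
  intro v l hl
  have := h.fin
  have hsys := ext_sys hn h
  obtain ⟨P, hP⟩ := poly_of_weights l (QQ μ v l) (fun k w hw =>
    QQ_weights hn h v l k w hw l (by omega))
  have hk : ∀ k : ℕ, 1 ≤ k → ∫ x, (inner ℝ x v : ℝ) ^ l ∂(part μ k) =
      (P + P0 v l).eval ((k : ℝ) ^ 2) := by
    intro k hk
    rw [Polynomial.eval_add, ← hP k, ← P0_spec v l hl k (by omega)]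
    unfold QQ
    ring
  refine ⟨P + P0 v l, ?_, ?_, hk⟩
  · refine natDegree_bound _ (4 * n / Real.pi ^ 2 * (Real.pi * ‖v‖) ^ l) l ?_
    intro k hk1
    rw [← hk k hk1]
    have hk0 : (0 : ℝ) < k := by exact_mod_cast hk1
    have f1 := hsys.fin k
    have h1 : ‖∫ x, (inner ℝ x v : ℝ) ^ l ∂(part μ k)‖ ≤
        (Real.pi * k * ‖v‖) ^ l * (part μ k).real univ := by
      apply norm_integral_le_of_norm_le_const
      filter_upwards [hsys.ae k] with x hx
      rw [norm_pow]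
      apply pow_le_pow_left₀ (norm_nonneg _)
      rw [← hx]
      exact norm_inner_le_norm x v
    rw [ext_mass hn h k] at h1
    unfold mm at h1
    rw [if_neg (by omega), Real.norm_eq_abs] at h1
    calc _ ≤ ((Real.pi * k * ‖v‖) ^ l * (4 * n / (Real.pi ^ 2 * k ^ 2))) * (k : ℝ) ^ 2 :=
          mul_le_mul_of_nonneg_right h1 (by positivity)
      _ = 4 * n / Real.pi ^ 2 * (Real.pi * ‖v‖) ^ l * (k : ℝ) ^ l := by
          have : Real.pi ≠ 0 := Real.pi_ne_zero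
          rw [mul_pow, mul_pow, mul_pow]
          field_simp
  · rw [Polynomial.eval_add, P0_zero v l hl]
    have : P.eval 0 = 0 := by
      have h1 := hP 0
      have h2 : QQ μ v l 0 = 0 := by
        unfold QQ
        rw [integral_zero_part hsys, integral_zero_part (sg0_sys n), sub_self]
      rw [h2] at h1
      simpa using h1.symm
    rw [this, zero_add]

end Pool.Agent.Helper3K9.EM
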