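import Mathlib
import Pool.Agent.Helper3K9.EM.Defs

/-!
# The derivative of `gg`
-/

set_option autoImplicit false

open MeasureTheory Set
open scoped Polynomial

namespace Pool.Agent.Helper3K9.EM

theorem hasDerivAt_gg (N : ℕ) (r : ℝ) :
    HasDerivAt (gg N) (-(r / (2 * ((N : ℝ) + 1))) * gg (N + 1) r) r := by
  have hN : (2 * ((N : ℝ) + 1)) ≠ 0 := by positivity
  -- derivative under the integral
  have h1 : HasDerivAt (gg N)
      (∫ t in (-1 : ℝ)..1, -(t * Real.sin (r * t)) * (1 - t ^ 2) ^ N) r := by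
    have hb : Continuous (fun t : ℝ => |t * (1 - t ^ 2) ^ N|) := by fun_prop
    refine (intervalIntegral.hasDerivAt_integral_of_dominated_loc_of_deriv_le
      (F := fun (r t : ℝ) => Real.cos (r * t) * (1 - t ^ 2) ^ N)
      (F' := fun (r t : ℝ) => -(t * Real.sin (r * t)) * (1 - t ^ 2) ^ N)
      (bound := fun t : ℝ => |t * (1 - t ^ 2) ^ N|) (s := univ) Filter.univ_mem ?_ ?_ ?_ ?_ ?_
      ?_).2
    · exact Filter.Eventually.of_forall fun x => (by fun_prop : Continuous fun t : ℝ =>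
        Real.cos (x * t) * (1 - t ^ 2) ^ N).aestronglyMeasurable
    · exact (by fun_prop : Continuous fun t : ℝ =>
        Real.cos (r * t) * (1 - t ^ 2) ^ N).intervalIntegrable _ _
    · exact (by fun_prop : Continuous fun t : ℝ =>
        -(t * Real.sin (r * t)) * (1 - t ^ 2) ^ N).aestronglyMeasurable
    · refine Filter.Eventually.of_forall fun t _ x _ => ?_
      have h2 : -(t * Real.sin (x * t)) * (1 - t ^ 2) ^ N =
          -(Real.sin (x * t) * (t * (1 - t ^ 2) ^ N)) := by ring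
      rw [h2, norm_neg, norm_mul, Real.norm_eq_abs, Real.norm_eq_abs]
      exact mul_le_of_le_one_left (abs_nonneg _) (Real.abs_sin_le_one _)
    · exact hb.intervalIntegrable _ _
    · refine Filter.Eventually.of_forall fun t _ x _ => ?_
      have h2 := ((hasDerivAt_id' x).mul_const t).cos
      have h3 := h2.mul_const ((1 - t ^ 2) ^ N)
      refine h3.congr_deriv ?_
      ring
  refine h1.congr_deriv ?_
  -- integration by parts
  have hu : ∀ t ∈ uIcc (-1 : ℝ) 1, HasDerivAt (fun t => Real.sin (r * t)) (r * Real.cos (r * t)) t := by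
    intro t _
    have := ((hasDerivAt_id' t).const_mul r).sin
    refine this.congr_deriv ?_
    ring
  have hv : ∀ t ∈ uIcc (-1 : ℝ) 1, HasDerivAt
      (fun t => (1 - t ^ 2) ^ (N + 1) / (2 * ((N : ℝ) + 1))) (-(t * (1 - t ^ 2) ^ N)) t := by
    intro t _
    have h2 : HasDerivAt (fun t : ℝ => 1 - t ^ 2) (-(2 * t)) t := by
      have := (hasDerivAt_pow 2 t).const_sub 1
      refine this.congr_deriv ?_
      simp
    have h3 := (h2.fun_pow (N + 1)).div_const (2 * ((N : ℝ) + 1))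
    refine h3.congr_deriv ?_
    simp only [Nat.add_sub_cancel]
    push_cast
    field_simp
  have h4 := intervalIntegral.integral_mul_deriv_eq_deriv_mul hu hv
    ((by fun_prop : Continuous fun t : ℝ => r * Real.cos (r * t)).intervalIntegrable _ _)
    ((by fun_prop : Continuous fun t : ℝ => -(t * (1 - t ^ 2) ^ N)).intervalIntegrable _ _)
  have h5 : ∫ t in (-1 : ℝ)..1, -(t * Real.sin (r * t)) * (1 - t ^ 2) ^ N =
      ∫ t in (-1 : ℝ)..1, Real.sin (r * t) * -(t * (1 - t ^ 2) ^ N) :=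
    intervalIntegral.integral_congr fun t _ => by ring
  rw [h5, h4, gg, ← intervalIntegral.integral_const_mul]
  have h6 : ∀ t : ℝ, t ^ 2 = 1 → (1 - t ^ 2) ^ (N + 1) / (2 * ((N : ℝ) + 1)) = 0 := by
    intro t ht
    rw [ht, sub_self, zero_pow (by omega), zero_div]
  rw [h6 1 (by norm_num), h6 (-1) (by norm_num), mul_zero, mul_zero, sub_zero, zero_sub,
    ← intervalIntegral.integral_neg]
  refine intervalIntegral.integral_congr fun t _ => ?_
  field_simp

theorem hasDerivAt_gg_norm {n : ℕ} (N : ℕ) (x v : V n) (hx : x ≠ 0) :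
    HasDerivAt (fun ε : ℝ => gg N ‖x + ε • v‖)
      (-(inner ℝ x v / (2 * ((N : ℝ) + 1))) * gg (N + 1) ‖x‖) 0 := by
  have hN : (2 * ((N : ℝ) + 1)) ≠ 0 := by positivity
  have hx0 : ‖x‖ ≠ 0 := norm_ne_zero_iff.2 hx
  have h1 : HasDerivAt (fun ε : ℝ => x + ε • v) v 0 := by
    have := ((hasDerivAt_id' (0 : ℝ)).smul_const v).const_add x
    simpa using this
  have h2 : HasDerivAt (fun ε : ℝ => ‖x + ε • v‖) (inner ℝ x v / ‖x‖) 0 := by
    have h3 := h1.norm_sq
    have h4 : ‖x + (0 : ℝ) • v‖ ^ 2 ≠ 0 := by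
      rw [zero_smul, add_zero]; exact pow_ne_zero 2 hx0
    have h5 := h3.sqrt h4
    have h6 : (fun ε : ℝ => Real.sqrt (‖x + ε • v‖ ^ 2)) = fun ε : ℝ => ‖x + ε • v‖ := by
      funext ε
      exact Real.sqrt_sq (norm_nonneg _)
    rw [h6] at h5
    refine h5.congr_deriv ?_
    rw [zero_smul, add_zero, Real.sqrt_sq (norm_nonneg _)]
    field_simp
  have h3 : HasDerivAt (gg N) (-(‖x‖ / (2 * ((N : ℝ) + 1))) * gg (N + 1) ‖x‖)
      ‖x + (0 : ℝ) • v‖ := by
    rw [zero_smul, add_zero]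
    exact hasDerivAt_gg N ‖x‖
  have h4 := h3.comp (0 : ℝ) h2
  refine h4.congr_deriv ?_
  field_simp

end Pool.Agent.Helper3K9.EM
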