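import Mathlib
import Pool.Agent.Helper3K9.EM.Defs

/-!
# The structure of the directional derivatives of the Fourier transform of the weight
-/

open MeasureTheory Set
open scoped Polynomial

namespace Pool.Agent.Helper3K9.EM

variable {n : ℕ}

theorem wt_continuous {a : ℝ} (ha : 0 < a) (s : ℝ) : Continuous (fun η : V n => wt a s η) := by
  unfold wt
  refine Continuous.rpow_const (by fun_prop) (fun x => Or.inr ha.le)

theorem wt_eq_zero {a : ℝ} (ha : 0 < a) {s : ℝ} (hs : 0 ≤ s) {η : V n} (h : s ≤ ‖η‖) :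
    wt a s η = 0 := by
  unfold wt
  have h1 : s ^ 2 ≤ ‖η‖ ^ 2 := pow_le_pow_left₀ hs h 2
  rw [max_eq_right (by linarith), Real.zero_rpow ha.ne']

theorem wt_nonneg (a s : ℝ) (η : V n) : 0 ≤ wt a s η := by
  unfold wt
  exact Real.rpow_nonneg (le_max_right _ _) _

theorem wt_compact {a : ℝ} (ha : 0 < a) {s : ℝ} (hs : 0 ≤ s) :
    HasCompactSupport (fun η : V n => wt a s η) := by
  refine HasCompactSupport.intro (isCompact_closedBall (0 : V n) s) (fun x hx => ?_)
  rw [Metric.mem_closedBall, dist_zero_right, not_le] at hx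
  exact wt_eq_zero ha hs hx.le

theorem T_deriv {a : ℝ} (ha : 0 < a) (v : V n) (m : ℕ) (x : V n) :
    HasDerivAt (fun ε : ℝ => ∫ ξ : V n, ((inner ℝ v ξ : ℝ) : ℂ) ^ m *
        (Complex.exp (-((inner ℝ (x + ε • v) ξ : ℝ) : ℂ) * Complex.I) * (wt a 1 ξ : ℂ)))
      (-Complex.I * ∫ ξ : V n, ((inner ℝ v ξ : ℝ) : ℂ) ^ (m + 1) *
        (Complex.exp (-((inner ℝ x ξ : ℝ) : ℂ) * Complex.I) * (wt a 1 ξ : ℂ))) 0 := by
  have hw := wt_continuous (n := n) ha 1
  have hwc := wt_compact (n := n) ha (s := 1) zero_le_one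
  have hcs : ∀ (g : V n → ℂ), Continuous g → Integrable (fun ξ : V n => g ξ * (wt a 1 ξ : ℂ)) := by
    intro g hg
    refine Continuous.integrable_of_hasCompactSupport (by fun_prop) ?_
    refine HasCompactSupport.intro (isCompact_closedBall (0 : V n) 1) (fun x hx => ?_)
    rw [Metric.mem_closedBall, dist_zero_right, not_le] at hx
    rw [wt_eq_zero ha zero_le_one hx.le, Complex.ofReal_zero, mul_zero]
  have key := hasDerivAt_integral_of_dominated_loc_of_deriv_le
    (μ := (volume : Measure (V n)))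
    (F := fun (ε : ℝ) (ξ : V n) => ((inner ℝ v ξ : ℝ) : ℂ) ^ m *
        (Complex.exp (-((inner ℝ (x + ε • v) ξ : ℝ) : ℂ) * Complex.I) * (wt a 1 ξ : ℂ)))
    (F' := fun (ε : ℝ) (ξ : V n) => -Complex.I * (((inner ℝ v ξ : ℝ) : ℂ) ^ (m + 1) *
        (Complex.exp (-((inner ℝ (x + ε • v) ξ : ℝ) : ℂ) * Complex.I) * (wt a 1 ξ : ℂ))))
    (x₀ := 0) (s := Set.univ) (bound := fun ξ => |inner ℝ v ξ| ^ (m + 1) * wt a 1 ξ)
    Filter.univ_mem ?_ ?_ ?_ ?_ ?_ ?_
  · have h2 := key.2
    simp only [zero_smul, add_zero] at h2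
    rw [integral_const_mul] at h2
    exact h2
  · refine Filter.Eventually.of_forall fun ε => ?_
    refine Continuous.aestronglyMeasurable ?_
    fun_prop
  · have := hcs (fun ξ => ((inner ℝ v ξ : ℝ) : ℂ) ^ m *
        Complex.exp (-((inner ℝ (x + (0 : ℝ) • v) ξ : ℝ) : ℂ) * Complex.I)) (by fun_prop)
    refine this.congr (Filter.Eventually.of_forall fun ξ => ?_)
    simp only
    ring
  · refine Continuous.aestronglyMeasurable ?_
    fun_prop
  · refine Filter.Eventually.of_forall fun ξ ε _ => ?_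
    rw [norm_mul, norm_mul, norm_mul, norm_neg, Complex.norm_I, one_mul, norm_pow,
      Complex.norm_real, Complex.norm_real, Real.norm_eq_abs, Real.norm_eq_abs,
      abs_of_nonneg (wt_nonneg a 1 ξ), ← Complex.ofReal_neg, Complex.norm_exp_ofReal_mul_I,
      one_mul]
  · have h1 : Continuous (fun ξ : V n => |inner ℝ v ξ| ^ (m + 1) * wt a 1 ξ) := by fun_prop
    refine h1.integrable_of_hasCompactSupport ?_
    exact hwc.mul_left
  · refine Filter.Eventually.of_forall fun ξ ε _ => ?_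
    have h1 : HasDerivAt (fun ε : ℝ => -((inner ℝ (x + ε • v) ξ : ℝ) : ℂ) * Complex.I)
        (-((inner ℝ v ξ : ℝ) : ℂ) * Complex.I) ε := by
      have h0 : HasDerivAt (fun ε : ℝ => (inner ℝ (x + ε • v) ξ : ℝ)) (inner ℝ v ξ : ℝ) ε := by
        have : (fun ε : ℝ => (inner ℝ (x + ε • v) ξ : ℝ)) =
            fun ε : ℝ => (inner ℝ x ξ : ℝ) + ε * (inner ℝ v ξ : ℝ) := by
          funext ε
          rw [inner_add_left, real_inner_smul_left]
        rw [this]
        simpa using ((hasDerivAt_id ε).mul_const (inner ℝ v ξ : ℝ)).const_add (inner ℝ x ξ : ℝ)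
      exact (h0.ofReal_comp.neg).mul_const Complex.I
    have h2 := (h1.cexp.mul_const ((wt a 1 ξ : ℝ) : ℂ)).const_mul (((inner ℝ v ξ : ℝ) : ℂ) ^ m)
    refine h2.congr_deriv ?_
    ring

theorem sum_split (m : ℕ) (A B : ℕ → ℂ) :
    ∑ j ∈ Finset.range (m + 1 + 1), ((if j ≤ m then A j else 0) + (if j = 0 then 0 else B j)) =
      ∑ j ∈ Finset.range (m + 1), (A j + B (j + 1)) := by
  rw [Finset.sum_add_distrib, Finset.sum_add_distrib]
  congr 1
  · rw [Finset.sum_range_succ, if_neg (by omega), add_zero]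
    refine Finset.sum_congr rfl fun j hj => ?_
    rw [Finset.mem_range] at hj
    rw [if_pos (by omega)]
  · rw [Finset.sum_range_succ']
    simp

/-- `[T]`, with `[N0]` (at `s = 1`) and `[G]` as hypotheses. -/
theorem T_struct_of (hG : ∀ {n : ℕ} (N : ℕ) (x v : V n), x ≠ 0 →
      HasDerivAt (fun ε : ℝ => gg N ‖x + ε • v‖)
        (-(inner ℝ x v / (2 * ((N : ℝ) + 1))) * gg (N + 1) ‖x‖) 0)
    (hN : ∀ {n : ℕ} (_ : 0 < n) (b : ℕ) (a : ℝ) (_ : 0 < a)
      (_ : a + ((n : ℝ) - 1) / 2 = b), ∃ C : ℝ, 0 < C ∧ ∀ s : ℝ, 0 < s → ∀ x : V n,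
        ∫ η : V n, Complex.exp (-((inner ℝ x η : ℝ) : ℂ) * Complex.I) * (wt a s η : ℂ) =
          ((C * ∫ u in (-s)..s, Real.cos (‖x‖ * u) * (s ^ 2 - u ^ 2) ^ b : ℝ) : ℂ))
    {n : ℕ} (hn : 0 < n) (b : ℕ) (a : ℝ) (ha : 0 < a)
    (hab : a + ((n : ℝ) - 1) / 2 = b) (v : V n) (m : ℕ) :
    ∃ π : ℕ → ℂ[X], (∀ j, (π j).natDegree ≤ j) ∧ ∀ x : V n, x ≠ 0 →
      ∫ ξ : V n, ((inner ℝ v ξ : ℝ) : ℂ) ^ m *
        (Complex.exp (-((inner ℝ x ξ : ℝ) : ℂ) * Complex.I) * (wt a 1 ξ : ℂ)) =
      ∑ j ∈ Finset.range (m + 1), (π j).eval ((inner ℝ x v : ℝ) : ℂ) * (gg (b + j) ‖x‖ : ℂ) := by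
  induction m with
  | zero =>
    obtain ⟨C, -, hC⟩ := hN hn b a ha hab
    refine ⟨fun j => if j = 0 then Polynomial.C (C : ℂ) else 0, fun j => ?_, fun x hx => ?_⟩
    · dsimp only
      split_ifs with h
      · simp
      · simp
    · have h := hC 1 one_pos x
      simp only [pow_zero, one_mul, zero_add, Finset.range_one, Finset.sum_singleton, add_zero,
        if_true, Polynomial.eval_C]
      rw [h]
      unfold gg
      push_cast
      simp only [one_pow]
  | succ m ih =>
    obtain ⟨π, hπ, hπ2⟩ := ih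
    refine ⟨fun j => Polynomial.C Complex.I *
      ((if j ≤ m then Polynomial.C (((inner ℝ v v : ℝ) : ℂ)) * Polynomial.derivative (π j) else 0) -
        (if j = 0 then 0 else Polynomial.C ((1 / (2 * ((b : ℂ) + j)))) *
          (Polynomial.X * π (j - 1)))), fun j => ?_, fun x hx => ?_⟩
    · dsimp only
      refine (Polynomial.natDegree_C_mul_le _ _).trans ?_
      refine (Polynomial.natDegree_sub_le _ _).trans (max_le ?_ ?_)
      · split_ifs
        · refine (Polynomial.natDegree_C_mul_le _ _).trans ?_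
          refine (Polynomial.natDegree_derivative_le _).trans ?_
          have := hπ j
          omega
        · simp
      · split_ifs with h
        · simp
        · refine (Polynomial.natDegree_C_mul_le _ _).trans ?_
          refine Polynomial.natDegree_mul_le.trans ?_
          have h1 := hπ (j - 1)
          have h2 : (Polynomial.X : ℂ[X]).natDegree ≤ 1 := Polynomial.natDegree_X_le
          omega
    · have d1 := T_deriv ha v m x
      -- the other side
      have d2 : HasDerivAt (fun ε : ℝ => ∑ j ∈ Finset.range (m + 1),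
          (π j).eval ((inner ℝ (x + ε • v) v : ℝ) : ℂ) * ((gg (b + j) ‖x + ε • v‖ : ℝ) : ℂ))
          (∑ j ∈ Finset.range (m + 1),
            ((((inner ℝ v v : ℝ) : ℂ) * (Polynomial.derivative (π j)).eval
                ((inner ℝ x v : ℝ) : ℂ)) * ((gg (b + j) ‖x‖ : ℝ) : ℂ) +
              (π j).eval ((inner ℝ x v : ℝ) : ℂ) *
                ((-(inner ℝ x v / (2 * (((b + j : ℕ) : ℝ) + 1))) * gg (b + j + 1) ‖x‖ : ℝ) : ℂ)))
          0 := by
        refine HasDerivAt.fun_sum fun j _ => ?_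
        have e1 : HasDerivAt (fun ε : ℝ => ((inner ℝ (x + ε • v) v : ℝ) : ℂ))
            ((inner ℝ v v : ℝ) : ℂ) 0 := by
          have h0 : HasDerivAt (fun ε : ℝ => (inner ℝ (x + ε • v) v : ℝ))
              (inner ℝ v v : ℝ) 0 := by
            have : (fun ε : ℝ => (inner ℝ (x + ε • v) v : ℝ)) =
                fun ε : ℝ => (inner ℝ x v : ℝ) + ε * (inner ℝ v v : ℝ) := by
              funext ε
              rw [inner_add_left, real_inner_smul_left]
            rw [this]
            simpa using ((hasDerivAt_id (0 : ℝ)).mul_const (inner ℝ v v : ℝ)).const_add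
              (inner ℝ x v : ℝ)
          exact h0.ofReal_comp
        have e2 : HasDerivAt (fun ε : ℝ => (π j).eval ((inner ℝ (x + ε • v) v : ℝ) : ℂ))
            (((inner ℝ v v : ℝ) : ℂ) * (Polynomial.derivative (π j)).eval
                ((inner ℝ x v : ℝ) : ℂ)) 0 := by
          have h := HasDerivAt.scomp (h := fun ε : ℝ => ((inner ℝ (x + ε • v) v : ℝ) : ℂ)) (0 : ℝ)
            (Polynomial.hasDerivAt (π j) ((inner ℝ (x + (0 : ℝ) • v) v : ℝ) : ℂ)) e1
          simp only [zero_smul, add_zero, smul_eq_mul] at h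
          exact h
        have e3 := (hG (b + j) x v hx).ofReal_comp
        refine (e2.fun_mul e3).congr_deriv ?_
        simp only [zero_smul, add_zero]
      have heq : (fun ε : ℝ => ∫ ξ : V n, ((inner ℝ v ξ : ℝ) : ℂ) ^ m *
          (Complex.exp (-((inner ℝ (x + ε • v) ξ : ℝ) : ℂ) * Complex.I) * (wt a 1 ξ : ℂ)))
          =ᶠ[nhds 0] fun ε : ℝ => ∑ j ∈ Finset.range (m + 1),
          (π j).eval ((inner ℝ (x + ε • v) v : ℝ) : ℂ) * ((gg (b + j) ‖x + ε • v‖ : ℝ) : ℂ) := by
        have hcont : ContinuousAt (fun ε : ℝ => x + ε • v) 0 := by fun_prop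
        have h0 : (fun ε : ℝ => x + ε • v) 0 ≠ 0 := by simpa using hx
        filter_upwards [hcont.eventually_ne h0] with ε hε
        exact hπ2 (x + ε • v) hε
      have huniq := d1.unique (d2.congr_of_eventuallyEq heq)
      have hI : ∀ z w : ℂ, -Complex.I * z = w → z = Complex.I * w := by
        intro z w h
        rw [← h, ← mul_assoc, mul_neg, Complex.I_mul_I, neg_neg, one_mul]
      rw [hI _ _ huniq, Finset.mul_sum]
      simp only [Polynomial.eval_mul, Polynomial.eval_C, Polynomial.eval_sub]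
      have hsplit : ∀ j, Complex.I * (Polynomial.eval ((inner ℝ x v : ℝ) : ℂ)
          (if j ≤ m then Polynomial.C (((inner ℝ v v : ℝ) : ℂ)) * Polynomial.derivative (π j)
            else 0) - Polynomial.eval ((inner ℝ x v : ℝ) : ℂ)
          (if j = 0 then 0 else Polynomial.C ((1 / (2 * ((b : ℂ) + j)))) *
            (Polynomial.X * π (j - 1)))) * ((gg (b + j) ‖x‖ : ℝ) : ℂ) =
          (if j ≤ m then Complex.I * (((inner ℝ v v : ℝ) : ℂ) *
            (Polynomial.derivative (π j)).eval ((inner ℝ x v : ℝ) : ℂ)) *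
              ((gg (b + j) ‖x‖ : ℝ) : ℂ) else 0) +
          (if j = 0 then 0 else -(Complex.I * ((1 / (2 * ((b : ℂ) + j))) *
            (((inner ℝ x v : ℝ) : ℂ) * (π (j - 1)).eval ((inner ℝ x v : ℝ) : ℂ))) *
              ((gg (b + j) ‖x‖ : ℝ) : ℂ))) := by
        intro j
        split_ifs <;> simp <;> ring
      rw [Finset.sum_congr rfl fun j _ => hsplit j, sum_split]
      refine Finset.sum_congr rfl fun j hj => ?_
      rw [show b + j + 1 = b + (j + 1) by ring, Nat.add_sub_cancel]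
      have h1 : (2 * ((b : ℂ) + j + 1)) ≠ 0 := by
        have : ((b : ℂ) + j + 1) = ((b + j + 1 : ℕ) : ℂ) := by push_cast; ring
        rw [this]
        exact mul_ne_zero two_ne_zero (Nat.cast_ne_zero.2 (by omega))
      have h2 : (2 * ((b : ℂ) + (j + 1))) ≠ 0 := by rw [← add_assoc]; exact h1
      push_cast
      field_simp
      ring

end Pool.Agent.Helper3K9.EM
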