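import Mathlib
import Pool.Agent.Helper3K9.EM.Tst
import Pool.Agent.Helper3K9.EM.Gd
import Pool.Agent.Helper3K9.EM.Ball

/-!
# The structure of the test integrals (leaves combined)
-/

open MeasureTheory Set
open scoped Polynomial

namespace Pool.Agent.Helper3K9.EM

theorem T_struct {n : ℕ} (hn : 0 < n) (b : ℕ) (a : ℝ) (ha : 0 < a)
    (hab : a + ((n : ℝ) - 1) / 2 = b) (v : V n) (m : ℕ) :
    ∃ π : ℕ → ℂ[X], (∀ j, (π j).natDegree ≤ j) ∧ ∀ x : V n, x ≠ 0 →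
      ∫ ξ : V n, ((inner ℝ v ξ : ℝ) : ℂ) ^ m *
          (Complex.exp (-((inner ℝ x ξ : ℝ) : ℂ) * Complex.I) * (wt a 1 ξ : ℂ))
        = ∑ j ∈ Finset.range (m + 1), (π j).eval ((inner ℝ x v : ℝ) : ℂ) * (gg (b + j) ‖x‖ : ℂ) :=
  T_struct_of (fun N x v hx => hasDerivAt_gg_norm N x v hx)
    (fun hn b a ha hab => ball_fourier hn b a ha hab) hn b a ha hab v m

end Pool.Agent.Helper3K9.EM
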