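import Mathlib
import Pool.Agent.Helper3K9.EM.Nec2
import Pool.Agent.Helper3K9.EM.Tst2

/-!
# Sufficiency
-/

open MeasureTheory Set
open scoped Polynomial

namespace Pool.Agent.Helper3K9.EM

variable {n : ℕ}

theorem hasSum_poly (N : ℕ) (R : ℝ[X]) (h0 : R.eval 0 = 0)
    (hd : R = 0 ∨ 2 * R.natDegree + 2 ≤ N) :
    HasSum (fun k : ℕ => (-1 : ℝ) ^ (k + 1) * R.eval ((((k : ℝ) + 1)) ^ 2) *
      gg N (Real.pi * ((k : ℝ) + 1))) 0 := by
  rcases hd with hd | hd
  · subst hd
    simp only [Polynomial.eval_zero, mul_zero, zero_mul]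
    exact hasSum_zero
  · have h1 : ∀ i ∈ Finset.range (R.natDegree + 1), HasSum (fun k : ℕ => R.coeff i *
        ((-1 : ℝ) ^ (k + 1) * ((k : ℝ) + 1) ^ (2 * i) * gg N (Real.pi * ((k : ℝ) + 1)))) 0 := by
      intro i hi
      rw [Finset.mem_range] at hi
      by_cases hi0 : i = 0
      · subst hi0
        rw [Polynomial.coeff_zero_eq_eval_zero, h0]
        simp only [zero_mul]
        exact hasSum_zero
      · have := (hasSum_gg N i (by omega) (by omega)).mul_left (R.coeff i)
        rwa [mul_zero] at this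
    have h2 := hasSum_sum h1
    rw [Finset.sum_const_zero] at h2
    convert h2 using 1
    funext k
    rw [Polynomial.eval_eq_sum_range, Finset.mul_sum, Finset.sum_mul]
    refine Finset.sum_congr rfl fun i _ => ?_
    rw [pow_mul ((k : ℝ) + 1) 2 i]
    ring

/-- the test integral. -/
noncomputable def TT (a : ℝ) (v : V n) (m : ℕ) (x : V n) : ℂ :=
  ∫ ξ : V n, ((inner ℝ v ξ : ℝ) : ℂ) ^ m *
          (Complex.exp (-((inner ℝ x ξ : ℝ) : ℂ) * Complex.I) * (wt a 1 ξ : ℂ))

theorem integrable_pw {a : ℝ} (ha : 0 < a) (v : V n) (m : ℕ) :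
    Integrable (fun ξ : V n => |inner ℝ v ξ| ^ m * wt a 1 ξ) := by
  have hc := continuous_wt (n := n) ha 1
  refine Continuous.integrable_of_hasCompactSupport (by fun_prop) ?_
  exact (hasCompactSupport_wt ha zero_le_one).mul_left

theorem TT_bd {a : ℝ} (v : V n) (m : ℕ) (x ξ : V n) :
    ‖((inner ℝ v ξ : ℝ) : ℂ) ^ m *
      (Complex.exp (-((inner ℝ x ξ : ℝ) : ℂ) * Complex.I) * (wt a 1 ξ : ℂ))‖ ≤
      |inner ℝ v ξ| ^ m * wt a 1 ξ := by
  have h1 := norm_ee x ξ
  unfold ee at h1
  rw [norm_mul, norm_mul, h1, one_mul, norm_pow, Complex.norm_real, Complex.norm_real,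
    Real.norm_eq_abs, Real.norm_eq_abs, abs_of_nonneg (wt_nn a 1 ξ)]

theorem TT_continuous {a : ℝ} (ha : 0 < a) (v : V n) (m : ℕ) : Continuous (TT a v m) := by
  unfold TT
  refine continuous_of_dominated (bound := fun ξ : V n => |inner ℝ v ξ| ^ m * wt a 1 ξ) ?_ ?_ ?_ ?_
  · intro x
    have hc := continuous_wt (n := n) ha 1
    exact (by fun_prop : Continuous fun ξ : V n => ((inner ℝ v ξ : ℝ) : ℂ) ^ m *
          (Complex.exp (-((inner ℝ x ξ : ℝ) : ℂ) * Complex.I) * (wt a 1 ξ : ℂ))).aestronglyMeasurable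
  · intro x
    exact Filter.Eventually.of_forall fun ξ => TT_bd v m x ξ
  · exact integrable_pw ha v m
  · refine Filter.Eventually.of_forall fun ξ => ?_
    fun_prop

theorem TT_norm_le {a : ℝ} (ha : 0 < a) (v : V n) (m : ℕ) (x : V n) :
    ‖TT a v m x‖ ≤ ∫ ξ : V n, |inner ℝ v ξ| ^ m * wt a 1 ξ := by
  unfold TT
  exact norm_integral_le_of_norm_le (integrable_pw ha v m)
    (Filter.Eventually.of_forall fun ξ => TT_bd v m x ξ)

theorem test_eq (μ : Measure (V n)) [IsFiniteMeasure μ] {a : ℝ} (ha : 0 < a) (v : V n) (m : ℕ) :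
    ∫ ξ : V n, ((inner ℝ v ξ : ℝ) : ℂ) ^ m * (WW μ ξ 1 * (wt a 1 ξ : ℂ)) =
      ∫ x, (Real.cos ‖x‖ : ℂ) * TT a v m x ∂μ := by
  have e1 : ∫ ξ : V n, ((inner ℝ v ξ : ℝ) : ℂ) ^ m * (WW μ ξ 1 * (wt a 1 ξ : ℂ)) =
      ∫ ξ : V n, ∫ x, (Real.cos ‖x‖ : ℂ) * (((inner ℝ v ξ : ℝ) : ℂ) ^ m *
          (Complex.exp (-((inner ℝ x ξ : ℝ) : ℂ) * Complex.I) * (wt a 1 ξ : ℂ))) ∂μ := by
    congr 1
    funext ξ
    unfold WW
    rw [← integral_mul_const, ← integral_const_mul]
    congr 1
    funext x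
    unfold ee
    rw [one_mul]
    ring
  rw [e1, integral_integral_swap]
  · congr 1
    funext x
    rw [integral_const_mul]
    rfl
  · have hw2 : Integrable (fun p : V n × V n => |inner ℝ v p.1| ^ m * wt a 1 p.1)
      (volume.prod μ) := (integrable_pw ha v m).comp_fst μ
    refine hw2.mono' ?_ ?_
    · have hc := continuous_wt (n := n) ha 1
      have hc1 : Continuous fun p : V n × V n => wt a 1 p.1 := hc.comp continuous_fst
      refine Continuous.aestronglyMeasurable ?_
      simp only [Function.uncurry_def]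
      fun_prop
    · refine Filter.Eventually.of_forall fun p => ?_
      simp only [Function.uncurry]
      rw [norm_mul]
      calc _ ≤ 1 * (|inner ℝ v p.1| ^ m * wt a 1 p.1) := by
            refine mul_le_mul ?_ (TT_bd v m p.2 p.1) (norm_nonneg _) zero_le_one
            rw [Complex.norm_real, Real.norm_eq_abs]
            exact Real.abs_cos_le_one _
        _ = _ := one_mul _

theorem integral_poly_inner (μ : Measure (V n)) [IsFiniteMeasure μ] (R : ℝ)
    (hR : ∀ᵐ x ∂μ, ‖x‖ ≤ R) (v : V n) (q : ℂ[X]) (j : ℕ) (hq : q.natDegree ≤ j) :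
    ∫ x, q.eval ((inner ℝ x v : ℝ) : ℂ) ∂μ =
      ∑ p ∈ Finset.range (j + 1), q.coeff p * ((∫ x, (inner ℝ x v : ℝ) ^ p ∂μ : ℝ) : ℂ) := by
  have h1 : ∀ x : V n, q.eval ((inner ℝ x v : ℝ) : ℂ) =
      ∑ p ∈ Finset.range (j + 1), q.coeff p * (((inner ℝ x v : ℝ) ^ p : ℝ) : ℂ) := by
    intro x
    rw [Polynomial.eval_eq_sum_range' (n := j + 1) (by omega)]
    refine Finset.sum_congr rfl fun p _ => ?_
    push_cast
    rfl
  simp_rw [h1]
  rw [integral_finsetSum]
  · refine Finset.sum_congr rfl fun p _ => ?_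
    rw [integral_const_mul, integral_complex_ofReal]
  · intro p _
    refine Integrable.const_mul ?_ _
    refine Integrable.of_bound (C := (R * ‖v‖) ^ p) ?_ ?_
    · exact (by fun_prop : Continuous fun x : V n =>
        (((inner ℝ x v : ℝ) ^ p : ℝ) : ℂ)).aestronglyMeasurable
    · filter_upwards [hR] with x hx
      rw [Complex.norm_real, norm_pow]
      apply pow_le_pow_left₀ (norm_nonneg _)
      exact (norm_inner_le_norm x v).trans (mul_le_mul_of_nonneg_right hx (norm_nonneg _))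

/-- the difference of the test integrals on the sphere number `k + 1`. -/
theorem test_diff {σ : ℕ → Measure (V n)} (h : Sys n σ) (hM : MomentCond n σ) {a : ℝ} {b : ℕ}
    (v : V n) (m : ℕ) (q : ℕ → ℂ[X]) (hq : ∀ j, (q j).natDegree ≤ j)
    (hT : ∀ x : V n, x ≠ 0 → TT a v m x =
      ∑ j ∈ Finset.range (m + 1), (q j).eval ((inner ℝ x v : ℝ) : ℂ) * (gg (b + j) ‖x‖ : ℂ)) :
    HasSum (fun k : ℕ => (((-1 : ℝ) ^ (k + 1) : ℝ) : ℂ) *
      (∫ x, TT a v m x ∂(σ (k + 1)) - ∫ x, TT a v m x ∂(sg0 n (k + 1)))) 0 := by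
  choose P hP1 hP2 hP3 using fun l hl => hM v l hl
  -- the difference polynomials
  have hR : ∀ p : ℕ, ∃ R : ℝ[X], (R = 0 ∨ 2 * R.natDegree + 2 ≤ p) ∧ R.eval 0 = 0 ∧
      ∀ k : ℕ, ∫ x, (inner ℝ x v : ℝ) ^ p ∂(σ (k + 1)) -
        ∫ x, (inner ℝ x v : ℝ) ^ p ∂(sg0 n (k + 1)) = R.eval ((((k : ℝ) + 1)) ^ 2) := by
    intro p
    by_cases hp : p = 0
    · subst hp
      refine ⟨0, Or.inl rfl, by simp, fun k => ?_⟩
      have f1 := h.fin (k + 1)
      have f2 := (sg0_sys n).fin (k + 1)
      simp only [pow_zero, integral_const, h.mass_real, (sg0_sys n).mass_real, sub_self,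
        Polynomial.eval_zero]
    · have hp1 : 1 ≤ p := by omega
      refine ⟨P p hp1 - P0 v p, ?_, ?_, fun k => ?_⟩
      · by_cases hz : P p hp1 - P0 v p = 0
        · exact Or.inl hz
        · right
          have h1 := Polynomial.natDegree_sub_le (P p hp1) (P0 v p)
          rcases hP1 p hp1 with h2 | h2 <;> rcases P0_deg v p hp1 with h3 | h3
          · rw [h2, h3] at hz
            simp at hz
          · rw [h2, Polynomial.natDegree_zero] at h1
            have : (P p hp1 - P0 v p).natDegree ≤ (P0 v p).natDegree := by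
              rw [h2]
              simp
            omega
          · rw [h3, Polynomial.natDegree_zero] at h1
            have : (P p hp1 - P0 v p).natDegree ≤ (P p hp1).natDegree := by
              rw [h3]
              simp
            omega
          · have := max_le_iff.2 ⟨(by omega : (P p hp1).natDegree ≤ (p - 2) / 2),
              (by omega : (P0 v p).natDegree ≤ (p - 2) / 2)⟩
            omega
      · rw [Polynomial.eval_sub, hP2 p hp1, P0_zero v p hp1, sub_self]
      · rw [Polynomial.eval_sub, hP3 p hp1 (k + 1) (by omega), P0_spec v p hp1 (k + 1) (by omega)]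
        push_cast
        rfl
  choose R hR1 hR2 hR3 using hR
  have h1 : ∀ j ∈ Finset.range (m + 1), ∀ p ∈ Finset.range (j + 1),
      HasSum (fun k : ℕ => (q j).coeff p * (((-1 : ℝ) ^ (k + 1) * (R p).eval ((((k : ℝ) + 1)) ^ 2) *
      gg (b + j) (Real.pi * ((k : ℝ) + 1)) : ℝ) : ℂ)) 0 := by
    intro j _ p hp
    rw [Finset.mem_range] at hp
    have h2 := hasSum_poly (b + j) (R p) (hR2 p) ((hR1 p).imp_right fun h => by omega)
    have h3 := (Complex.hasSum_ofReal.2 h2).mul_left ((q j).coeff p)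
    rwa [Complex.ofReal_zero, mul_zero] at h3
  have h2 := hasSum_sum fun j hj => hasSum_sum (h1 j hj)
  simp only [Finset.sum_const_zero] at h2
  convert h2 using 1
  funext k
  have f1 := h.fin (k + 1)
  have f2 := (sg0_sys n).fin (k + 1)
  have hT' : ∀ {τ : ℕ → Measure (V n)}, Sys n τ → ∫ x, TT a v m x ∂(τ (k + 1)) =
      ∑ j ∈ Finset.range (m + 1), (gg (b + j) (Real.pi * ((k : ℝ) + 1)) : ℂ) *
      ∑ p ∈ Finset.range (j + 1), (q j).coeff p *
        ((∫ x, (inner ℝ x v : ℝ) ^ p ∂(τ (k + 1)) : ℝ) : ℂ) := by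
    intro τ hτ
    have f3 := hτ.fin (k + 1)
    have hae := hτ.ae (k + 1)
    have e1 : ∫ x, TT a v m x ∂(τ (k + 1)) = ∫ x, ∑ j ∈ Finset.range (m + 1),
        (gg (b + j) (Real.pi * ((k : ℝ) + 1)) : ℂ) * (q j).eval ((inner ℝ x v : ℝ) : ℂ)
        ∂(τ (k + 1)) := by
      refine integral_congr_ae ?_
      filter_upwards [hae] with x hx
      push_cast at hx
      have hx0 : x ≠ 0 := by
        rintro rfl
        rw [norm_zero] at hx
        have : (0 : ℝ) < Real.pi * ((k : ℝ) + 1) := by positivity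
        linarith
      rw [hT x hx0, hx]
      refine Finset.sum_congr rfl fun j _ => ?_
      ring
    rw [e1, integral_finsetSum]
    · refine Finset.sum_congr rfl fun j _ => ?_
      rw [integral_const_mul, integral_poly_inner (τ (k + 1)) (Real.pi * ((k + 1 : ℕ) : ℝ))
        (hae.mono fun x hx => hx.le) v (q j) j (hq j)]
    · intro j _
      refine Integrable.const_mul ?_ _
      obtain ⟨B, hB⟩ : ∃ B : ℝ, ∀ y ∈ Metric.closedBall (0 : V n) (Real.pi * ((k + 1 : ℕ) : ℝ)),
          ‖(q j).eval ((inner ℝ y v : ℝ) : ℂ)‖ ≤ B := by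
        apply (isCompact_closedBall (0 : V n) _).exists_bound_of_continuousOn
        have := (q j).continuous
        exact (this.comp (by fun_prop : Continuous fun y : V n =>
          ((inner ℝ y v : ℝ) : ℂ))).continuousOn
      refine Integrable.of_bound (C := B) ?_ ?_
      · have := (q j).continuous
        exact (this.comp (by fun_prop : Continuous fun y : V n =>
          ((inner ℝ y v : ℝ) : ℂ))).aestronglyMeasurable
      · filter_upwards [hae] with x hx
        exact hB x (by simp [hx])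
  rw [hT' h, hT' (sg0_sys n), ← Finset.sum_sub_distrib, Finset.mul_sum]
  refine Finset.sum_congr rfl fun j _ => ?_
  rw [← mul_sub, ← Finset.sum_sub_distrib, Finset.mul_sum, Finset.mul_sum]
  refine Finset.sum_congr rfl fun p _ => ?_
  rw [← hR3 p k]
  push_cast
  ring

theorem sufficiency (hn : 0 < n) {σ : ℕ → Measure (V n)} (h : Sys n σ) (hM : MomentCond n σ)
    (ξ : V n) (hξ : ‖ξ‖ ≤ 1) :
    ∫ x, ee x ξ * (Real.cos ‖x‖ : ℂ) ∂(Measure.sum σ) = ((‖ξ‖ ^ 2 : ℝ) : ℂ) := by
  have f1 := h.sum_fin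
  have f2 := mu0_fin n
  obtain ⟨b, a, ha, hab⟩ := exists_ab n
  set μ := Measure.sum σ with hμ
  -- continuity in `ξ`
  have hcont : ∀ (μ : Measure (V n)) [IsFiniteMeasure μ], Continuous fun ξ => WW μ ξ 1 := by
    intro μ _
    unfold WW
    refine continuous_of_dominated (bound := fun _ => (1 : ℝ)) ?_ ?_ ?_ ?_
    · intro ξ
      have := continuous_ee_left ξ
      exact (by fun_prop : Continuous fun x : V n =>
        ee x ξ * (Real.cos (1 * ‖x‖) : ℂ)).aestronglyMeasurable
    · intro ξ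
      exact Filter.Eventually.of_forall (WW_bd ξ 1)
    · exact integrable_const _
    · refine Filter.Eventually.of_forall fun x => ?_
      have := continuous_ee_right x
      fun_prop
  have hF : Continuous fun ξ => KK μ ξ 1 := (hcont μ).sub (hcont (mu0 n))
  have hD : ∀ ξ : V n, KK μ ξ 1 * (wt a 1 ξ : ℂ) = 0 := by
    refine zero_of_moments (fun ξ => KK μ ξ 1 * (wt a 1 ξ : ℂ)) ?_ ?_ ?_
    · have := continuous_wt (n := n) ha 1
      fun_prop
    · intro ξ hξ
      rw [wt_vanish ha zero_le_one hξ]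
      simp
    · intro v m
      obtain ⟨q, hq, hT⟩ := T_struct hn b a ha hab v m
      have key := test_diff (a := a) (b := b) h hM v m q hq hT
      have e0 : ∀ μ' : Measure (V n), IsFiniteMeasure μ' →
          Integrable (fun ξ : V n => ((inner ℝ v ξ : ℝ) : ℂ) ^ m * (WW μ' ξ 1 * (wt a 1 ξ : ℂ))) := by
        intro μ' _
        have hc1 := continuous_wt (n := n) ha 1
        have hc2 := hcont μ'
        refine Continuous.integrable_of_hasCompactSupport (by fun_prop) ?_
        have hs : HasCompactSupport fun ξ : V n => (wt a 1 ξ : ℂ) :=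
          (hasCompactSupport_wt (n := n) ha zero_le_one).comp_left Complex.ofReal_zero
        exact (hs.mul_left).mul_left
      have e1 : ∫ ξ : V n, ((inner ℝ v ξ : ℝ) : ℂ) ^ m * (KK μ ξ 1 * (wt a 1 ξ : ℂ)) =
          ∫ x, (Real.cos ‖x‖ : ℂ) * TT a v m x ∂μ -
          ∫ x, (Real.cos ‖x‖ : ℂ) * TT a v m x ∂(mu0 n) := by
        rw [← test_eq μ ha v m, ← test_eq (mu0 n) ha v m, ← integral_sub (e0 μ f1) (e0 _ f2)]
        congr 1
        funext ξ
        unfold KK
        ring
      rw [e1]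
      set B : ℝ := ∫ ξ : V n, |inner ℝ v ξ| ^ m * wt a 1 ξ
      have hTc := TT_continuous ha v m
      have hbd : ∀ x : V n, ‖(Real.cos ‖x‖ : ℂ) * TT a v m x‖ ≤ B := by
        intro x
        rw [norm_mul, Complex.norm_real, Real.norm_eq_abs]
        calc _ ≤ 1 * B := mul_le_mul (Real.abs_cos_le_one _) (TT_norm_le ha v m x)
              (norm_nonneg _) zero_le_one
          _ = B := one_mul B
      have s1 := h.hasSum (f := fun x => (Real.cos ‖x‖ : ℂ) * TT a v m x) (by fun_prop) hbd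
      have s2 := (sg0_sys n).hasSum (f := fun x => (Real.cos ‖x‖ : ℂ) * TT a v m x)
        (by fun_prop) hbd
      have s3 := s1.sub s2
      have s4 : HasSum (fun k : ℕ => ∫ x, (Real.cos ‖x‖ : ℂ) * TT a v m x ∂(σ (k + 1)) -
          ∫ x, (Real.cos ‖x‖ : ℂ) * TT a v m x ∂(sg0 n (k + 1))) 0 := by
        convert key using 1
        funext k
        have e2 : ∀ {τ : ℕ → Measure (V n)}, Sys n τ →
            ∫ x, (Real.cos ‖x‖ : ℂ) * TT a v m x ∂(τ (k + 1)) =
            (((-1 : ℝ) ^ (k + 1) : ℝ) : ℂ) * ∫ x, TT a v m x ∂(τ (k + 1)) := by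
          intro τ hτ
          rw [← integral_const_mul]
          refine integral_congr_ae ?_
          filter_upwards [hτ.ae (k + 1)] with x hx
          rw [hx, cos_pi_mul]
        rw [e2 h, e2 (sg0_sys n), mul_sub]
      have s5 := (hasSum_nat_add_iff (f := fun k : ℕ => ∫ x, (Real.cos ‖x‖ : ℂ) * TT a v m x ∂(σ k) -
          ∫ x, (Real.cos ‖x‖ : ℂ) * TT a v m x ∂(sg0 n k)) 1).1 s4
      have s6 := s3.unique s5
      unfold mu0
      rw [hμ, s6]
      simp only [Finset.range_one, Finset.sum_singleton, zero_add]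
      rw [integral_zero_part h, integral_zero_part (sg0_sys n), sub_self]
  have hball : ∀ ξ ∈ Metric.ball (0 : V n) 1, KK μ ξ 1 = 0 := by
    intro ξ hξ
    rw [mem_ball_zero_iff] at hξ
    have h1 := hD ξ
    exact (mul_eq_zero.1 h1).resolve_right (by exact_mod_cast (wt_pos zero_le_one hξ).ne')
  have hcl : ∀ ξ ∈ closure (Metric.ball (0 : V n) 1), KK μ ξ 1 = 0 := by
    intro ξ hξ
    have hclosed : IsClosed {ξ : V n | KK μ ξ 1 = 0} := isClosed_eq hF continuous_const
    exact hclosed.closure_subset_iff.2 hball hξ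
  rw [closure_ball (0 : V n) one_ne_zero] at hcl
  have h1 := hcl ξ (by simpa using hξ)
  have h2 := known_fourier ξ hξ
  unfold KK WW at h1
  simp only [one_mul] at h1
  rw [sub_eq_zero.1 h1]
  unfold mu0
  exact h2

end Pool.Agent.Helper3K9.EM
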