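import Mathlib
import Pool.Agent.Helper3K9.EM.Suf
import Pool.Agent.Helper3K9.EM.Polar

/-!
# Final lemmas for the characterisation of extremal measures
-/

open MeasureTheory Set
open scoped Polynomial

namespace Pool.Agent.Helper3K9.EM

variable {n : ℕ}

theorem Sys.zero {σ : ℕ → Measure (V n)} (h : Sys n σ) :
    σ 0 = ENNReal.ofReal ((n : ℝ) / 3) • Measure.dirac 0 := by
  have hm : mm n 0 = (n : ℝ) / 3 := by simp [mm]
  ext s hs
  rw [Measure.smul_apply, Measure.dirac_apply' _ hs]
  have h0 : σ 0 {x | x ≠ 0} = 0 := by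
    have := h.sph 0
    simpa using this
  by_cases h1 : (0 : V n) ∈ s
  · have e : σ 0 s = σ 0 univ := by
      apply le_antisymm (measure_mono (subset_univ s))
      have : (univ : Set (V n)) ⊆ s ∪ {x | x ≠ 0} := by
        intro x _
        by_cases hx : x = 0
        · left
          rwa [hx]
        · right
          exact hx
      calc σ 0 univ ≤ σ 0 (s ∪ {x | x ≠ 0}) := measure_mono this
        _ ≤ σ 0 s + σ 0 {x | x ≠ 0} := measure_union_le _ _
        _ = σ 0 s := by rw [h0, add_zero]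
    rw [e, h.mass, hm]
    simp [h1]
  · have e : σ 0 s = 0 := by
      apply measure_mono_null _ h0
      intro x hx
      simp only [ne_eq, mem_ofPred_eq]
      rintro rfl
      exact h1 hx
    rw [e]
    simp [h1]

/-- the value of the signed sum on a set. -/
theorem Sys.hasSum_set {σ : ℕ → Measure (V n)} (h : Sys n σ) {B : Set (V n)}
    (hB : MeasurableSet B) :
    HasSum (fun k : ℕ => (((-1) ^ (k + 1) * (σ (k + 1)).real B : ℝ) : ℂ))
      (-(((Measure.sum σ).withDensityᵥ ps : ComplexMeasure (V n)) B) -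
        (((n : ℝ) / 3 * (Measure.dirac (0 : V n)).real B : ℝ) : ℂ)) := by
  have f1 := h.sum_fin
  have hi : Integrable (ps : V n → ℂ) (Measure.sum σ) :=
    Integrable.of_bound ps_meas.aestronglyMeasurable 1 (Filter.Eventually.of_forall ps_le)
  have e1 : -(((Measure.sum σ).withDensityᵥ ps : ComplexMeasure (V n)) B) =
      ∫ x, B.indicator (fun x => (Real.cos ‖x‖ : ℂ)) x ∂(Measure.sum σ) := by
    rw [withDensityᵥ_apply hi hB, integral_indicator hB, ← integral_neg]
    refine integral_congr_ae (Filter.Eventually.of_forall fun x => ?_)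
    simp only
    unfold ps
    rw [neg_neg]
  have hi2 : Integrable (B.indicator (fun x : V n => (Real.cos ‖x‖ : ℂ))) (Measure.sum σ) := by
    refine Integrable.indicator ?_ hB
    refine Integrable.of_bound
      (by fun_prop : Continuous fun x : V n => (Real.cos ‖x‖ : ℂ)).aestronglyMeasurable 1
      (Filter.Eventually.of_forall fun x => ?_)
    rw [Complex.norm_real, Real.norm_eq_abs]
    exact Real.abs_cos_le_one _
  have s1 := hasSum_integral_measure hi2
  rw [← e1] at s1
  have e3 : ∀ k : ℕ, ∫ x, B.indicator (fun x : V n => (Real.cos ‖x‖ : ℂ)) x ∂(σ k) =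
      (((-1) ^ k * (σ k).real B : ℝ) : ℂ) := by
    intro k
    rw [integral_indicator hB]
    have : ∫ x in B, (Real.cos ‖x‖ : ℂ) ∂(σ k) = ∫ x in B, (((-1) ^ k : ℝ) : ℂ) ∂(σ k) := by
      refine integral_congr_ae ?_
      filter_upwards [ae_restrict_of_ae (h.ae k)] with x hx
      rw [hx, cos_pi_mul]
    rw [this, integral_const]
    simp [mul_comm]
  simp_rw [e3] at s1
  have s2 := (hasSum_nat_add_iff' (f := fun k : ℕ => (((-1) ^ k * (σ k).real B : ℝ) : ℂ)) 1).2 s1
  have e4 : ∑ i ∈ Finset.range 1, (((-1) ^ i * (σ i).real B : ℝ) : ℂ) =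
      (((n : ℝ) / 3 * (Measure.dirac (0 : V n)).real B : ℝ) : ℂ) := by
    rw [Finset.sum_range_one, h.zero]
    simp [measureReal_def, ENNReal.toReal_ofReal (by positivity : 0 ≤ (n : ℝ) / 3)]
  rw [e4] at s2
  exact s2

theorem mu_sys_one {σ : ℕ → Measure (V n)} (h : Sys n σ) :
    ∀ᵐ x ∂(Measure.sum σ), ‖(ps x : ℂ)‖ = 1 := by
  filter_upwards [h.sum_ae] with x hx
  unfold ps
  rw [norm_neg, Complex.norm_real, Real.norm_eq_abs]
  have := sq_cos_of hx
  have h2 : |Real.cos ‖x‖| ^ 2 = 1 := by rwa [sq_abs]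
  exact (pow_eq_one_iff_of_nonneg (abs_nonneg _) two_ne_zero).1 h2

end Pool.Agent.Helper3K9.EM
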